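import Mathlib

/-!
Choice of the parameters.
-/

namespace Pool.Agent.H.MP_1611f1_gt.TP

open Topology Set Filter

/-- a positive real number which is not a root of an integer polynomial -/
private theorem Sel_trans : ∃ B : ℝ, 0 < B ∧ Transcendental ℤ B := by
  refine ⟨liouvilleNumber 2, ?_, by
    simpa using transcendental_liouvilleNumber (m := 2) le_rfl⟩
  have h := LiouvilleNumber.summable (m := 2) (by norm_num)
  exact h.tsum_pos (fun i => by positivity) 0 (by positivity)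

/-- generic numbers of prescribed signs -/
private theorem Sel_gen {I W : Type*} [Fintype I] (y : I → ℝ) (hy : ∀ v, y v ≠ 0)
    (num : W → I → ℤ) (v₀ : I) : ∃ d : I → ℝ, (∀ v, 0 < d v * y v) ∧
      ∀ w, (∃ v, v ≠ v₀ ∧ num w v ≠ 0) → ∀ a : I → ℤ, (∀ v, v ≠ v₀ → a v = num w v) →
        a v₀ = 0 → ∑ v, (a v : ℝ) * d v ≠ 0 := by
  classical
  obtain ⟨B, hB0, hB⟩ := Sel_trans
  obtain ⟨e⟩ : Nonempty (I ≃ Fin (Fintype.card I)) := ⟨Fintype.equivFin I⟩
  obtain ⟨σ, hσ⟩ : ∃ σ : I → ℤ, σ = fun v => if 0 < y v then 1 else -1 := ⟨_, rfl⟩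
  have hσ0 : ∀ v, σ v ≠ 0 := by
    intro v
    rw [hσ]
    show (if 0 < y v then (1 : ℤ) else -1) ≠ 0
    split_ifs <;> norm_num
  have hσy : ∀ v, 0 < (σ v : ℝ) * y v := by
    intro v
    rw [hσ]
    show 0 < (((if 0 < y v then (1 : ℤ) else -1) : ℤ) : ℝ) * y v
    split_ifs with h
    · push_cast
      linarith
    · have h1 : y v < 0 := lt_of_le_of_ne (not_lt.1 h) (hy v)
      push_cast
      linarith
  refine ⟨fun v => (σ v : ℝ) * B ^ (e v : ℕ), fun v => ?_, ?_⟩
  · have h1 := mul_pos (hσy v) (pow_pos hB0 (e v : ℕ))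
    have h2 : (σ v : ℝ) * B ^ (e v : ℕ) * y v = (σ v : ℝ) * y v * B ^ (e v : ℕ) := by ring
    rw [h2]
    exact h1
  · rintro w ⟨v, hv, hv'⟩ a ha ha0 hsum
    refine hB ⟨∑ v, Polynomial.C (a v * σ v) * Polynomial.X ^ (e v : ℕ), ?_, ?_⟩
    · intro h0
      have h1 : (∑ v, Polynomial.C (a v * σ v) * Polynomial.X ^ (e v : ℕ) :
          Polynomial ℤ).coeff (e v : ℕ) = a v * σ v := by
        rw [Polynomial.finsetSum_coeff, Finset.sum_eq_single v]
        · rw [Polynomial.coeff_C_mul, Polynomial.coeff_X_pow, if_pos rfl, mul_one]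
        · intro u _ huv
          rw [Polynomial.coeff_C_mul, Polynomial.coeff_X_pow, if_neg, mul_zero]
          intro hc
          exact huv (e.injective (Fin.ext hc)).symm
        · intro hc
          exact absurd (Finset.mem_univ v) hc
      rw [h0, Polynomial.coeff_zero, ha v hv] at h1
      exact (mul_ne_zero hv' (hσ0 v)) h1.symm
    · rw [map_sum, ← hsum]
      refine Finset.sum_congr rfl fun v _ => ?_
      rw [map_mul, Polynomial.aeval_C, map_pow, Polynomial.aeval_X]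
      simp only [algebraMap_int_eq, eq_intCast, Int.cast_mul]
      ring

/-- the parameter which belongs to a logarithm -/
private theorem Sel_term {x y l : ℝ} (hy : y ≠ 0) (hl : 0 < l * y) :
    0 < (Real.exp l - 1) / y ∧ 1 + (Real.exp l - 1) / y * y = Real.exp l ∧
      (Real.exp l - 1) / y * x * (1 - 1 / (1 + (Real.exp l - 1) / y * y)) =
        x / y * (4 * Real.sinh (l / 2) ^ 2) := by
  have h1 : 1 + (Real.exp l - 1) / y * y = Real.exp l := by
    rw [div_mul_cancel₀ _ hy]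
    ring
  refine ⟨?_, h1, ?_⟩
  · rcases lt_or_gt_of_ne hy with h | h
    · have hl0 : l < 0 := by
        by_contra hc
        have := mul_nonpos_of_nonneg_of_nonpos (not_lt.1 hc) h.le
        linarith
      have h2 : Real.exp l < 1 := by
        rw [← Real.exp_zero]
        exact Real.exp_lt_exp.2 hl0
      exact div_pos_of_neg_of_neg (by linarith) h
    · have hl0 : 0 < l := by
        by_contra hc
        have := mul_nonpos_of_nonpos_of_nonneg (not_lt.1 hc) h.le
        linarith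
      have h2 : 1 < Real.exp l := Real.one_lt_exp_iff.2 hl0
      exact div_pos (by linarith) h
  · rw [h1, Real.sinh_eq]
    have h3 : Real.exp l = Real.exp (l / 2) * Real.exp (l / 2) := by
      rw [← Real.exp_add]
      congr 1
      ring
    have h4 : Real.exp (-(l / 2)) = (Real.exp (l / 2))⁻¹ := Real.exp_neg _
    have h5 : Real.exp (l / 2) ≠ 0 := (Real.exp_pos _).ne'
    rw [h3, h4]
    field_simp
    ring

/-- Numbers `c v > 0` with `1 + c v y v > 0` such that the sum of the terms `c v * x v * (1 - 1 / (1 + c v y v))`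
is a given number `s` (which has the same sign as one of the products `x v * y v`), and such that finitely
many integer combinations of the logarithms of `1 + c v y v` are not zero. (Let `v₀` be the index with
`0 < s x y`; for `v ≠ v₀` take `log (1 + c v y v) = τ d v`, `d v` of the sign of `y v`, generic, `τ` small; then
`c v₀` is determined, by the intermediate value theorem, and stays away from `0`.) -/
theorem exists_par {I W : Type*} [Fintype I] [Finite W] (x y : I → ℝ)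
    (hx : ∀ v, x v ≠ 0) (hy : ∀ v, y v ≠ 0) (num : W → I → ℤ) (hnum : ∀ w, ∃ v, num w v ≠ 0) (s : ℝ)
    (hs : ∃ v, 0 < s * (x v * y v)) :
    ∃ c : I → ℝ, (∀ v, 0 < c v) ∧ (∀ v, 0 < 1 + c v * y v) ∧
      (∑ v, c v * x v * (1 - 1 / (1 + c v * y v)) = s) ∧
      ∀ w, ∑ v, num w v * Real.log (1 + c v * y v) ≠ 0 := by
  classical
  obtain ⟨v₀, hv₀⟩ := hs
  obtain ⟨d, hd, hgen⟩ := Sel_gen y hy num v₀
  -- it is enough to find the logarithms
  suffices h : ∃ l : I → ℝ, (∀ v, 0 < l v * y v) ∧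
      (∑ v, x v / y v * (4 * Real.sinh (l v / 2) ^ 2) = s) ∧ ∀ w, ∑ v, num w v * l v ≠ 0 by
    obtain ⟨l, h1, h2, h3⟩ := h
    refine ⟨fun v => (Real.exp (l v) - 1) / y v, fun v => (Sel_term (x := x v) (hy v) (h1 v)).1,
      fun v => ?_, ?_, fun w => ?_⟩
    · show 0 < 1 + (Real.exp (l v) - 1) / y v * y v
      rw [(Sel_term (x := x v) (hy v) (h1 v)).2.1]
      exact Real.exp_pos _
    · rw [← h2]
      exact Finset.sum_congr rfl fun v _ => (Sel_term (x := x v) (hy v) (h1 v)).2.2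
    · have h4 : ∑ v, (num w v : ℝ) * Real.log (1 + (Real.exp (l v) - 1) / y v * y v) =
          ∑ v, (num w v : ℝ) * l v := by
        refine Finset.sum_congr rfl fun v _ => ?_
        rw [(Sel_term (x := x v) (hy v) (h1 v)).2.1, Real.log_exp]
      rw [h4]
      exact h3 w
  -- the sign at `v₀`
  obtain ⟨σ, hσy, hσ⟩ : ∃ σ : ℝ, 0 < σ * y v₀ ∧ σ ^ 2 = 1 := by
    rcases lt_or_gt_of_ne (hy v₀) with h | h
    · exact ⟨-1, by linarith, by norm_num⟩
    · exact ⟨1, by linarith, by norm_num⟩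
  have hσ0 : σ ≠ 0 := by
    intro hc
    rw [hc] at hσ
    norm_num at hσ
  obtain ⟨R, hR⟩ : ∃ R : ℝ → ℝ, R = fun τ => ∑ v ∈ Finset.univ.erase v₀,
      x v / y v * (4 * Real.sinh (τ * d v / 2) ^ 2) := ⟨_, rfl⟩
  have hRc : Continuous R := by
    rw [hR]
    refine continuous_finsetSum _ fun v _ => ?_
    have : Continuous fun τ : ℝ => Real.sinh (τ * d v / 2) := Real.continuous_sinh.comp (by fun_prop)
    fun_prop
  have hR0 : R 0 = 0 := by
    rw [hR]
    refine Finset.sum_eq_zero fun v _ => ?_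
    simp
  obtain ⟨κ, hκ⟩ : ∃ κ : ℝ → ℝ, κ = fun τ => (s - R τ) * (y v₀ / x v₀) := ⟨_, rfl⟩
  have hκc : Continuous κ := by
    rw [hκ]
    fun_prop
  have hκ0 : 0 < κ 0 := by
    rw [hκ]
    show 0 < (s - R 0) * (y v₀ / x v₀)
    rw [hR0, sub_zero]
    have h1 : s * (y v₀ / x v₀) = s * (x v₀ * y v₀) / x v₀ ^ 2 := by
      have := hx v₀
      field_simp
    rw [h1]
    exact div_pos hv₀ (by have := hx v₀; positivity)
  obtain ⟨l₀, hl₀⟩ : ∃ l₀ : ℝ → ℝ, l₀ = fun τ => σ * (2 * Real.arsinh (√(κ τ) / 2)) := ⟨_, rfl⟩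
  have hl₀c : Continuous l₀ := by
    rw [hl₀]
    have h1 : Continuous fun τ => √(κ τ) / 2 := (Real.continuous_sqrt.comp hκc).div_const 2
    have h2 : Continuous fun τ => Real.arsinh (√(κ τ) / 2) := h1.arsinh
    fun_prop
  have hl₀0 : l₀ 0 ≠ 0 := by
    rw [hl₀]
    refine mul_ne_zero hσ0 (mul_ne_zero two_ne_zero ?_)
    have h1 : 0 < √(κ 0) / 2 := by
      have := Real.sqrt_pos.2 hκ0
      linarith
    exact (Real.arsinh_pos_iff.2 h1).ne'
  have hev1 : ∀ᶠ τ in 𝓝 (0 : ℝ), 0 < κ τ := hκc.continuousAt.eventually (lt_mem_nhds hκ0)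
  have hev2 : ∀ᶠ τ in 𝓝 (0 : ℝ), ∀ w, num w v₀ ≠ 0 →
      (num w v₀ : ℝ) * l₀ τ + τ * ∑ v ∈ Finset.univ.erase v₀, (num w v : ℝ) * d v ≠ 0 := by
    rw [eventually_all]
    intro w
    by_cases hw : num w v₀ = 0
    · exact Eventually.of_forall fun τ h => absurd hw h
    · have hc : Continuous fun τ : ℝ => (num w v₀ : ℝ) * l₀ τ +
          τ * ∑ v ∈ Finset.univ.erase v₀, (num w v : ℝ) * d v := by fun_prop
      have h0 : (num w v₀ : ℝ) * l₀ 0 +
          0 * ∑ v ∈ Finset.univ.erase v₀, (num w v : ℝ) * d v ≠ 0 := by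
        rw [zero_mul, add_zero]
        exact mul_ne_zero (by exact_mod_cast hw) hl₀0
      filter_upwards [hc.continuousAt.eventually_ne h0] with τ hτ _
      exact hτ
  obtain ⟨τ, hτ0, hτ1, hτ2⟩ : ∃ τ : ℝ, 0 < τ ∧ 0 < κ τ ∧ ∀ w, num w v₀ ≠ 0 →
      (num w v₀ : ℝ) * l₀ τ + τ * ∑ v ∈ Finset.univ.erase v₀, (num w v : ℝ) * d v ≠ 0 := by
    have h1 : ∀ᶠ τ in 𝓝[>] (0 : ℝ), 0 < τ := self_mem_nhdsWithin
    have h2 := (h1.and ((hev1.and hev2).filter_mono nhdsWithin_le_nhds)).exists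
    obtain ⟨τ, a, b, c⟩ := h2
    exact ⟨τ, a, b, c⟩
  have hupd : ∀ (f : I → ℝ → ℝ), ∑ v, f v (if v = v₀ then l₀ τ else τ * d v) =
      f v₀ (l₀ τ) + ∑ v ∈ Finset.univ.erase v₀, f v (τ * d v) := by
    intro f
    rw [← Finset.add_sum_erase Finset.univ _ (Finset.mem_univ v₀), if_pos rfl]
    congr 1
    refine Finset.sum_congr rfl fun v hv => ?_
    rw [if_neg (Finset.ne_of_mem_erase hv)]
  refine ⟨fun v => if v = v₀ then l₀ τ else τ * d v, fun v => ?_, ?_, fun w => ?_⟩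
  · show 0 < (if v = v₀ then l₀ τ else τ * d v) * y v
    split_ifs with h
    · rw [h, hl₀]
      show 0 < σ * (2 * Real.arsinh (√(κ τ) / 2)) * y v₀
      have h1 : 0 < √(κ τ) / 2 := by
        have := Real.sqrt_pos.2 hτ1
        linarith
      have h2 := Real.arsinh_pos_iff.2 h1
      have h3 : σ * (2 * Real.arsinh (√(κ τ) / 2)) * y v₀ =
          σ * y v₀ * (2 * Real.arsinh (√(κ τ) / 2)) := by ring
      rw [h3]
      exact mul_pos hσy (by linarith)
    · rw [mul_assoc]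
      exact mul_pos hτ0 (hd v)
  · rw [hupd fun v l => x v / y v * (4 * Real.sinh (l / 2) ^ 2)]
    have h1 : Real.sinh (l₀ τ / 2) ^ 2 = κ τ / 4 := by
      rw [hl₀]
      show Real.sinh (σ * (2 * Real.arsinh (√(κ τ) / 2)) / 2) ^ 2 = κ τ / 4
      have h2 : σ * (2 * Real.arsinh (√(κ τ) / 2)) / 2 = σ * Real.arsinh (√(κ τ) / 2) := by ring
      rw [h2]
      have h3 : σ = 1 ∨ σ = -1 := sq_eq_one_iff.1 hσ
      have h4 : (√(κ τ) / 2) ^ 2 = κ τ / 4 := by
        rw [div_pow, Real.sq_sqrt hτ1.le]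
        norm_num
      rcases h3 with h3 | h3
      · rw [h3, one_mul, Real.sinh_arsinh, h4]
      · rw [h3, neg_one_mul, Real.sinh_neg, Real.sinh_arsinh, neg_sq, h4]
    rw [h1]
    have h5 : ∑ v ∈ Finset.univ.erase v₀, x v / y v * (4 * Real.sinh (τ * d v / 2) ^ 2) = R τ := by
      rw [hR]
    rw [h5, hκ]
    show x v₀ / y v₀ * (4 * ((s - R τ) * (y v₀ / x v₀) / 4)) + R τ = s
    have h6 := hx v₀
    have h7 := hy v₀
    field_simp
    ring
  · rw [hupd fun v l => (num w v : ℝ) * l]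
    have h1 : ∑ v ∈ Finset.univ.erase v₀, (num w v : ℝ) * (τ * d v) =
        τ * ∑ v ∈ Finset.univ.erase v₀, (num w v : ℝ) * d v := by
      rw [Finset.mul_sum]
      exact Finset.sum_congr rfl fun v _ => by ring
    rw [h1]
    by_cases hw : num w v₀ = 0
    · rw [hw, Int.cast_zero, zero_mul, zero_add]
      refine mul_ne_zero hτ0.ne' ?_
      obtain ⟨v, hv⟩ := hnum w
      have hvv : v ≠ v₀ := fun hc => hv (by rw [hc, hw])
      have h2 := hgen w ⟨v, hvv, hv⟩ (num w) (fun _ _ => rfl) hw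
      rw [← Finset.add_sum_erase Finset.univ _ (Finset.mem_univ v₀), hw, Int.cast_zero, zero_mul,
        zero_add] at h2
      exact h2
    · exact hτ2 w hw

end Pool.Agent.H.MP_1611f1_gt.TP
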