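import Pool.Agent.H.MP_1611f1_gt.TP.Asm
import Pool.Agent.H.MP_1611f1_gt.TP.Sel
import Pool.Agent.H.MP_1611f1_gt.TR.Main

/-!
The pieces `plumb`, first case.
-/

namespace Pool.Agent.H.MP_1611f1_gt.TP

open Topology Set Filter
open Pool.Agent.H.MP_1611f1_gt.BR.U (Ci cl yt hlf psi cu rmp ang)
open Pool.Agent.H.MP_1611f1_gt.LG (Cylinder solidTorus LeafCurve Drilled)
open Pool.Agent.H.MP_1611f1_gt.G (Ended Linear Detected MTorus)

/-- the curves of the class `c`, as the curves `v ∈ I` (`χ` is a lift of `kap` at the end: take the sum of the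
lifts in `half_end` and `rest_end`) -/
noncomputable def Plumb.two {S : Type*} [TopologicalSpace S] {J K : Type*} (P : Plumb S J K) (c : Bool) :
    Two S J {e // P.cls e = c} where
  E := P.E
  kap v := P.A.kap v.1
  half v := P.half v.1
  ν v := P.ν v.1
  emb v := P.emb v.1
  out v := P.out v.1
  disj v v' z z' h := by
    by_contra hne
    exact P.meet v.1 v'.1 z z' (fun h' => hne (Subtype.ext h')) h (v.2.trans v'.2.symm)
  f v := P.f v.1
  f_cont v := P.f_cont v.1
  mono v := P.mono v.1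
  f_add v θ := by
    have h := P.f_add v.1 θ
    rw [P.deg_one, Int.cast_one] at h
    exact h
  cross v := P.cross v.1
  other v v' z h := P.other v.1 v'.1 z (fun h' => h (Subtype.ext h'))
  half_or v := P.half_or v.1
  half_cont v := P.half_cont v.1
  half_pos v := P.half_pos v.1
  half_neg v := P.half_neg v.1
  φ v j := (P.half_end v.1 j).choose
  φ_cont v j := (P.half_end v.1 j).choose_spec.1
  φ_add v j := (P.half_end v.1 j).choose_spec.2.1
  φ_end v j := (P.half_end v.1 j).choose_spec.2.2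
  χ v j θ := (P.half_end v.1 j).choose θ + (P.rest_end v.1 j).choose θ
  χ_cont v j := (P.half_end v.1 j).choose_spec.1.add (P.rest_end v.1 j).choose_spec.1
  χ_add v j θ := by
    rw [(P.half_end v.1 j).choose_spec.2.1, (P.rest_end v.1 j).choose_spec.2.1]
    ring
  χ_end v j θ r := by
    have h1 := (P.half_end v.1 j).choose_spec.2.2 θ r
    have h2 := (P.rest_end v.1 j).choose_spec.2.2 θ r
    have h3 : (((P.half_end v.1 j).choose θ + (P.rest_end v.1 j).choose θ : ℝ) : Ci) =
        (((P.half_end v.1 j).choose θ : ℝ) : Ci) + (((P.rest_end v.1 j).choose θ : ℝ) : Ci) :=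
      AddCircle.coe_add _ _ _
    rw [h3, ← h1, ← h2]
    exact (add_sub_cancel _ _).symm

/-- the curves of the other class -/
private noncomputable def Red_W {S : Type*} [TopologicalSpace S] {J K : Type*} (P : Plumb S J K)
    (c : Bool) (w : {e // P.cls e ≠ c}) : WC (P.two c) where
  μ := P.ν w.1
  emb := P.emb w.1
  out := P.out w.1
  zero v z := P.other w.1 v.1 z (fun h => w.2 (h ▸ v.2))
  cr v := P.cr v.1 w.1
  cr_cont v := P.cr_cont v.1 w.1
  num v := P.num v.1 w.1
  cr_add v := P.cr_add v.1 w.1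
  cr_in v θ u z h := P.cr_in v.1 w.1 θ u z (fun h' => w.2 (h' ▸ v.2)) h
  cr_out v θ u h := P.cr_out v.1 w.1 θ u (fun h' => w.2 (h' ▸ v.2)) h

/-- quotients with the same fibres -/
private theorem Red_homeo {X Y Z : Type*} [TopologicalSpace X] [TopologicalSpace Y]
    [TopologicalSpace Z] {p : X → Y} {q : X → Z} (hp : IsQuotientMap p) (hq : IsQuotientMap q)
    (h : ∀ x x', p x = p x' ↔ q x = q x') : ∃ e : Y ≃ₜ Z, ∀ x, e (p x) = q x := by
  choose s hs using hp.surjective
  choose s' hs' using hq.surjective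
  have h1 : ∀ x, q (s (p x)) = q x := fun x => (h _ _).1 (hs (p x))
  have h2 : ∀ x, p (s' (q x)) = p x := fun x => (h _ _).2 (hs' (q x))
  refine ⟨{ toFun := fun y => q (s y)
            invFun := fun z => p (s' z)
            left_inv := fun y => ?_
            right_inv := fun z => ?_
            continuous_toFun := ?_
            continuous_invFun := ?_ }, h1⟩
  · show p (s' (q (s y))) = y
    rw [h2, hs]
  · show q (s (p (s' z))) = z
    rw [h1, hs']
  · rw [hp.continuous_iff]
    have h3 : (fun y => q (s y)) ∘ p = q := funext h1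
    rw [h3]
    exact hq.continuous
  · rw [hq.continuous_iff]
    have h3 : (fun z => p (s' z)) ∘ q = p := funext h2
    rw [h3]
    exact hp.continuous

private theorem Red_prodMap {X Y Z W : Type*} [TopologicalSpace X] [TopologicalSpace Y]
    [TopologicalSpace Z] [TopologicalSpace W] {f : X → Y} {g : Z → W} (hf : IsLocalHomeomorph f)
    (hg : IsLocalHomeomorph g) : IsLocalHomeomorph (Prod.map f g) := by
  intro x
  obtain ⟨e, he, hfe⟩ := hf x.1
  obtain ⟨e', he', hge⟩ := hg x.2
  refine ⟨e.prod e', ⟨he, he'⟩, ?_⟩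
  rw [hfe, hge]
  rfl

/-- the product `S × S¹` -/
private theorem Red_prod {S : Type*} [TopologicalSpace S] {J : Type*} {E : Surf S J} {M₀ : Type*}
    [TopologicalSpace M₀] {T₀ : Ended M₀ J} (Mt : MTorus E (Homeomorph.refl S) T₀) :
    ∃ e : M₀ ≃ₜ S × Ci, ∀ (x : S) (t : ℝ), e (Mt.p (x, t)) = (x, (t : Ci)) := by
  have hq : IsLocalHomeomorph (Prod.map id (fun t : ℝ => (t : Ci)) : S × ℝ → S × Ci) :=
    Red_prodMap (Homeomorph.refl S).isLocalHomeomorph (AddCircle.isLocalHomeomorph_coe (1 : ℝ))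
  have hs : Function.Surjective (Prod.map id (fun t : ℝ => (t : Ci)) : S × ℝ → S × Ci) :=
    Function.surjective_id.prodMap QuotientAddGroup.mk_surjective
  obtain ⟨e, he⟩ := Red_homeo
    (Mt.p_loc.isOpenMap.isQuotientMap Mt.p_loc.continuous Mt.p_surj)
    (hq.isOpenMap.isQuotientMap hq.continuous hs) (by
      rintro ⟨x, t⟩ ⟨x', t'⟩
      rw [TR.refl_eq]
      constructor
      · rintro ⟨k, hk, hx⟩
        refine Prod.ext hx ?_
        show (t : Ci) = (t' : Ci)
        rw [hk, AddCircle.coe_add]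
        have h1 : ((k : ℝ) : Ci) = 0 := by
          rw [AddCircle.coe_eq_zero_iff]
          exact ⟨k, by simp⟩
        rw [h1, add_zero]
      · intro h
        have h1 : (t : Ci) = (t' : Ci) := congrArg Prod.snd h
        have h2 : ((t' - t : ℝ) : Ci) = 0 := by
          rw [AddCircle.coe_sub, h1, sub_self]
        rw [AddCircle.coe_eq_zero_iff] at h2
        obtain ⟨k, hk⟩ := h2
        refine ⟨k, ?_, congrArg Prod.fst h⟩
        rw [zsmul_one] at hk
        linarith)
  exact ⟨e, fun x t => he (x, t)⟩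

/-- First case, positive at the old end. Let `c = P.cls k`; the class `c` is moved to the time `0`, the other class
to the time `3/8` (both with the half-width `1/32`): `TR.exists_lifts`, `TR.exists_fibre` with `V e = 0` resp. `3/8`,
`W e = t e + m e`, `r = 1/16`, `ρ = 2 ε`, and `TR.exists_twist`; see the proof of `TR.tree_detected_pos`. The manifold
`M₀` is homeomorphic to `S × S¹` by `Mt'`, and this gives `Rem (P.two c) W T'`, where `T'` is `T` with the index set
`{old} ⊕ ({class c} ⊕ {other class})` (`LS.tim s = s / 8` for `-6 ≤ s ≤ -2`, so `WC.nb` is the tube at `3/8`). Then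
`exists_par` with `s = x j / y j`, `num w v = P.num v w`, `q v = c v * x v`, `lam v = 1 + c v * y v`, and
`two_detected`. -/
theorem plumb_pos {M : Type*} [TopologicalSpace M] {J : Type*} {T : Ended M J}
    {x y : J → ℝ} {S : Type*} [TopologicalSpace S] [ConnectedSpace S] {old : J → Prop}
    [Unique {j // old j}] (hN : 2 ≤ Nat.card {j // ¬ old j})
    (P : Plumb S {j // old j} {j // ¬ old j})
    {M₀ : Type*} [TopologicalSpace M₀] [T2Space M₀] {T₀ : Ended M₀ {j // old j}}
    (Mt : MTorus P.E (Homeomorph.refl S) T₀) (t : {j // ¬ old j} → ℝ) {ε : ℝ} (hε : 0 < ε)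
    (hε1 : 4 * ε < 1)
    (sep : ∀ e f, e ≠ f → (∃ z w, P.ν e z = P.ν f w) → ∀ m : ℤ, 4 * ε < |t e - t f + m|)
    (D : Drilled T₀ (fun k z => Mt.p (P.ν k (z.1, z.2.1), t k + ε * (z.2.2 + 4))) T)
    (hnew : ∀ k, ¬ old k → x k ≠ 0) (hnew' : ∀ k, ¬ old k → y k ≠ 0)
    (hpos : ∀ j, old j → 0 < y j) (hk : ∃ j k, old j ∧ ¬ old k ∧ 0 < x j * y j * (x k * y k)) :
    Detected T x y := by
  classical
  obtain ⟨j₁, k₁, hj₁, hk₁, hprod⟩ := hk
  have hfin : Finite {j // ¬ old j} := Nat.finite_of_card_ne_zero (by omega)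
  have hS : T2Space S := TR.t2_base Mt
  obtain ⟨c, hc⟩ : ∃ c, c = P.cls ⟨k₁, hk₁⟩ := ⟨_, rfl⟩
  obtain ⟨v, hv⟩ : ∃ v : {j // ¬ old j} → ℝ, v = fun e => if P.cls e = c then 0 else 3 / 8 :=
    ⟨_, rfl⟩
  -- the classes of curves which meet
  have hcls : ∀ e f, e ≠ f → P.toForest.meet e f → v e - v f = 3 / 8 ∨ v e - v f = -(3 / 8) := by
    rintro e f hef ⟨z, z', hz⟩
    have h1 := P.meet e f z z' hef hz
    rw [hv]
    by_cases he : P.cls e = c
    · have hf : P.cls f ≠ c := fun hf => h1 (he.trans hf.symm)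
      right
      simp only [if_pos he, if_neg hf]
      norm_num
    · have hf : P.cls f = c := by
        revert h1 he
        cases P.cls e <;> cases P.cls f <;> cases c <;> simp
      left
      simp only [if_neg he, if_pos hf]
      norm_num
  -- the lifts
  have hvv : ∀ e f, e ≠ f → P.toForest.meet e f → ∀ m : ℤ, v e ≠ v f + m := by
    intro e f hef hm m h
    rcases hcls e f hef hm with h1 | h1
    · have h2 : (m : ℝ) = 3 / 8 := by linarith
      have h3 : (0 : ℝ) < m := by rw [h2]; norm_num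
      have h4 : (m : ℝ) < 1 := by rw [h2]; norm_num
      have h5 : 0 < m := by exact_mod_cast h3
      have h6 : m < 1 := by exact_mod_cast h4
      omega
    · have h2 : (m : ℝ) = -(3 / 8) := by linarith
      have h3 : (-1 : ℝ) < m := by rw [h2]; norm_num
      have h4 : (m : ℝ) < 0 := by rw [h2]; norm_num
      have h5 : -1 < m := by exact_mod_cast h3
      have h6 : m < 0 := by exact_mod_cast h4
      omega
  have ht : ∀ e f, e ≠ f → P.toForest.meet e f → ∀ m : ℤ, t e ≠ t f + m := by
    intro e f hef hm m h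
    have h1 := sep e f hef hm (-m)
    rw [h] at h1
    push_cast at h1
    have h2 : t f + m - t f + -m = (0 : ℝ) := by ring
    rw [h2, abs_zero] at h1
    linarith
  obtain ⟨n, m, hnm⟩ := TR.exists_lifts P.rank P.rank_inj P.toForest.meet TR.Forest.meet_forest
    v t hvv ht
  obtain ⟨ψ, p1, p2, p3, p4⟩ := TR.exists_fibre P.toForest (fun e => v e + n e)
    (fun e => t e + m e) (r := 1 / 16) (ρ := 2 * ε) (by norm_num) (by norm_num) (by positivity)
    (by linarith) (by
      intro e f hef hrank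
      have hne : e ≠ f := by
        rintro rfl
        exact lt_irrefl _ hrank
      obtain ⟨a1, a2, a3, a4⟩ := hnm e f hef hrank
      have b3 := sep e f hne hef (m e - m f)
      have b4 := sep e f hne hef (m e - m f - 1)
      push_cast at b3 b4
      rw [abs_of_pos (by linarith)] at b3
      rw [abs_of_neg (by linarith)] at b4
      have b5 : v f + n f + 2 * (1 / 16) < v e + n e ∧ v e + n e + 2 * (1 / 16) < v f + n f + 1 := by
        rcases hcls e f hne hef with h1 | h1
        · have h3 : (-1 : ℝ) < ((n e - n f : ℤ) : ℝ) := by push_cast; linarith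
          have h4 : ((n e - n f : ℤ) : ℝ) < 1 := by push_cast; linarith
          have h5 : -1 < n e - n f := by exact_mod_cast h3
          have h6 : n e - n f < 1 := by exact_mod_cast h4
          have h7 : n e - n f = 0 := by omega
          have h8 : ((n e - n f : ℤ) : ℝ) = 0 := by rw [h7, Int.cast_zero]
          push_cast at h8
          constructor <;> linarith
        · have h3 : (0 : ℝ) < ((n e - n f : ℤ) : ℝ) := by push_cast; linarith
          have h4 : ((n e - n f : ℤ) : ℝ) < 2 := by push_cast; linarith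
          have h5 : 0 < n e - n f := by exact_mod_cast h3
          have h6 : n e - n f < 2 := by exact_mod_cast h4
          have h7 : n e - n f = 1 := by omega
          have h8 : ((n e - n f : ℤ) : ℝ) = 1 := by rw [h7, Int.cast_one]
          push_cast at h8
          constructor <;> linarith
      exact ⟨b5.1, b5.2, by linarith, by linarith⟩)
  obtain ⟨Mt', hMt'⟩ := TR.exists_twist Mt ψ p1 p2 p3
  obtain ⟨e, he⟩ := Red_prod Mt'
  -- the neighbourhoods
  have hwin : ∀ (k : {j // ¬ old j}) (z : Cylinder), |z.2.1| ≤ 2 → -6 ≤ z.2.2 → z.2.2 ≤ -2 →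
      e (Mt.p (P.ν k (z.1, z.2.1), t k + ε * (z.2.2 + 4))) =
        (P.ν k (z.1, z.2.1), ((v k + (z.2.2 + 4) / 32 : ℝ) : Ci)) := by
    intro k z h0 h1 h2
    rw [← he]
    congr 1
    rw [hMt', TR.refl_eq]
    refine ⟨m k - n k, ?_, rfl⟩
    have e1 : v k + (z.2.2 + 4) / 32 = (v k + n k + (z.2.2 + 4) / 32) + ((-(n k) : ℤ) : ℝ) := by
      push_cast
      ring
    rw [e1, (p2 _).int, p4 k (z.1, z.2.1) ((z.2.2 + 4) / 32) h0 ⟨by linarith, by linarith⟩]
    push_cast
    ring
  have hbd : ∀ z : Cylinder, z ∈ solidTorus → |z.2.1| ≤ 2 := by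
    intro z hz
    have h3 : z.2.1 ^ 2 + (z.2.2 + 4) ^ 2 ≤ 1 := hz
    rw [abs_le]
    constructor <;> nlinarith [sq_nonneg (z.2.2 + 4)]
  have hI : ∀ w : {e // P.cls e = c}, v w.1 = 0 := fun w => by rw [hv]; exact if_pos w.2
  have hΛ : ∀ w : {e // P.cls e ≠ c}, v w.1 = 3 / 8 := fun w => by rw [hv]; exact if_neg w.2
  have hwI : ∀ (w : {e // P.cls e = c}) (z : Cylinder), |z.2.1| ≤ 2 → -6 ≤ z.2.2 → z.2.2 ≤ -2 →
      e (Mt.p (P.ν w.1 (z.1, z.2.1), t w.1 + ε * (z.2.2 + 4))) = nbv (P.two c) w z := by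
    intro w z h0 h1 h2
    rw [hwin w.1 z h0 h1 h2, hI w, zero_add]
    rfl
  have hwL : ∀ (w : {e // P.cls e ≠ c}) (z : Cylinder), |z.2.1| ≤ 2 → -6 ≤ z.2.2 → z.2.2 ≤ -2 →
      e (Mt.p (P.ν w.1 (z.1, z.2.1), t w.1 + ε * (z.2.2 + 4))) = (Red_W P c w).nb z := by
    intro w z h0 h1 h2
    rw [hwin w.1 z h0 h1 h2, hΛ w]
    have e1 : (3 / 8 + (z.2.2 + 4) / 32 : ℝ) = 1 / 2 + LS.tim z.2.2 / 4 := by
      rw [LS.tim_mid h1 (by linarith)]
      ring
    rw [e1]
    rfl
  have htor : ∀ (θ : Ci) (r : Ioo (1 : ℝ) 2) (s : ℝ),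
      |(r : ℝ) * Real.cos (2 * Real.pi * s)| ≤ 2 ∧ -6 ≤ -4 + (r : ℝ) * Real.sin (2 * Real.pi * s) ∧
        -4 + (r : ℝ) * Real.sin (2 * Real.pi * s) ≤ -2 := by
    intro θ r s
    have h3 := r.2.1
    have h4 := r.2.2
    refine ⟨?_, ?_, ?_⟩
    · rw [abs_mul, abs_of_pos (by linarith : (0 : ℝ) < r)]
      have h2 := Real.abs_cos_le_one (2 * Real.pi * s)
      have h5 := abs_nonneg (Real.cos (2 * Real.pi * s))
      nlinarith
    · have h2 := Real.neg_one_le_sin (2 * Real.pi * s)
      nlinarith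
    · have h2 := Real.sin_le_one (2 * Real.pi * s)
      nlinarith
  -- the ends
  let ι : {j // old j} ⊕ ({e : {j // ¬ old j} // P.cls e = c} ⊕
      {e : {j // ¬ old j} // P.cls e ≠ c}) ≃ J :=
    (Equiv.sumCongr (Equiv.refl _) (Equiv.sumCompl (fun e : {j // ¬ old j} => P.cls e = c))).trans
      (Equiv.sumCompl old)
  let T' : Ended M ({j // old j} ⊕ ({e : {j // ¬ old j} // P.cls e = c} ⊕
      {e : {j // ¬ old j} // P.cls e ≠ c})) :=
    { tor := fun j => T.tor (ι j)
      emb := fun j => T.emb (ι j)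
      disj := fun i j z w h => ι.injective (T.disj _ _ _ _ h) }
  have key : Detected T' (fun j => x (ι j)) (fun j => y (ι j)) → Detected T x y := by
    rintro ⟨F, hF, hL⟩
    refine ⟨F, hF, fun j z hz c hc hs => ?_⟩
    obtain ⟨j', rfl⟩ := ι.surjective j
    exact hL j' z hz c hc hs
  refine key ?_
  let R : Rem (P.two c) (Red_W P c) T' :=
    { p := fun x => e (D.p x)
      emb := e.isOpenEmbedding.comp D.emb
      range_iff := fun x => by
        have h1 : x ∈ range (fun x => e (D.p x)) ↔ e.symm x ∈ range D.p := by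
          constructor
          · rintro ⟨y, rfl⟩
            exact ⟨y, (e.symm_apply_apply _).symm⟩
          · rintro ⟨y, hy⟩
            exact ⟨y, by
              show e (D.p y) = x
              rw [hy, e.apply_symm_apply]⟩
        have h2 : ∀ k : {j // ¬ old j}, (e.symm x ∈
            (fun z : Cylinder => Mt.p (P.ν k (z.1, z.2.1), t k + ε * (z.2.2 + 4))) '' solidTorus ↔
            x ∈ (fun z : Cylinder => e (Mt.p (P.ν k (z.1, z.2.1), t k + ε * (z.2.2 + 4)))) ''
              solidTorus) := by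
          intro k
          constructor
          · rintro ⟨z, hz, h⟩
            exact ⟨z, hz, by
              show e (Mt.p (P.ν k (z.1, z.2.1), t k + ε * (z.2.2 + 4))) = x
              have h' : Mt.p (P.ν k (z.1, z.2.1), t k + ε * (z.2.2 + 4)) = e.symm x := h
              rw [h', e.apply_symm_apply]⟩
          · rintro ⟨z, hz, h⟩
            exact ⟨z, hz, by
              show Mt.p (P.ν k (z.1, z.2.1), t k + ε * (z.2.2 + 4)) = e.symm x
              have h' : e (Mt.p (P.ν k (z.1, z.2.1), t k + ε * (z.2.2 + 4))) = x := h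
              rw [← h', e.symm_apply_apply]⟩
        have h3 : ∀ w : {e // P.cls e = c},
            (fun z : Cylinder => e (Mt.p (P.ν w.1 (z.1, z.2.1), t w.1 + ε * (z.2.2 + 4)))) ''
              solidTorus = nbv (P.two c) w '' solidTorus := fun w =>
          image_congr fun z hz => hwI w z (hbd z hz) (LG.torus_bds hz).1 (LG.torus_bds hz).2
        have h4 : ∀ w : {e // P.cls e ≠ c},
            (fun z : Cylinder => e (Mt.p (P.ν w.1 (z.1, z.2.1), t w.1 + ε * (z.2.2 + 4)))) ''
              solidTorus = (Red_W P c w).nb '' solidTorus := fun w =>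
          image_congr fun z hz => hwL w z (hbd z hz) (LG.torus_bds hz).1 (LG.torus_bds hz).2
        rw [h1, D.range_iff]
        constructor
        · intro h
          refine ⟨fun w hw => ?_, fun w hw => ?_⟩
          · rw [← h3 w] at hw
            exact h w.1 ((h2 w.1).2 hw)
          · rw [← h4 w] at hw
            exact h w.1 ((h2 w.1).2 hw)
        · rintro ⟨h5, h6⟩ k hk'
          have h7 := (h2 k).1 hk'
          by_cases hkc : P.cls k = c
          · have h8 := h3 ⟨k, hkc⟩
            exact h5 ⟨k, hkc⟩ (by rw [← h8]; exact h7)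
          · have h8 := h4 ⟨k, hkc⟩
            exact h6 ⟨k, hkc⟩ (by rw [← h8]; exact h7)
      old := fun j θ r s => by
        obtain ⟨s, rfl⟩ := QuotientAddGroup.mk_surjective s
        have h1 := D.old_tor j (θ, r, (s : Ci))
        have h2 := Mt'.tor j θ r s
        show e (D.p (T.tor j.1 (θ, r, (s : Ci)))) = (P.E.collar j (θ, r), (s : Ci))
        rw [h1, h2, he]
      res := fun w θ r s => by
        obtain ⟨q1, q2, q3⟩ := htor θ r s
        have h1 := D.new_tor w.1 θ r s
        show e (D.p (T.tor w.1.1 (θ, r, (s : Ci)))) = _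
        rw [h1]
        exact hwI w (θ, ((r : ℝ) * Real.cos (2 * Real.pi * s),
          -4 + (r : ℝ) * Real.sin (2 * Real.pi * s))) q1 q2 q3
      new := fun w θ r s => by
        obtain ⟨q1, q2, q3⟩ := htor θ r s
        have h1 := D.new_tor w.1 θ r s
        show e (D.p (T.tor w.1.1 (θ, r, (s : Ci)))) = _
        rw [h1]
        exact hwL w (θ, ((r : ℝ) * Real.cos (2 * Real.pi * s),
          -4 + (r : ℝ) * Real.sin (2 * Real.pi * s))) q1 q2 q3 }
  -- the parameters
  have : Fintype {e : {j // ¬ old j} // P.cls e = c} := Fintype.ofFinite _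
  have hy₁ := hpos j₁ hj₁
  obtain ⟨s, hs⟩ : ∃ s : ℝ, s = x j₁ / y j₁ := ⟨_, rfl⟩
  obtain ⟨C, C1, C2, C3, C4⟩ := exists_par (I := {e : {j // ¬ old j} // P.cls e = c})
    (W := {e : {j // ¬ old j} // P.cls e ≠ c}) (fun v => x v.1.1) (fun v => y v.1.1)
    (fun v => hnew v.1.1 v.1.2) (fun v => hnew' v.1.1 v.1.2) (fun w v => P.num v.1 w.1) (by
      intro w
      obtain ⟨f, hf1, hf2⟩ := P.adj w.1
      have hf : P.cls f = c := by
        have hw := w.2
        revert hf1 hw
        cases P.cls f <;> cases P.cls w.1 <;> cases c <;> simp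
      exact ⟨⟨f, hf⟩, hf2⟩) s (by
      refine ⟨⟨⟨k₁, hk₁⟩, hc.symm⟩, ?_⟩
      show 0 < s * (x k₁ * y k₁)
      have h1 : s * (x k₁ * y k₁) = x j₁ * y j₁ * (x k₁ * y k₁) / y j₁ ^ 2 := by
        rw [hs]
        field_simp
      rw [h1]
      positivity)
  let Q : Par {e : {j // ¬ old j} // P.cls e = c} :=
    { q := fun v => C v * x v.1.1
      lam := fun v => 1 + C v * y v.1.1
      q_ne := fun v => mul_ne_zero (C1 v).ne' (hnew v.1.1 v.1.2)
      lam_pos := C2 }
  have hQs : Q.s = s := C3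
  refine two_detected (P := P.two c) (W := Red_W P c) ?_ R Q C4 (fun j => x (ι j))
    (fun j => y (ι j)) ?_ ?_ ?_
  · intro w w' z z' h
    by_contra hne
    have h1 := P.meet w.1 w'.1 z z' (fun h' => hne (Subtype.ext h')) h
    apply h1
    have hw := w.2
    have hw' := w'.2
    revert hw hw'
    cases P.cls w.1 <;> cases P.cls w'.1 <;> cases c <;> simp
  · intro j
    show 0 < y j.1 ∧ x j.1 = Q.s * y j.1
    have hj : j.1 = j₁ := congrArg Subtype.val (Subsingleton.elim j ⟨j₁, hj₁⟩)
    rw [hj, hQs, hs]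
    refine ⟨hy₁, ?_⟩
    field_simp
  · intro w
    refine ⟨C w, C1 w, rfl, ?_⟩
    show C w * y w.1.1 = 1 + C w * y w.1.1 - 1
    ring
  · intro w
    exact hnew w.1.1 w.1.2

/-- **The pieces `plumb`, first case** (`plumb_pos`, `Detected.neg`, as `TR.tree_detected`) -/
theorem plumb_detected {M : Type*} [TopologicalSpace M] {J : Type*} {T : Ended M J}
    {x y : J → ℝ} {S : Type*} [TopologicalSpace S] [ConnectedSpace S] {old : J → Prop}
    [Unique {j // old j}] (hN : 2 ≤ Nat.card {j // ¬ old j})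
    (P : Plumb S {j // old j} {j // ¬ old j})
    {M₀ : Type*} [TopologicalSpace M₀] [T2Space M₀] {T₀ : Ended M₀ {j // old j}}
    (Mt : MTorus P.E (Homeomorph.refl S) T₀) (t : {j // ¬ old j} → ℝ) {ε : ℝ} (hε : 0 < ε)
    (hε1 : 4 * ε < 1)
    (sep : ∀ e f, e ≠ f → (∃ z w, P.ν e z = P.ν f w) → ∀ m : ℤ, 4 * ε < |t e - t f + m|)
    (D : Drilled T₀ (fun k z => Mt.p (P.ν k (z.1, z.2.1), t k + ε * (z.2.2 + 4))) T)
    (hnew : ∀ k, ¬ old k → x k ≠ 0) (hnew' : ∀ k, ¬ old k → y k ≠ 0)
    (hk : ∃ j k, old j ∧ ¬ old k ∧ 0 < x j * y j * (x k * y k)) : Detected T x y := by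
  have hk' := hk
  obtain ⟨j₁, k₁, hj₁, hk₁, hprod⟩ := hk'
  have hj : ∀ j, old j → j = j₁ := fun j hj =>
    congrArg Subtype.val (Subsingleton.elim (⟨j, hj⟩ : {j // old j}) ⟨j₁, hj₁⟩)
  have hy : y j₁ ≠ 0 := by
    intro h
    rw [h, mul_zero, zero_mul] at hprod
    exact lt_irrefl _ hprod
  rcases lt_or_gt_of_ne hy with h1 | h1
  · have h2 := plumb_pos (x := fun j => -x j) (y := fun j => -y j) hN P Mt t hε hε1 sep D
      (fun k hk => neg_ne_zero.2 (hnew k hk)) (fun k hk => neg_ne_zero.2 (hnew' k hk))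
      (fun j hj' => by
        rw [hj j hj']
        exact neg_pos.2 h1)
      ⟨j₁, k₁, hj₁, hk₁, by
        have e1 : -x j₁ * -y j₁ * (-x k₁ * -y k₁) = x j₁ * y j₁ * (x k₁ * y k₁) := by ring
        rw [e1]
        exact hprod⟩
    have h3 := h2.neg
    simp only [neg_neg] at h3
    exact h3
  · exact plumb_pos hN P Mt t hε hε1 sep D hnew hnew' (fun j hj' => by
      rw [hj j hj']
      exact h1) hk

end Pool.Agent.H.MP_1611f1_gt.TP
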