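import Pool.Agent.H.MP_1611f1_gt.TP.Two

/-!
The leaf curves: definitions.
-/

namespace Pool.Agent.H.MP_1611f1_gt.TP

open Topology Set Filter
open Pool.Agent.H.MP_1611f1_gt.BR.U (Ci cl yt hlf psi cu rmp ang)
open Pool.Agent.H.MP_1611f1_gt.LG (Cylinder solidTorus LeafCurve)

/-- the logarithm of the scale, after crossing the annulus `h` times: continuous and `gl l (h + 1) = gl l h + log l` -/
noncomputable def gl (l h : ℝ) : ℝ := ⌊h⌋ * Real.log l + Real.log (1 + (l - 1) * Int.fract h)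

theorem gl_cont {l : ℝ} (hl : 0 < l) : Continuous (gl l) := by
  have hpos : ∀ s ∈ Icc (0 : ℝ) 1, 0 < 1 + (l - 1) * s := by
    intro s hs
    have h1 : 1 + (l - 1) * s = (1 - s) + l * s := by ring
    rw [h1]
    rcases eq_or_lt_of_le hs.1 with h | h
    · rw [← h]
      norm_num
    · have h2 := mul_pos hl h
      linarith [hs.2]
  have hq : ContinuousOn (fun s : ℝ => Real.log (1 + (l - 1) * s) - s * Real.log l) (Icc 0 1) := by
    refine ContinuousOn.sub (ContinuousOn.log (by fun_prop) fun s hs => (hpos s hs).ne')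
      (by fun_prop)
  have h01 : (fun s : ℝ => Real.log (1 + (l - 1) * s) - s * Real.log l) 0 =
      (fun s : ℝ => Real.log (1 + (l - 1) * s) - s * Real.log l) 1 := by
    simp
  have h1 := ContinuousOn.comp_fract'' hq h01
  have h2 : gl l = fun h => h * Real.log l +
      ((fun s : ℝ => Real.log (1 + (l - 1) * s) - s * Real.log l) ∘ Int.fract) h := by
    funext h
    show ⌊h⌋ * Real.log l + Real.log (1 + (l - 1) * Int.fract h) =
      h * Real.log l + (Real.log (1 + (l - 1) * Int.fract h) - Int.fract h * Real.log l)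
    have h4 : (⌊h⌋ : ℝ) = h - Int.fract h := by linarith [Int.floor_add_fract h]
    rw [h4]
    ring
  rw [h2]
  exact (continuous_id.mul continuous_const).add h1

theorem gl_add (l h : ℝ) (n : ℤ) : gl l (h + n) = gl l h + n * Real.log l := by
  unfold gl
  rw [Int.floor_add_intCast, Int.fract_add_intCast]
  push_cast
  ring

variable {S : Type*} [TopologicalSpace S] {J I : Type*} {P : Two S J I} [Fintype I] {Q : Par I} (W : WC P)

/-- the logarithm of the scale along the curve -/
noncomputable def WC.bl (Q : Par I) (θ : ℝ) : ℝ := ∑ v, gl (Q.lam v) (W.cr v θ)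

theorem bl_cont : Continuous (W.bl Q) := by
  unfold WC.bl
  exact continuous_finsetSum _ fun v _ => (gl_cont (Q.lam_pos v)).comp (W.cr_cont v)

theorem bl_add (θ : ℝ) : W.bl Q (θ + 1) = W.bl Q θ + ∑ v, W.num v * Real.log (Q.lam v) := by
  unfold WC.bl
  rw [← Finset.sum_add_distrib]
  refine Finset.sum_congr rfl fun v _ => ?_
  rw [W.cr_add, gl_add]

/-- the time of a point of the neighbourhood, on the circle -/
private noncomputable def LeafA_tau (s : ℝ) : Ci := ((1 / 2 + LS.tim s / 4 : ℝ) : Ci)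

theorem LeafA_time (s : ℝ) : 9 / 32 < |cl ((1 / 2 + LS.tim s / 4 : ℝ) : Ci)| := by
  obtain ⟨h1, h2⟩ := LS.tim_mem s
  rcases lt_or_ge (LS.tim s) 0 with h | h
  · rw [BR.U.cl_coe ⟨by linarith, by linarith⟩, abs_of_pos (by linarith)]
    linarith
  · have h3 : ((1 / 2 + LS.tim s / 4 : ℝ) : Ci) = ((-1 / 2 + LS.tim s / 4 : ℝ) : Ci) := by
      have h4 : ((1 : ℝ) : Ci) = 0 := AddCircle.coe_period (1 : ℝ)
      have h5 : (1 / 2 + LS.tim s / 4 : ℝ) = (-1 / 2 + LS.tim s / 4) + 1 := by ring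
      rw [h5, AddCircle.coe_add, h4, add_zero]
    rw [h3, BR.U.cl_coe ⟨by linarith, by linarith⟩, abs_of_neg (by linarith)]
    linarith

theorem LeafA_inj {a b : ℝ} (h : |a - b| < 1) (e : (a : Ci) = (b : Ci)) : a = b := by
  have h1 : -a + b ∈ AddSubgroup.zmultiples (1 : ℝ) := QuotientAddGroup.eq.mp e
  obtain ⟨k, hk⟩ := AddSubgroup.mem_zmultiples_iff.mp h1
  rw [zsmul_eq_mul, mul_one] at hk
  have h2 : |(k : ℝ)| < 1 := by
    rw [hk, abs_lt]
    have := abs_lt.1 h
    constructor <;> linarith [this.1, this.2]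
  have h3 : |k| < 1 := by exact_mod_cast h2
  have h4 : k = 0 := Int.abs_lt_one_iff.1 h3
  rw [h4, Int.cast_zero] at hk
  linarith

private theorem LeafA_tau_emb : IsOpenEmbedding LeafA_tau := by
  refine IsOpenEmbedding.of_continuous_injective_isOpenMap ?_ ?_ ?_
  · exact (AddCircle.continuous_mk' (1 : ℝ)).comp
      (continuous_const.add (LS.tim_cont.div_const 4))
  · intro a b h
    have h1 := LS.tim_mem a
    have h2 := LS.tim_mem b
    have h3 := LeafA_inj (a := 1 / 2 + LS.tim a / 4) (b := 1 / 2 + LS.tim b / 4)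
      (by rw [abs_lt]; constructor <;> linarith [h1.1, h1.2, h2.1, h2.2]) h
    exact LS.tim_mono.injective (by linarith)
  · have h1 : IsOpenMap (fun y : ℝ => (y : AddCircle (1 : ℝ))) :=
      QuotientAddGroup.isOpenMap_coe (N := AddSubgroup.zmultiples (1 : ℝ))
    have h2 : IsOpenMap (fun y : ℝ => 1 / 2 + y / 4) := by
      have h3 := ((Homeomorph.mulRight₀ (4 : ℝ)⁻¹ (by norm_num)).trans
        (Homeomorph.addLeft (1 / 2 : ℝ))).isOpenMap
      convert h3 using 1
      funext y
      simp [div_eq_mul_inv]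
    exact h1.comp (h2.comp LS.tim_open)

/-- the neighbourhood of the curve does not meet the tubes (`LS.tim_mem`: the times are between `9/32` and `17/32`) -/
theorem nb_M1 (z : Cylinder) (v : I) : W.nb z ∉ nbv P v '' solidTorus := by
  rintro ⟨w, hw, h⟩
  have h1 : (((w.2.2 + 4) / 32 : ℝ) : Ci) = ((1 / 2 + LS.tim z.2.2 / 4 : ℝ) : Ci) :=
    congrArg Prod.snd h
  have h2 : w.2.1 ^ 2 + (w.2.2 + 4) ^ 2 ≤ 1 := hw
  have h3 : |w.2.2 + 4| ≤ 1 := by
    rw [← sq_le_one_iff_abs_le_one]
    nlinarith [sq_nonneg w.2.1]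
  have h4 := LeafA_time z.2.2
  rw [← h1, BR.U.cl_coe ⟨by linarith [(abs_le.1 h3).1], by linarith [(abs_le.1 h3).2]⟩, lt_abs] at h4
  rcases h4 with h4 | h4
  · linarith [(abs_le.1 h3).2]
  · linarith [(abs_le.1 h3).1]

noncomputable def WC.nb1 (z : Cylinder) : M1 P := ⟨W.nb z, nb_M1 W z⟩

theorem nb_emb : IsOpenEmbedding W.nb := by
  have h1 : IsOpenEmbedding (Prod.map W.μ LeafA_tau) := W.emb.prodMap LeafA_tau_emb
  exact h1.comp (Homeomorph.prodAssoc Ci ℝ ℝ).symm.isOpenEmbedding

theorem nb1_emb [T2Space S] : IsOpenEmbedding W.nb1 := by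
  refine IsOpenEmbedding.of_continuous_injective_isOpenMap
    ((nb_emb W).continuous.subtype_mk _) (fun a b h => (nb_emb W).injective ?_) fun U hU => ?_
  · exact congrArg Subtype.val h
  · have h1 : W.nb1 '' U = Subtype.val ⁻¹' (W.nb '' U) := by
      ext y
      constructor
      · rintro ⟨z, hz, rfl⟩
        exact ⟨z, hz, rfl⟩
      · rintro ⟨z, hz, h⟩
        exact ⟨z, hz, Subtype.ext h⟩
    rw [h1]
    exact ((nb_emb W).isOpenMap U hU).preimage continuous_subtype_val

end Pool.Agent.H.MP_1611f1_gt.TP
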