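import Pool.Agent.H.MP_1611f1_gt.TP.FolC
import Pool.Agent.H.MP_1611f1_gt.TP.LeafA

/-!
The leaf curves.
-/

namespace Pool.Agent.H.MP_1611f1_gt.TP

open Topology Set Filter
open Pool.Agent.H.MP_1611f1_gt.BR.U (Ci cl yt hlf psi cu rmp ang)
open Pool.Agent.H.MP_1611f1_gt.LG (Cylinder solidTorus LeafCurve)

theorem LeafB_rise_mem (u : ℝ) : 0 ≤ rise u ∧ rise u ≤ 1 := by
  unfold rise
  exact ⟨le_max_left _ _, max_le zero_le_one (min_le_left _ _)⟩

theorem LeafB_rise_low {u : ℝ} (h : u ≤ -1) : rise u = 0 := by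
  unfold rise
  exact max_eq_left ((min_le_right _ _).trans (by linarith))

theorem LeafB_rise_high {u : ℝ} (h : 1 ≤ u) : rise u = 1 := by
  unfold rise
  rw [min_eq_left (by linarith), max_eq_right zero_le_one]

theorem LeafB_rmp (u : ℝ) : rmp (u / 32) = rise u := by
  unfold BR.U.rmp rise
  congr 2
  ring

theorem LeafB_pos {l m : ℝ} (hl : 0 < l) (h0 : 0 ≤ m) (h1 : m ≤ 1) : 0 < 1 + (l - 1) * m := by
  have h2 : 1 + (l - 1) * m = (1 - m) + l * m := by ring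
  rw [h2]
  rcases eq_or_lt_of_le h0 with h | h
  · rw [← h]
    norm_num
  · have h3 := mul_pos hl h
    linarith

theorem LeafB_gl (l : ℝ) (n : ℤ) {r : ℝ} (h0 : 0 ≤ r) (h1 : r ≤ 1) :
    gl l (r + n) = n * Real.log l + Real.log (1 + (l - 1) * r) := by
  rw [gl_add]
  have h2 : gl l r = Real.log (1 + (l - 1) * r) := by
    unfold gl
    rcases eq_or_lt_of_le h1 with h | h
    · rw [h, Int.floor_one, Int.fract_one]
      simp
    · rw [Int.floor_eq_zero_iff.2 ⟨h0, h⟩, Int.fract_eq_self.2 ⟨h0, h⟩]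
      simp
  rw [h2]
  ring

theorem LeafB_coe {a b : ℝ} (h : (a : Ci) = (b : Ci)) : ∃ n : ℤ, b = a + n := by
  have h1 : -a + b ∈ AddSubgroup.zmultiples (1 : ℝ) := QuotientAddGroup.eq.mp h
  obtain ⟨k, hk⟩ := AddSubgroup.mem_zmultiples_iff.mp h1
  rw [zsmul_eq_mul, mul_one] at hk
  exact ⟨k, by linarith⟩

theorem LeafB_rc_cont {M : Type*} [TopologicalSpace M] {N : LS.Cyl → M} (hN : Continuous N) :
    Continuous (LS.rc N) :=
  hN.comp (((AddCircle.continuous_mk' (1 : ℝ)).comp continuous_fst).prodMk continuous_snd)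

theorem LeafB_const {h : ℝ → ℝ} (hc : Continuous h) {z : LS.Cov}
    (h0 : ∀ᶠ a : LS.Cov in 𝓝 z, ((h a.1 : ℝ) : Ci) = 0) : ∀ᶠ a : LS.Cov in 𝓝 z, h a.1 = h z.1 := by
  have h1 : ∀ᶠ a : LS.Cov in 𝓝 z, |h a.1 - h z.1| < 1 := by
    have h2 : ContinuousAt (fun a : LS.Cov => |h a.1 - h z.1|) z := by
      refine Continuous.continuousAt ?_
      fun_prop
    exact h2.eventually_lt (g := fun _ => (1 : ℝ)) continuousAt_const (by simp)
  have h2 := h0.self_of_nhds
  filter_upwards [h0, h1] with a ha ha'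
  exact LeafA_inj ha' (ha.trans h2.symm)

theorem LeafB_yt (s : ℝ) : yt ((1 / 2 + LS.tim s / 4 : ℝ) : Ci) = -1 / 2 + LS.tim s / 4 := by
  obtain ⟨h1, h2⟩ := LS.tim_mem s
  have h3 : ((1 / 2 + LS.tim s / 4 : ℝ) : Ci) = ((-1 / 2 + LS.tim s / 4 : ℝ) : Ci) := by
    have h4 : ((1 : ℝ) : Ci) = 0 := AddCircle.coe_period (1 : ℝ)
    have h5 : (1 / 2 + LS.tim s / 4 : ℝ) = (-1 / 2 + LS.tim s / 4) + 1 := by ring
    rw [h5, AddCircle.coe_add, h4, add_zero]
  rw [h3, BR.U.yt_coe ⟨by linarith, by linarith⟩]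

theorem LeafB_cl (s s' : ℝ) : cl (((1 / 2 + LS.tim s' / 4 : ℝ) : Ci) -
    ((1 / 2 + LS.tim s / 4 : ℝ) : Ci)) = (LS.tim s' - LS.tim s) / 4 := by
  obtain ⟨h1, h2⟩ := LS.tim_mem s
  obtain ⟨h3, h4⟩ := LS.tim_mem s'
  rw [← AddCircle.coe_sub, BR.U.cl_coe ⟨by linarith, by linarith⟩]
  ring

theorem LeafB_bd {r t : ℝ} (hr : 0 ≤ r ∧ r ≤ 1) (ht : t ∈ Ioo (-7 / 8 : ℝ) (1 / 8)) :
    -7 / 8 ≤ r * t ∧ r * t ≤ 1 / 8 := by
  constructor
  · nlinarith [hr.1, hr.2, ht.1, ht.2]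
  · nlinarith [hr.1, hr.2, ht.1, ht.2]

variable {S : Type*} [TopologicalSpace S] {J I : Type*} {P : Two S J I} [Fintype I] {Q : Par I} (W : WC P)

theorem LeafB_DD (Q : Par I) (a b : Cylinder) :
    DD P Q (W.nb a) (W.nb b) = (LS.tim b.2.2 - LS.tim a.2.2) / 4 := by
  have hh : ∀ (z : Ci × ℝ) v, P.half v (W.μ z) = 0 := by
    intro z v
    rcases P.half_or v (W.μ z) with h | h
    · exact h
    · rw [h, W.zero]
  have hg : ∀ z : Ci × ℝ, GG P Q (W.μ z) = 0 := fun z =>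
    GG_zero P Q fun j w => W.out z j w
  show cl (((1 / 2 + LS.tim b.2.2 / 4 : ℝ) : Ci) - ((1 / 2 + LS.tim a.2.2 / 4 : ℝ) : Ci)) +
    ∑ v, (Q.q v * cl (P.kap v (W.μ (b.1, b.2.1)) - P.kap v (W.μ (a.1, a.2.1))) +
      Q.q v * (1 / Q.lam v - 1) * cl (P.half v (W.μ (b.1, b.2.1)) - P.half v (W.μ (a.1, a.2.1)))) +
    (GG P Q (W.μ (b.1, b.2.1)) - GG P Q (W.μ (a.1, a.2.1))) = _
  rw [LeafB_cl, hg, hg]
  simp only [W.zero, hh, sub_self, BR.U.cl_zero, mul_zero, add_zero, Finset.sum_const_zero]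

variable [T2Space S] {F : Foliation (M1 P)}
  (hF : F.charts = LS.pullCharts (Subtype.val : M1 P → S × Ci) (pre P Q))

include hF in
/-- near a point of the curve `W.μ` the order is given by `B θ * tim s`, where `log B - bl` is constant: in the
outer region `B = 1` and all `cr v` are constant near `θ`; in the region `|u| < 12` of the annulus `v` we have
`B = 1 + (lam - 1) rmp (u / 32)`, `rmp (u / 32) = rise u` (`EE_mid`, `W.cr_in`, `W.cr_out`) -/
theorem leaf_ord [Finite J] (z : LS.Cov) {c} (hc : c ∈ F.charts) (hz : LS.rc W.nb1 z ∈ c.source) :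
    ∃ (B : ℝ → ℝ) (k : ℝ), (∀ θ, 0 < B θ) ∧ ∃ V ∈ 𝓝 z, (∀ w ∈ V, Real.log (B w.1) = W.bl Q w.1 + k) ∧
      ∀ w ∈ V, ∀ w' ∈ V, ((c (LS.rc W.nb1 w)).2 < (c (LS.rc W.nb1 w')).2 ↔
        B w.1 * LS.tim w.2.2 < B w'.1 * LS.tim w'.2.2) := by
  classical
  have hcont : Continuous (fun a : LS.Cov => (LS.rc W.nb1 a).1) :=
    continuous_subtype_val.comp (LeafB_rc_cont (nb1_emb W).continuous)
  have hcontAt : ContinuousAt (LS.rc W.nb1) z := (LeafB_rc_cont (nb1_emb W).continuous).continuousAt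
  by_cases hX : (LS.rc W.nb1 z).1 ∈ Xo P
  · obtain ⟨V1, hV1, h1⟩ := F_out hF hc hz hX
    have hint : ∀ v, ∀ᶠ a : LS.Cov in 𝓝 z, W.cr v a.1 = W.cr v z.1 := by
      intro v
      refine LeafB_const (W.cr_cont v) ?_
      filter_upwards [hcont.continuousAt.preimage_mem_nhds ((Xo_open P).mem_nhds hX)] with a ha
      by_cases h2 : ∃ z0, W.μ ((a.1 : Ci), a.2.1) = P.ν v z0
      · obtain ⟨z0, h2⟩ := h2
        have h3 : 2 < |z0.2| := ha v z0 h2.symm
        rw [← W.cr_in v a.1 a.2.1 z0 h2]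
        rcases lt_abs.1 h3 with h4 | h4
        · rw [LeafB_rise_high (by linarith)]
          exact AddCircle.coe_period (1 : ℝ)
        · rw [LeafB_rise_low (by linarith)]
          exact AddCircle.coe_zero 1
      · push Not at h2
        exact W.cr_out v a.1 a.2.1 h2
    have hall : {a : LS.Cov | ∀ v, W.cr v a.1 = W.cr v z.1} ∈ 𝓝 z :=
      (Filter.eventually_all.2 hint)
    refine ⟨fun _ => 1, -W.bl Q z.1, fun _ => one_pos,
      (LS.rc W.nb1 ⁻¹' V1) ∩ {a : LS.Cov | ∀ v, W.cr v a.1 = W.cr v z.1},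
      inter_mem (hcontAt hV1) hall, ?_, ?_⟩
    · intro w hw
      have h4 : W.bl Q w.1 = W.bl Q z.1 := by
        unfold WC.bl
        exact Finset.sum_congr rfl fun v _ => by rw [hw.2 v]
      simp only [Real.log_one]
      rw [h4]
      ring
    · intro w hw w' hw'
      rw [h1 _ hw.1 _ hw'.1]
      have h5 : DD P Q (LS.rc W.nb1 w).1 (LS.rc W.nb1 w').1 =
          (LS.tim w'.2.2 - LS.tim w.2.2) / 4 := LeafB_DD W Q _ _
      rw [h5, one_mul, one_mul]
      constructor <;> intro h <;> linarith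
  · -- inside of an annulus
    have hX' : ∃ v z0, P.ν v z0 = (LS.rc W.nb1 z).1.1 ∧ |z0.2| ≤ 2 := by
      by_contra hcon
      push Not at hcon
      exact hX fun v z0 h => hcon v z0 h
    obtain ⟨v, z0, hz0, hu0⟩ := hX'
    obtain ⟨Z0, hZ0⟩ : ∃ Z0 : Y, Z0 = (z0, (LS.rc W.nb1 z).1.2) := ⟨_, rfl⟩
    have hZY : Z0 ∈ Yr := by
      rw [hZ0]
      refine ⟨by show |z0.2| < 12; linarith, ?_⟩
      show 1 / 1024 < (z0.2 / 32) ^ 2 + cl (LS.rc W.nb1 z).1.2 ^ 2
      have h2 : 9 / 32 < |cl (LS.rc W.nb1 z).1.2| := LeafA_time z.2.2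
      have h3 : (9 / 32 : ℝ) ^ 2 < cl (LS.rc W.nb1 z).1.2 ^ 2 := by
        rw [← sq_abs (cl _)]
        exact pow_lt_pow_left₀ h2 (by norm_num) (by norm_num)
      have h4 := sq_nonneg (z0.2 / 32)
      norm_num at h3
      linarith
    have hnu : nu P v Z0 = (LS.rc W.nb1 z).1 := by
      rw [hZ0]
      exact Prod.ext hz0 rfl
    obtain ⟨V, hV, hord⟩ := F_inn hF hc hz v hZY hnu
    obtain ⟨L, hL⟩ : ∃ L : Loc, L = Q.loc P v := ⟨_, rfl⟩
    rw [← hL] at hord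
    have hLf : L.f = P.f v := by rw [hL]; rfl
    have hLl : L.lam = Q.lam v := by rw [hL]; rfl
    have hlam := Q.lam_pos v
    -- the neighbourhood in Y
    have c1 : ∀ᶠ w : Y in 𝓝 Z0, |rise w.1.2 - rise Z0.1.2| < 1 / 4 := by
      have h2 : ContinuousAt (fun w : Y => |rise w.1.2 - rise Z0.1.2|) Z0 := by
        refine Continuous.continuousAt ?_
        have h3 : Continuous rise := by unfold rise; fun_prop
        fun_prop
      have h3 := h2.eventually_lt (g := fun _ => (1 / 4 : ℝ)) continuousAt_const (by simp)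
      exact h3
    have c2' : ∀ᶠ w : Y in 𝓝 Z0, |cl (w.1.1 - Z0.1.1)| < 1 / 4 := by
      have h2 : Continuous (fun w : Y => w.1.1) := by fun_prop
      exact h2.continuousAt.eventually (BR.U.small_nhds Z0.1.1 (by norm_num))
    have c3 : ∀ᶠ w : Y in 𝓝 Z0, |L.Fp w.1.1 - L.Fp Z0.1.1| < 1 / 4 := by
      have h2 : ContinuousAt (fun w : Y => |L.Fp w.1.1 - L.Fp Z0.1.1|) Z0 := by
        refine Continuous.continuousAt ?_
        have h3 : Continuous L.Fp := Fp_cont L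
        fun_prop
      have h3 := h2.eventually_lt (g := fun _ => (1 / 4 : ℝ)) continuousAt_const (by simp)
      exact h3
    obtain ⟨V', hV'⟩ : ∃ V' : Set Y, V' = V ∩ ({w : Y | |rise w.1.2 - rise Z0.1.2| < 1 / 4} ∩
      ({w : Y | |cl (w.1.1 - Z0.1.1)| < 1 / 4} ∩ {w : Y | |L.Fp w.1.1 - L.Fp Z0.1.1| < 1 / 4})) :=
      ⟨_, rfl⟩
    have hV'n : V' ∈ 𝓝 Z0 := by
      rw [hV']
      exact inter_mem hV (inter_mem c1 (inter_mem c2' c3))
    have hU : {a : LS.Cov | (LS.rc W.nb1 a).1 ∈ nu P v '' V'} ∈ 𝓝 z := by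
      have h2 : nu P v '' V' ∈ 𝓝 (LS.rc W.nb1 z).1 := by
        rw [← hnu]
        exact (nu_emb P v).isOpenMap.image_mem_nhds hV'n
      exact hcont.continuousAt.preimage_mem_nhds h2
    -- the point on the curve
    have hkap : ∀ (a : LS.Cov) (w : Y), nu P v w = (LS.rc W.nb1 a).1 → P.kap v (P.ν v w.1) = 0 := by
      intro a w h
      have h2 : P.ν v w.1 = W.μ ((a.1 : Ci), a.2.1) := congrArg Prod.fst h
      rw [h2]
      exact W.zero v _
    have hf0 : ∀ (w : Y) (x : ℝ), (x : Ci) = w.1.1 → P.kap v (P.ν v w.1) = 0 →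
        ((P.f v x : ℝ) : Ci) = 0 := by
      intro w x hx h
      rw [← P.cross v x w.1.2, hx]
      exact h
    have hA : ∀ w ∈ V', P.kap v (P.ν v w.1) = 0 →
        cl (w.1.1 - Z0.1.1) + (L.Fp w.1.1 - L.Fp Z0.1.1) = 0 := by
      intro w hw hk
      rw [hV'] at hw
      have h2 : |cl (w.1.1 - Z0.1.1)| < 1 / 4 := hw.2.2.1
      have h3 : |L.Fp w.1.1 - L.Fp Z0.1.1| < 1 / 4 := hw.2.2.2
      have e0 : ((cl Z0.1.1 : ℝ) : Ci) = Z0.1.1 := BR.U.coe_cl _
      have e1 : ((cl Z0.1.1 + cl (w.1.1 - Z0.1.1) : ℝ) : Ci) = w.1.1 := by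
        rw [AddCircle.coe_add, BR.U.coe_cl, BR.U.coe_cl, add_sub_cancel]
      have h4 := Fp_diff L (x := cl Z0.1.1) (x' := cl Z0.1.1 + cl (w.1.1 - Z0.1.1))
        (by rw [add_sub_cancel_left]; linarith)
      rw [e0, e1, hLf] at h4
      rw [h4]
      have h5 := hf0 w _ e1 hk
      have h6 := hf0 Z0 _ e0 (hkap z Z0 hnu)
      have h7 : |P.f v (cl Z0.1.1 + cl (w.1.1 - Z0.1.1)) - P.f v (cl Z0.1.1)| < 1 := by
        rw [← h4]
        have h8 := abs_add_le (cl (w.1.1 - Z0.1.1)) (L.Fp w.1.1 - L.Fp Z0.1.1)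
        linarith
      have h8 := LeafA_inj h7 (h5.trans h6.symm)
      rw [h8, sub_self]
    have hq : ∀ w ∈ V', ∀ w' ∈ V', P.kap v (P.ν v w.1) = 0 → P.kap v (P.ν v w'.1) = 0 →
        cl (w'.1.1 - w.1.1) + (L.Fp w'.1.1 - L.Fp w.1.1) = 0 := by
      intro w hw w' hw' hk hk'
      have h2 := hA w hw hk
      have h3 := hA w' hw' hk'
      rw [hV'] at hw hw'
      have h4 := BR.U.cl_base (u := Z0.1.1) (w := w.1.1) (w' := w'.1.1) hw.2.2.1 hw'.2.2.1
      rw [h4]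
      linarith
    have hEE : ∀ (a b : LS.Cov), ∀ w ∈ V', ∀ w' ∈ V', nu P v w = (LS.rc W.nb1 a).1 →
        nu P v w' = (LS.rc W.nb1 b).1 → EE L w w' =
          ((1 + (Q.lam v - 1) * rise w'.1.2) * LS.tim b.2.2 -
            (1 + (Q.lam v - 1) * rise w.1.2) * LS.tim a.2.2) / 4 := by
      intro a b w hw w' hw' ha hb
      have ta : w.2 = ((1 / 2 + LS.tim a.2.2 / 4 : ℝ) : Ci) := congrArg Prod.snd ha
      have tb : w'.2 = ((1 / 2 + LS.tim b.2.2 / 4 : ℝ) : Ci) := congrArg Prod.snd hb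
      have h2 : 1 / 16 ≤ |cl w.2| := by
        rw [ta]
        have := LeafA_time a.2.2
        linarith
      have h3 : 1 / 16 ≤ |cl w'.2| := by
        rw [tb]
        have := LeafA_time b.2.2
        linarith
      have h4 := hq w hw w' hw' (hkap a w ha) (hkap b w' hb)
      rw [EE_mid L h2 h3, h4, mul_zero, add_zero, hLl, ta, tb, LeafB_yt, LeafB_yt, LeafB_cl,
        LeafB_rmp, LeafB_rmp]
      have ra := LeafB_rise_mem w.1.2
      have rb := LeafB_rise_mem w'.1.2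
      have ma := LS.tim_mem a.2.2
      have mb := LS.tim_mem b.2.2
      have k1 : rise w.1.2 * (-1 / 2 + LS.tim a.2.2 / 4 + 1 / 2) = rise w.1.2 * LS.tim a.2.2 / 4 := by
        ring
      have k2 : rise w'.1.2 * (-1 / 2 + LS.tim b.2.2 / 4 + 1 / 2) =
          rise w'.1.2 * LS.tim b.2.2 / 4 := by ring
      rw [k1, k2]
      have b1 := LeafB_bd ra ma
      have b2 := LeafB_bd rb mb
      rw [BR.U.cl_coe ⟨by linarith [b1.1, b1.2, b2.1, b2.2], by linarith [b1.1, b1.2, b2.1, b2.2]⟩]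
      ring
    -- the number of turns
    have hcr0 : ((rise Z0.1.2 : ℝ) : Ci) = (W.cr v z.1 : Ci) := by
      have h2 : W.μ ((z.1 : Ci), z.2.1) = P.ν v z0 := hz0.symm
      rw [hZ0]
      exact W.cr_in v z.1 z.2.1 z0 h2
    obtain ⟨n, hn⟩ : ∃ n : ℤ, W.cr v z.1 = rise Z0.1.2 + n := LeafB_coe hcr0
    have hB : ∀ (a : LS.Cov), |W.cr v a.1 - W.cr v z.1| < 1 / 4 → ∀ w ∈ V',
        nu P v w = (LS.rc W.nb1 a).1 → W.cr v a.1 - n = rise w.1.2 := by
      intro a ha w hw h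
      have h2 : W.μ ((a.1 : Ci), a.2.1) = P.ν v w.1 := (congrArg Prod.fst h).symm
      have h3 := W.cr_in v a.1 a.2.1 w.1 h2
      rw [hV'] at hw
      have h4 : |rise w.1.2 - rise Z0.1.2| < 1 / 4 := hw.2.1
      refine LeafA_inj ?_ ?_
      · rw [abs_lt] at ha h4 ⊢
        constructor <;> linarith [ha.1, ha.2, h4.1, h4.2]
      · rw [h3, AddCircle.coe_sub]
        have h5 : ((n : ℝ) : Ci) = 0 := (AddCircle.coe_eq_zero_iff (1 : ℝ)).2 ⟨n, by simp⟩
        rw [h5, sub_zero]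
    have hcn : {a : LS.Cov | |W.cr v a.1 - W.cr v z.1| < 1 / 4} ∈ 𝓝 z := by
      have h2 : ContinuousAt (fun a : LS.Cov => |W.cr v a.1 - W.cr v z.1|) z := by
        refine Continuous.continuousAt ?_
        have h3 := W.cr_cont v
        fun_prop
      exact h2.eventually_lt (g := fun _ => (1 / 4 : ℝ)) continuousAt_const (by simp)
    have hoth : {a : LS.Cov | ∀ v', v' ≠ v → W.cr v' a.1 = W.cr v' z.1} ∈ 𝓝 z := by
      have h2 : ∀ v', ∀ᶠ a : LS.Cov in 𝓝 z, v' ≠ v → W.cr v' a.1 = W.cr v' z.1 := by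
        intro v'
        by_cases hv : v' = v
        · exact Filter.Eventually.of_forall fun a h => absurd hv h
        · have h3 : ∀ᶠ a : LS.Cov in 𝓝 z, W.cr v' a.1 = W.cr v' z.1 := by
            refine LeafB_const (W.cr_cont v') ?_
            filter_upwards [hU] with a ha
            obtain ⟨w, hw, h⟩ := ha
            have h4 : P.ν v w.1 = W.μ ((a.1 : Ci), a.2.1) := congrArg Prod.fst h
            refine W.cr_out v' a.1 a.2.1 fun z' h5 => ?_
            rw [← h4] at h5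
            exact hv (P.disj v v' _ _ h5).symm
          filter_upwards [h3] with a ha _
          exact ha
      exact Filter.eventually_all.2 h2
    have hm : ∀ θ, 0 ≤ max 0 (min 1 (W.cr v θ - n)) ∧ max 0 (min 1 (W.cr v θ - n)) ≤ 1 := fun θ =>
      ⟨le_max_left _ _, max_le zero_le_one (min_le_left _ _)⟩
    have hmr : ∀ r : ℝ, 0 ≤ r → r ≤ 1 → max 0 (min 1 r) = r := fun r h h' => by
      rw [min_eq_right h', max_eq_right h]
    refine ⟨fun θ => 1 + (Q.lam v - 1) * max 0 (min 1 (W.cr v θ - n)),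
      -(∑ v' ∈ Finset.univ.erase v, gl (Q.lam v') (W.cr v' z.1)) - n * Real.log (Q.lam v),
      fun θ => LeafB_pos hlam (hm θ).1 (hm θ).2,
      {a : LS.Cov | (LS.rc W.nb1 a).1 ∈ nu P v '' V'} ∩
        ({a : LS.Cov | |W.cr v a.1 - W.cr v z.1| < 1 / 4} ∩
          {a : LS.Cov | ∀ v', v' ≠ v → W.cr v' a.1 = W.cr v' z.1}),
      inter_mem hU (inter_mem hcn hoth), ?_, ?_⟩
    · rintro a ⟨⟨w, hw, hwa⟩, ha1, ha2⟩
      have h2 := hB a ha1 w hw hwa
      have h3 := LeafB_rise_mem w.1.2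
      have h4 : W.bl Q a.1 = gl (Q.lam v) (W.cr v a.1) +
          ∑ v' ∈ Finset.univ.erase v, gl (Q.lam v') (W.cr v' z.1) := by
        unfold WC.bl
        rw [← Finset.add_sum_erase _ _ (Finset.mem_univ v)]
        congr 1
        exact Finset.sum_congr rfl fun v' hv' => by rw [ha2 v' (Finset.ne_of_mem_erase hv')]
      have h5 : W.cr v a.1 = rise w.1.2 + n := by linarith
      have h6 := LeafB_gl (Q.lam v) n h3.1 h3.2
      simp only
      rw [h4, h2, hmr _ h3.1 h3.2, h5, h6]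
      ring
    · rintro a ⟨⟨w, hw, hwa⟩, ha1, ha2⟩ b ⟨⟨w', hw', hwb⟩, hb1, hb2⟩
      have hwV : w ∈ V := by rw [hV'] at hw; exact hw.1
      have hwV' : w' ∈ V := by rw [hV'] at hw'; exact hw'.1
      have h2 := hB a ha1 w hw hwa
      have h2' := hB b hb1 w' hw' hwb
      have h3 := LeafB_rise_mem w.1.2
      have h3' := LeafB_rise_mem w'.1.2
      rw [hord w hwV w' hwV' _ _ hwa.symm hwb.symm, hEE a b w hw w' hw' hwa hwb]
      simp only
      rw [h2, h2', hmr _ h3.1 h3.2, hmr _ h3'.1 h3'.2]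
      constructor <;> intro h <;> linarith

include hF in
/-- **the leaf curves**: `Γ (θ, s) = exp (bl θ) * tim s`, `h = ` multiplication by the product of the
`lam v ^ num v` -/
theorem leaf_curve [Finite J] (hL : ∑ v, W.num v * Real.log (Q.lam v) ≠ 0) {x : ℝ} (hx : x ≠ 0) :
    LeafCurve F W.nb1 x := by
  obtain ⟨L, hLd⟩ : ∃ L, L = ∑ v, W.num v * Real.log (Q.lam v) := ⟨_, rfl⟩
  rw [← hLd] at hL
  have hexp : Real.exp L - 1 ≠ 0 := by
    intro h
    have h1 : Real.exp L = 1 := by linarith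
    exact hL (Real.exp_eq_one_iff L |>.1 h1)
  refine ⟨nb1_emb W, 1, fun y => Real.exp (W.bl Q y.1) * LS.tim y.2,
    OrderIso.mulLeft₀ (Real.exp L) (Real.exp_pos L), one_pos, ?_, ?_, ?_, ?_, ?_, ?_⟩
  · refine Continuous.continuousOn ?_
    exact (Real.continuous_exp.comp ((bl_cont W).comp continuous_fst)).mul
      (LS.tim_cont.comp continuous_snd)
  · intro θ s _ s' _ h
    exact mul_lt_mul_of_pos_left (LS.tim_mono h) (Real.exp_pos _)
  · intro θ
    show Real.exp (W.bl Q θ) * LS.tim 0 = 0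
    rw [LS.tim_mid (by norm_num) le_rfl, zero_div, mul_zero]
  · intro θ s _
    show Real.exp (W.bl Q (θ + 1)) * LS.tim s = Real.exp L * (Real.exp (W.bl Q θ) * LS.tim s)
    rw [bl_add, ← hLd, Real.exp_add]
    ring
  · intro θ u s _ c hc hz
    obtain ⟨B, k, hB, V, hV, h1, h2⟩ := leaf_ord W hF (θ, (u, s)) hc hz
    refine ⟨V, hV, fun w hw w' hw' => ?_⟩
    have e : ∀ a ∈ V, B a.1 = Real.exp k * Real.exp (W.bl Q a.1) := by
      intro a ha
      rw [← Real.exp_add, add_comm, ← h1 a ha, Real.exp_log (hB _)]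
    have h3 := h2 w hw w' hw'
    rw [e w hw, e w' hw', mul_assoc, mul_assoc, mul_lt_mul_iff_right₀ (Real.exp_pos k)] at h3
    exact h3
  · intro ε hε
    have h1 : x * (Real.exp L - 1) ≠ 0 := mul_ne_zero hx hexp
    rcases lt_or_gt_of_ne h1 with h | h
    · refine ⟨-(ε / 2), by rw [abs_neg, abs_of_pos (by linarith)]; linarith, ?_⟩
      show 0 < x * (Real.exp L * -(ε / 2) - -(ε / 2))
      have h2 : x * (Real.exp L * -(ε / 2) - -(ε / 2)) = -(x * (Real.exp L - 1)) * (ε / 2) := by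
        ring
      rw [h2]
      exact mul_pos (by linarith) (by linarith)
    · refine ⟨ε / 2, by rw [abs_of_pos (by linarith)]; linarith, ?_⟩
      show 0 < x * (Real.exp L * (ε / 2) - ε / 2)
      have h2 : x * (Real.exp L * (ε / 2) - ε / 2) = (x * (Real.exp L - 1)) * (ε / 2) := by
        ring
      rw [h2]
      exact mul_pos h (by linarith)

end Pool.Agent.H.MP_1611f1_gt.TP
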