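import Pool.Agent.H.MP_1611f1_gt.TP.FolC

/-!
The foliation is taut.
-/

namespace Pool.Agent.H.MP_1611f1_gt.TP

open Topology Set Filter
open Pool.Agent.H.MP_1611f1_gt.BR.U (Ci cl yt hlf psi cu rmp ang)
open Pool.Agent.H.MP_1611f1_gt.LG (Cylinder solidTorus)

variable {S : Type*} [TopologicalSpace S] {J I : Type*} {P : Two S J I} [Fintype I] {Q : Par I}
  [T2Space S] {F : Foliation (M1 P)}
  (hF : F.charts = LS.pullCharts (Subtype.val : M1 P → S × Ci) (pre P Q))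

theorem Tau_one : ((1 : ℝ) : Ci) = 0 := AddCircle.coe_period (1 : ℝ)

/-- a curve near a point of the parameter stays in a neighbourhood -/
theorem Tau_ball {M : Type*} [TopologicalSpace M] {l : ℝ → M} (hl : Continuous l) {s : ℝ} {V : Set M}
    (hV : V ∈ 𝓝 (l s)) : ∃ ε : ℝ, 0 < ε ∧ ∀ x ∈ Ioo (s - ε) (s + ε), l x ∈ V := by
  obtain ⟨δ, hδ, hball⟩ := Metric.mem_nhds_iff.1 (hl.continuousAt (x := s) hV)
  refine ⟨δ, hδ, fun x hx => ?_⟩
  have h3 : x ∈ Metric.ball s δ := by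
    rw [Metric.mem_ball, Real.dist_eq, abs_lt]
    exact ⟨by linarith [hx.1], by linarith [hx.2]⟩
  exact hball h3

include hF in
/-- the circles in the direction of `t` in the outer region are closed transversals (`F_out`, `DD_t`) -/
theorem circ_out [Finite J] (x : S) (hx : ∀ t : Ci, (x, t) ∈ Xo P) (hm : ∀ t : Ci, ∀ v, (x, t) ∉ nbv P v '' solidTorus) :
    F.ClosedTransversal fun s : ℝ => ⟨(x, (s : Ci)), hm _⟩ := by
  have hl : Continuous (fun s : ℝ => (⟨(x, (s : Ci)), hm _⟩ : M1 P)) := by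
    refine Continuous.subtype_mk ?_ _
    exact continuous_const.prodMk (AddCircle.continuous_mk' (1 : ℝ))
  refine ⟨hl, fun s => ?_, fun s c hc hs => ?_⟩
  · apply Subtype.ext
    show ((x, ((s + 1 : ℝ) : Ci)) : S × Ci) = (x, (s : Ci))
    rw [AddCircle.coe_add, Tau_one, add_zero]
  · obtain ⟨V, hV, hcmp⟩ := F_out hF hc hs (hx _)
    obtain ⟨ε, hε, hin⟩ := Tau_ball hl hV
    refine ⟨min ε (1 / 4), lt_min hε (by norm_num), ?_⟩
    have i1 := min_le_left ε (1 / 4)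
    have i2 := min_le_right ε (1 / 4)
    intro a ha b hb hab
    have hb1 := hb.2
    have ha1 := ha.1
    have h1 := hin a ⟨by linarith [ha.1], by linarith [ha.2]⟩
    have h2 := hin b ⟨by linarith [hb.1], by linarith [hb.2]⟩
    refine (hcmp _ h1 _ h2).2 ?_
    show 0 < DD P Q (x, (a : Ci)) (x, (b : Ci))
    have h3 : DD P Q (x, (a : Ci)) (x, (b : Ci)) = b - a := by
      refine DD_t P Q (by rw [abs_of_pos (by linarith)]; linarith) rfl ?_
      show (b : Ci) = (a : Ci) + ((b - a : ℝ) : Ci)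
      rw [AddCircle.coe_sub]
      abel
    rw [h3]
    linarith

/-- the points of the local models are outside of the tubes -/
theorem Tau_mem (v : I) {z : Y} (hz : z ∈ Yr) (v' : I) : nu P v z ∉ nbv P v' '' solidTorus := by
  rintro ⟨w, hw, hwz⟩
  have h1 : P.ν v' (w.1, w.2.1) = P.ν v z.1 := congrArg Prod.fst hwz
  have h2 : (((w.2.2 + 4) / 32 : ℝ) : Ci) = z.2 := congrArg Prod.snd hwz
  obtain rfl := P.disj _ _ _ _ h1
  have h3 : (w.1, w.2.1) = z.1 := (P.emb _).injective h1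
  have h4 : w.2.1 = z.1.2 := congrArg Prod.snd h3
  have h5 : w.2.1 ^ 2 + (w.2.2 + 4) ^ 2 ≤ 1 := hw
  have h6 : |w.2.2 + 4| ≤ 1 := by
    rw [abs_le]
    constructor <;> nlinarith [sq_nonneg w.2.1]
  have h7 := abs_le.1 h6
  have h8 : cl z.2 = (w.2.2 + 4) / 32 := by
    rw [← h2]
    exact BR.U.cl_coe ⟨by linarith, by linarith⟩
  have h9 := hz.2
  rw [h8, ← h4] at h9
  have h10 : (w.2.1 / 32) ^ 2 + ((w.2.2 + 4) / 32) ^ 2 = (w.2.1 ^ 2 + (w.2.2 + 4) ^ 2) / 1024 := by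
    ring
  rw [h10] at h9
  linarith

include hF in
/-- the circles in the direction of `θ` in the square are closed transversals, in the direction of the sign of `q`
(`F_inn`, `EE_theta`) -/
theorem circ_inn (v : I) {z : Y} (hz : z ∈ Yr) (hx : |z.1.2| < 2) (hy : |cl z.2| < 1 / 16)
    (e : ℝ) (he : e = 1 ∨ e = -1) (heq : 0 < e * Q.q v)
    (hm : ∀ θ : Ci, ∀ v', nu P v ((θ, z.1.2), z.2) ∉ nbv P v' '' solidTorus) :
    F.ClosedTransversal fun s : ℝ => ⟨nu P v ((((e * s : ℝ) : Ci), z.1.2), z.2), hm _⟩ := by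
  have hee : ((e : ℝ) : Ci) = 0 := by
    rcases he with rfl | rfl
    · exact Tau_one
    · rw [AddCircle.coe_neg, Tau_one, neg_zero]
  have hk : Continuous (fun s : ℝ => ((((e * s : ℝ) : Ci), z.1.2), z.2) : ℝ → Y) :=
    (((AddCircle.continuous_mk' (1 : ℝ)).comp (continuous_const.mul continuous_id)).prodMk
      continuous_const).prodMk continuous_const
  have hl : Continuous (fun s : ℝ =>
      (⟨nu P v ((((e * s : ℝ) : Ci), z.1.2), z.2), hm _⟩ : M1 P)) := by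
    refine Continuous.subtype_mk ?_ _
    exact (nu_emb P v).continuous.comp hk
  refine ⟨hl, fun s => ?_, fun s c hc hs => ?_⟩
  · apply Subtype.ext
    show nu P v ((((e * (s + 1) : ℝ) : Ci), z.1.2), z.2) = nu P v ((((e * s : ℝ) : Ci), z.1.2), z.2)
    rw [mul_add, mul_one, AddCircle.coe_add, hee, add_zero]
  · have hz' : ((((e * s : ℝ) : Ci), z.1.2), z.2) ∈ Yr := hz
    obtain ⟨V, hV, hcmp⟩ := F_inn hF hc hs v hz' rfl
    obtain ⟨N, hN, hzN, -, hNN, -⟩ := EE_near (Q.loc P v) hz'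
    obtain ⟨ε, hε, hin⟩ := Tau_ball hk (s := s) (inter_mem hV (hN.mem_nhds hzN))
    refine ⟨min ε (1 / 16), lt_min hε (by norm_num), ?_⟩
    have i1 := min_le_left ε (1 / 16)
    have i2 := min_le_right ε (1 / 16)
    intro a ha b hb hab
    have hb1 := hb.2
    have ha1 := ha.1
    obtain ⟨h1, n1⟩ := hin a ⟨by linarith [ha.1], by linarith [ha.2]⟩
    obtain ⟨h2, n2⟩ := hin b ⟨by linarith [hb.1], by linarith [hb.2]⟩
    refine (hcmp _ h1 _ h2 _ _ rfl rfl).2 ?_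
    have hq : (Q.loc P v).q = Q.q v := rfl
    rcases he with rfl | rfl
    · have h3 := EE_theta (Q.loc P v) (z := ((((1 * a : ℝ) : Ci), z.1.2), z.2))
        (z' := ((((1 * b : ℝ) : Ci), z.1.2), z.2)) (δ := b - a) (by linarith) (by linarith) hx hy rfl rfl ?_
      · rw [hq] at h3
        rw [one_mul] at heq
        exact (mul_pos_iff_of_pos_left heq).1 h3
      · show ((1 * b : ℝ) : Ci) = ((1 * a : ℝ) : Ci) + ((b - a : ℝ) : Ci)
        rw [← AddCircle.coe_add]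
        congr 1
        ring
    · have h3 := EE_theta (Q.loc P v) (z := ((((-1 * b : ℝ) : Ci), z.1.2), z.2))
        (z' := ((((-1 * a : ℝ) : Ci), z.1.2), z.2)) (δ := b - a) (by linarith) (by linarith) hx hy rfl rfl ?_
      · rw [hq] at h3
        have h4 := hNN _ n1 _ n2
        have h5 := hNN _ n2 _ n1
        have h6 : Q.q v < 0 := by linarith
        rw [h4]
        rw [h5] at h3
        nlinarith
      · show ((-1 * a : ℝ) : Ci) = ((-1 * b : ℝ) : Ci) + ((b - a : ℝ) : Ci)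
        rw [← AddCircle.coe_add]
        congr 1
        ring

theorem Tau_cu {z : Y} (h : 2 ≤ |z.1.2| ∨ 1 / 16 ≤ |cl z.2|) :
    cu (z.1.2 / 32) (cl z.2) = 1 ∧ c2 (z.1.2 / 32) (cl z.2) = 1 := by
  have h' : 1 / 16 ≤ |z.1.2 / 32| ∨ 1 / 16 ≤ |cl z.2| := by
    rcases h with h | h
    · left
      rw [abs_div, abs_of_pos (by norm_num : (0 : ℝ) < 32)]
      linarith
    · exact Or.inr h
  refine ⟨?_, c2_far h'⟩
  apply BR.U.cu_far
  rcases h' with h | h
  · have h1 : (1 / 16 : ℝ) ^ 2 ≤ |z.1.2 / 32| ^ 2 := by gcongr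
    rw [sq_abs] at h1
    nlinarith [sq_nonneg (cl z.2)]
  · have h1 : (1 / 16 : ℝ) ^ 2 ≤ |cl z.2| ^ 2 := by gcongr
    rw [sq_abs] at h1
    nlinarith [sq_nonneg (z.1.2 / 32)]

/-- far from the curve, for equal `θ`: with `τ = t + 1/2` the transverse function is
`(1 + (lam - 1) rmp) τ` -/
theorem Tau_flat (L : Loc) {z z' : Y} {τ τ' : ℝ} (h : 2 ≤ |z.1.2| ∨ 1 / 16 ≤ |cl z.2|)
    (h' : 2 ≤ |z'.1.2| ∨ 1 / 16 ≤ |cl z'.2|) (hθ : z'.1.1 = z.1.1)
    (ht : yt z.2 = τ - 1 / 2) (ht' : yt z'.2 = τ' - 1 / 2) (h1 : |τ' - τ| < 1 / 2)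
    (h2 : |rmp (z'.1.2 / 32) * τ' - rmp (z.1.2 / 32) * τ| < 1 / 2) :
    EE L z z' = (1 + (L.lam - 1) * rmp (z'.1.2 / 32)) * τ' -
      (1 + (L.lam - 1) * rmp (z.1.2 / 32)) * τ := by
  obtain ⟨a1, a2⟩ := Tau_cu h
  obtain ⟨b1, b2⟩ := Tau_cu h'
  have e1 : cl (z'.2 - z.2) = τ' - τ := by
    have h3 : z'.2 - z.2 = ((τ' - τ : ℝ) : Ci) := by
      rw [← BR.U.coe_yt z'.2, ← BR.U.coe_yt z.2, ht, ht', ← AddCircle.coe_sub]
      congr 1
      ring
    have h4 := abs_lt.1 h1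
    rw [h3]
    exact BR.U.cl_coe ⟨by linarith [h4.1], h4.2⟩
  have e2 : cl (z'.1.1 - z.1.1) = 0 := by rw [hθ, sub_self, BR.U.cl_zero]
  have e3 : cl (psi (1 / 2) (z'.1.2 / 32) z'.2 - psi (1 / 2) (z.1.2 / 32) z.2) =
      rmp (z'.1.2 / 32) * τ' - rmp (z.1.2 / 32) * τ := by
    have h3 : psi (1 / 2) (z'.1.2 / 32) z'.2 - psi (1 / 2) (z.1.2 / 32) z.2 =
        ((rmp (z'.1.2 / 32) * τ' - rmp (z.1.2 / 32) * τ : ℝ) : Ci) := by
      unfold psi BR.U.gg
      rw [a1, b1, ht, ht', ← AddCircle.coe_sub]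
      congr 1
      ring
    have h4 := abs_lt.1 h2
    rw [h3]
    exact BR.U.cl_coe ⟨by linarith [h4.1], h4.2⟩
  have e4 : L.g z' - L.g z = 0 := by
    unfold Loc.g
    rw [a1, a2, b1, b2, hθ]
    ring
  unfold EE
  rw [e1, e2, e3, e4]
  ring

theorem Tau_B (L : Loc) (x : ℝ) : 0 < 1 + (L.lam - 1) * rmp x := by
  have h := BR.U.rmp_mem x
  have h1 := L.lam_pos
  nlinarith [mul_nonneg h1.le h.1, h.2, h.1, mul_nonneg (sub_nonneg.2 h.2) h1.le]

theorem Tau_yt {t : Ci} {τ : ℝ} (h : yt t = τ - 1 / 2) : (1 / 16 ≤ |cl t| ↔ |τ| ≤ 7 / 16) := by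
  have h1 := BR.U.cl_mem t
  have h2 := BR.U.yt_mem t
  rcases le_or_gt (cl t) 0 with h3 | h3
  · have h4 := BR.U.yt_of_nonpos h3
    rw [h4] at h
    rw [abs_of_nonpos h3, h]
    constructor
    · intro h5
      rw [abs_le]
      constructor <;> linarith [h1.1]
    · intro h5
      have h6 := abs_le.1 h5
      linarith [h6.2]
  · have h4 := BR.U.yt_of_pos h3
    rw [h4] at h
    have h5 : cl t = τ + 1 / 2 := by linarith
    rw [abs_of_pos h3, h5]
    constructor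
    · intro h6
      rw [abs_le]
      constructor <;> linarith [h1.2]
    · intro h6
      have h7 := abs_le.1 h6
      linarith [h7.1]

include hF in
/-- the leaf path `B τ = const` from `u₀` to `u₁` -/
theorem Tau_path (v : I) {y : M1 P} {z : Y} (h : nu P v z = y.1) (u₁ : ℝ)
    (hu : |z.1.2| ≤ 3) (hu1 : |u₁| = 3)
    (hB : ∀ u ∈ uIcc z.1.2 u₁, 1 + (Q.lam v - 1) * rmp (z.1.2 / 32) ≤ 1 + (Q.lam v - 1) * rmp (u / 32))
    (hfar : (∀ u ∈ uIcc z.1.2 u₁, 2 ≤ |u|) ∨ 1 / 16 ≤ |cl z.2|) :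
    ∃ (y' : M1 P) (z' : Y), F.SameLeaf y y' ∧ nu P v z' = y'.1 ∧ |z'.1.2| = 3 := by
  obtain ⟨u₀, hu₀⟩ : ∃ u₀ : ℝ, u₀ = z.1.2 := ⟨_, rfl⟩
  obtain ⟨τ₀, hτ₀⟩ : ∃ τ₀ : ℝ, yt z.2 = τ₀ - 1 / 2 := ⟨yt z.2 + 1 / 2, by ring⟩
  rw [← hu₀] at hu hB hfar
  have hym := BR.U.yt_mem z.2
  rw [hτ₀] at hym
  obtain ⟨B, hBd⟩ : ∃ B : ℝ → ℝ, ∀ x, B x = 1 + (Q.lam v - 1) * rmp (x / 32) := ⟨_, fun _ => rfl⟩
  have hBc : Continuous B := by
    have h3 : B = fun x => 1 + (Q.lam v - 1) * rmp (x / 32) := funext hBd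
    rw [h3]
    exact continuous_const.add (continuous_const.mul (BR.U.rmp_cont.comp (continuous_id.div_const 32)))
  have hBp : ∀ x, 0 < B x := by
    intro x
    rw [hBd]
    exact Tau_B (Q.loc P v) _
  -- the coordinates of the path
  obtain ⟨x, hx⟩ : ∃ x : unitInterval → ℝ, ∀ s, x s = u₀ + (s : ℝ) * (u₁ - u₀) :=
    ⟨_, fun _ => rfl⟩
  have hxc : Continuous x := by
    have h3 : x = fun s : unitInterval => u₀ + (s : ℝ) * (u₁ - u₀) := funext hx
    rw [h3]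
    exact continuous_const.add (continuous_subtype_val.mul continuous_const)
  have hxm : ∀ s, x s ∈ uIcc u₀ u₁ := by
    intro s
    rw [hx]
    have h3 := s.2.1
    have h4 := s.2.2
    rcases le_total u₀ u₁ with h5 | h5
    · rw [uIcc_of_le h5]
      constructor
      · nlinarith [mul_nonneg h3 (sub_nonneg.2 h5)]
      · nlinarith [mul_nonneg (sub_nonneg.2 h4) (sub_nonneg.2 h5)]
    · rw [uIcc_of_ge h5]
      constructor
      · nlinarith [mul_nonneg (sub_nonneg.2 h4) (sub_nonneg.2 h5)]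
      · nlinarith [mul_nonneg h3 (sub_nonneg.2 h5)]
  have hx3 : ∀ s, |x s| ≤ 3 := by
    intro s
    have h1 := abs_le.1 hu
    have h2 := abs_le.1 hu1.le
    have h3 := hxm s
    rw [mem_uIcc] at h3
    rw [abs_le]
    rcases h3 with h3 | h3
    · exact ⟨by linarith [h3.1], by linarith [h3.2]⟩
    · exact ⟨by linarith [h3.1], by linarith [h3.2]⟩
  have hB' : ∀ s, B u₀ ≤ B (x s) := by
    intro s
    rw [hBd, hBd]
    exact hB _ (hxm s)
  obtain ⟨τ, hτ⟩ : ∃ τ : unitInterval → ℝ, ∀ s, τ s = B u₀ * τ₀ / B (x s) := ⟨_, fun _ => rfl⟩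
  have hτc : Continuous τ := by
    have h3 : τ = fun s : unitInterval => B u₀ * τ₀ / B (x s) := funext hτ
    rw [h3]
    exact continuous_const.div (hBc.comp hxc) fun s => (hBp _).ne'
  have hτB : ∀ s, B (x s) * τ s = B u₀ * τ₀ := by
    intro s
    rw [hτ]
    field_simp [(hBp (x s)).ne']
  have hτa : ∀ s, |τ s| ≤ |τ₀| := by
    intro s
    rw [hτ, abs_div, abs_mul, abs_of_pos (hBp u₀), abs_of_pos (hBp (x s)), div_le_iff₀ (hBp _)]
    nlinarith [abs_nonneg τ₀, hB' s]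
  have hτm : ∀ s, τ s - 1 / 2 ∈ Ioc (-1 : ℝ) 0 := by
    intro s
    have h3 := hτB s
    have h4 := hBp (x s)
    have h5 := hB' s
    have h6 := hBp u₀
    have h7 := hym.1
    have h8 := hym.2
    constructor
    · by_contra h9
      push Not at h9
      have h10 : B (x s) * τ s ≤ B (x s) * (-1 / 2) := mul_le_mul_of_nonneg_left (by linarith) h4.le
      have h11 : B u₀ * (-1 / 2) < B u₀ * τ₀ := mul_lt_mul_of_pos_left (by linarith) h6
      linarith
    · by_contra h9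
      push Not at h9
      have h10 : B (x s) * (1 / 2) < B (x s) * τ s := mul_lt_mul_of_pos_left (by linarith) h4
      have h11 : B u₀ * τ₀ ≤ B u₀ * (1 / 2) := mul_le_mul_of_nonneg_left (by linarith) h6.le
      linarith
  -- the path in the local model
  obtain ⟨g, hg⟩ : ∃ g : unitInterval → Y, ∀ s, g s =
      ((z.1.1, x s), ((τ s - 1 / 2 : ℝ) : Ci)) := ⟨_, fun _ => rfl⟩
  have hgc : Continuous g := by
    have h3 : g = fun s : unitInterval => (((z.1.1, x s), ((τ s - 1 / 2 : ℝ) : Ci)) : Y) := funext hg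
    rw [h3]
    exact (continuous_const.prodMk hxc).prodMk ((AddCircle.continuous_mk' (1 : ℝ)).comp
        (hτc.sub continuous_const))
  have hgu : ∀ s, (g s).1.2 = x s := fun s => by rw [hg]
  have hgθ : ∀ s, (g s).1.1 = z.1.1 := fun s => by rw [hg]
  have hgt : ∀ s, yt (g s).2 = τ s - 1 / 2 := by
    intro s
    rw [hg]
    exact BR.U.yt_coe (hτm s)
  have hgf : ∀ s, 2 ≤ |(g s).1.2| ∨ 1 / 16 ≤ |cl (g s).2| := by
    intro s
    rcases hfar with h3 | h3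
    · left
      rw [hgu]
      exact h3 _ (hxm s)
    · right
      rw [Tau_yt (hgt s)]
      exact (hτa s).trans ((Tau_yt hτ₀).1 h3)
  have hgY : ∀ s, g s ∈ Yr := by
    intro s
    refine ⟨?_, ?_⟩
    · rw [hgu]
      linarith [hx3 s]
    · rcases hgf s with h3 | h3
      · have h4 : (2 : ℝ) ^ 2 ≤ |(g s).1.2| ^ 2 := by gcongr
        rw [sq_abs] at h4
        nlinarith [sq_nonneg (cl (g s).2)]
      · have h4 : (1 / 16 : ℝ) ^ 2 ≤ |cl (g s).2| ^ 2 := by gcongr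
        rw [sq_abs] at h4
        nlinarith [sq_nonneg ((g s).1.2 / 32)]
  have hD : ∀ s, ∀ᶠ s' in 𝓝 s, EE (Q.loc P v) (g s) (g s') = 0 ∧ EE (Q.loc P v) (g s') (g s) = 0 := by
    intro s
    have c1 : ContinuousAt (fun s' => |τ s' - τ s|) s := (hτc.continuousAt.sub continuousAt_const).abs
    have c2' : ContinuousAt (fun s' => |rmp (x s' / 32) * τ s' - rmp (x s / 32) * τ s|) s :=
      (((BR.U.rmp_cont.comp (hxc.div_const 32)).mul hτc).continuousAt.sub continuousAt_const).abs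
    have n1 : ∀ᶠ s' in 𝓝 s, |τ s' - τ s| < 1 / 2 := by
      refine c1.eventually_lt continuousAt_const ?_
      rw [sub_self, abs_zero]
      norm_num
    have n2 : ∀ᶠ s' in 𝓝 s, |rmp (x s' / 32) * τ s' - rmp (x s / 32) * τ s| < 1 / 2 := by
      refine c2'.eventually_lt continuousAt_const ?_
      rw [sub_self, abs_zero]
      norm_num
    filter_upwards [n1, n2] with s' m1 m2
    have hl : (Q.loc P v).lam = Q.lam v := rfl
    constructor
    · rw [Tau_flat (Q.loc P v) (hgf s) (hgf s') (by rw [hgθ, hgθ]) (hgt s) (hgt s') m1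
        (by rw [hgu, hgu]; exact m2), hgu, hgu, hl, ← hBd, ← hBd, hτB, hτB, sub_self]
    · rw [Tau_flat (Q.loc P v) (hgf s') (hgf s) (by rw [hgθ, hgθ]) (hgt s') (hgt s)
        (by rw [abs_sub_comm]; exact m1) (by rw [hgu, hgu, abs_sub_comm]; exact m2), hgu, hgu, hl,
        ← hBd, ← hBd, hτB, hτB, sub_self]
  obtain ⟨G, hG⟩ : ∃ G : unitInterval → M1 P, ∀ s, (G s).1 = nu P v (g s) :=
    ⟨fun s => ⟨nu P v (g s), Tau_mem v (hgY s)⟩, fun _ => rfl⟩
  have hGc : Continuous G := by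
    rw [continuous_induced_rng]
    exact ((nu_emb P v).continuous.comp hgc).congr fun s => (hG s).symm
  have key : F.SameLeaf (G 0) (G 1) := by
    refine F.sameLeaf_of G hGc fun s => ?_
    obtain ⟨c, hc, hs⟩ := F.cover (G s)
    refine ⟨c, hc, hs, ?_⟩
    obtain ⟨V, hV, hVc⟩ := F_inn hF hc hs v (hgY s) (hG s).symm
    filter_upwards [(hgc.continuousAt (x := s)) hV, hD s] with s' hs' hD'
    have hsV : g s ∈ V := mem_of_mem_nhds hV
    have h3 := hVc _ hs' _ hsV _ _ (hG s') (hG s)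
    have h4 := hVc _ hsV _ hs' _ _ (hG s) (hG s')
    rw [hD'.2] at h3
    rw [hD'.1] at h4
    have h5 : ¬ (c (G s')).2 < (c (G s)).2 := fun h6 => lt_irrefl _ (h3.1 h6)
    have h6 : ¬ (c (G s)).2 < (c (G s')).2 := fun h6 => lt_irrefl _ (h4.1 h6)
    exact le_antisymm (not_lt.1 h6) (not_lt.1 h5)
  have hG0 : G 0 = y := by
    refine Subtype.ext ?_
    rw [hG, hg, ← h]
    have h3 : x 0 = u₀ := by
      rw [hx]
      change u₀ + (0 : ℝ) * _ = u₀
      ring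
    have h4 : τ 0 = τ₀ := by
      have h5 := hτB 0
      rw [h3] at h5
      exact mul_left_cancel₀ (hBp u₀).ne' h5
    rw [h3, h4, hu₀, ← hτ₀, BR.U.coe_yt]
  refine ⟨G 1, g 1, ?_, (hG 1).symm, ?_⟩
  · rw [hG0] at key
    exact key
  · rw [hgu, hx]
    change |u₀ + (1 : ℝ) * (u₁ - u₀)| = 3
    rw [one_mul, add_sub_cancel]
    exact hu1

include hF in
/-- A point of the annulus `|u| ≤ 2` outside of the square can be moved in its leaf to `|u| = 3`: the path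
`θ = const`, `(1 + (lam - 1) rmp (u / 32)) (yt t + 1 / 2) = const`, to the side where `|t|` (the distance from
the time `0`) does not decrease: for `|u| ≥ 1` outwards, `t = const`; for `|u| < 1` to the right if `1 ≤ lam`, to the
left if `lam < 1` (`EE_mid`). -/
theorem push_inn (v : I) {y : M1 P} {z : Y} (hz : z ∈ Yr) (h : nu P v z = y.1) (hx : |z.1.2| ≤ 2)
    (hQ : |z.1.2| = 2 ∨ 1 / 16 ≤ |cl z.2|) :
    ∃ (y' : M1 P) (z' : Y), F.SameLeaf y y' ∧ nu P v z' = y'.1 ∧ |z'.1.2| = 3 := by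
  have h3 : |(3 : ℝ)| = 3 := abs_of_pos (by norm_num)
  have h3' : |(-3 : ℝ)| = 3 := by rw [abs_neg]; exact h3
  have hxx := abs_le.1 hx
  rcases le_or_gt 1 z.1.2 with a | a
  · refine Tau_path hF v h 3 (by linarith) h3 ?_ ?_
    · intro u hu
      rw [uIcc_of_le (by linarith [hxx.2])] at hu
      rw [BR.U.rmp_right (by linarith), BR.U.rmp_right (by linarith [hu.1])]
    · rcases hQ with hQ | hQ
      · left
        intro u hu
        rw [uIcc_of_le (by linarith [hxx.2])] at hu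
        rw [abs_of_pos (by linarith)] at hQ
        rw [abs_of_pos (by linarith [hu.1])]
        linarith [hu.1]
      · exact Or.inr hQ
  rcases le_or_gt z.1.2 (-1) with b | b
  · refine Tau_path hF v h (-3) (by linarith) h3' ?_ ?_
    · intro u hu
      rw [uIcc_of_ge (by linarith [hxx.1])] at hu
      rw [BR.U.rmp_left (by linarith), BR.U.rmp_left (by linarith [hu.2])]
    · rcases hQ with hQ | hQ
      · left
        intro u hu
        rw [uIcc_of_ge (by linarith [hxx.1])] at hu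
        rw [abs_of_neg (by linarith)] at hQ
        rw [abs_of_neg (by linarith [hu.2])]
        linarith [hu.2]
      · exact Or.inr hQ
  have hab : |z.1.2| < 1 := abs_lt.2 ⟨b, a⟩
  have hQ' : 1 / 16 ≤ |cl z.2| := by
    rcases hQ with hQ | hQ
    · linarith
    · exact hQ
  rcases le_total 1 (Q.lam v) with hl | hl
  · refine Tau_path hF v h 3 (by linarith) h3 ?_ (Or.inr hQ')
    intro u hu
    rw [uIcc_of_le (by linarith)] at hu
    have h4 : rmp (z.1.2 / 32) ≤ rmp (u / 32) := BR.U.rmp_mono (by linarith [hu.1])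
    nlinarith [mul_nonneg (sub_nonneg.2 hl) (sub_nonneg.2 h4)]
  · refine Tau_path hF v h (-3) (by linarith) h3' ?_ (Or.inr hQ')
    intro u hu
    rw [uIcc_of_ge (by linarith)] at hu
    have h4 : rmp (u / 32) ≤ rmp (z.1.2 / 32) := BR.U.rmp_mono (by linarith [hu.2])
    nlinarith [mul_nonneg (sub_nonneg.2 hl) (sub_nonneg.2 h4)]

include hF in
/-- a point over the outer region -/
theorem Tau_out [Finite J] {y y' : M1 P} (h : y'.1 ∈ Xo P) (hs : F.SameLeaf y y') :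
    ∃ l : ℝ → M1 P, ∃ s : ℝ, F.ClosedTransversal l ∧ F.SameLeaf y (l s) := by
  have hx : ∀ t : Ci, (y'.1.1, t) ∈ Xo P := fun t => h
  have hm : ∀ t : Ci, ∀ v, (y'.1.1, t) ∉ nbv P v '' solidTorus := by
    rintro t v ⟨w, hw, hwz⟩
    have h1 : P.ν v (w.1, w.2.1) = y'.1.1 := congrArg Prod.fst hwz
    have h2 : 2 < |w.2.1| := h v (w.1, w.2.1) h1
    have h3 : w.2.1 ^ 2 + (w.2.2 + 4) ^ 2 ≤ 1 := hw
    have h4 : (2 : ℝ) ^ 2 < |w.2.1| ^ 2 := by gcongr
    rw [sq_abs] at h4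
    nlinarith [sq_nonneg (w.2.2 + 4)]
  refine ⟨_, cl y'.1.2, circ_out hF y'.1.1 hx hm, ?_⟩
  have h5 : (⟨(y'.1.1, ((cl y'.1.2 : ℝ) : Ci)), hm _⟩ : M1 P) = y' := by
    apply Subtype.ext
    show ((y'.1.1, ((cl y'.1.2 : ℝ) : Ci)) : S × Ci) = y'.1
    rw [BR.U.coe_cl]
  show F.SameLeaf y ⟨(y'.1.1, ((cl y'.1.2 : ℝ) : Ci)), hm _⟩
  rw [h5]
  exact hs

include hF in
theorem taut_M1 [Finite J] : F.Taut := by
  intro y
  by_cases h1 : y.1 ∈ Xo P
  · exact Tau_out hF h1 (Foliation.SameLeaf.refl F y)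
  have h2 : ∃ v z, P.ν v z = y.1.1 ∧ |z.2| ≤ 2 := by
    by_contra h3
    push Not at h3
    exact h1 h3
  obtain ⟨v, z₀, hz₀, hu⟩ := h2
  obtain ⟨z, hz1, hz2⟩ : ∃ z : Y, z.1 = z₀ ∧ z.2 = y.1.2 := ⟨(z₀, y.1.2), rfl, rfl⟩
  have hzy : nu P v z = y.1 := by
    show (P.ν v z.1, z.2) = y.1
    rw [hz1, hz2, hz₀]
  have hu' : |z.1.2| ≤ 2 := by rw [hz1]; exact hu
  have hz : z ∈ Yr := by
    refine ⟨by linarith, ?_⟩
    by_contra h3
    push Not at h3
    apply y.2 v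
    refine ⟨(z.1.1, (z.1.2, 32 * cl z.2 - 4)), ?_, ?_⟩
    · show z.1.2 ^ 2 + (32 * cl z.2 - 4 + 4) ^ 2 ≤ 1
      have h4 : z.1.2 ^ 2 + (32 * cl z.2 - 4 + 4) ^ 2 =
          1024 * ((z.1.2 / 32) ^ 2 + cl z.2 ^ 2) := by ring
      rw [h4]
      linarith
    · rw [← hzy]
      show (P.ν v (z.1.1, z.1.2), (((32 * cl z.2 - 4 + 4) / 32 : ℝ) : Ci)) = (P.ν v z.1, z.2)
      have h4 : (32 * cl z.2 - 4 + 4) / 32 = cl z.2 := by ring
      rw [h4, BR.U.coe_cl]
  by_cases h3 : |z.1.2| < 2 ∧ |cl z.2| < 1 / 16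
  · obtain ⟨e, he, heq⟩ : ∃ e : ℝ, (e = 1 ∨ e = -1) ∧ 0 < e * Q.q v := by
      rcases lt_or_gt_of_ne (Q.q_ne v) with h4 | h4
      · exact ⟨-1, Or.inr rfl, by linarith⟩
      · exact ⟨1, Or.inl rfl, by linarith⟩
    have hm : ∀ θ : Ci, ∀ v', nu P v ((θ, z.1.2), z.2) ∉ nbv P v' '' solidTorus :=
      fun θ v' => Tau_mem v (z := ((θ, z.1.2), z.2)) hz v'
    refine ⟨_, e * cl z.1.1, circ_inn hF v hz h3.1 h3.2 e he heq hm, ?_⟩
    have hee : e * (e * cl z.1.1) = cl z.1.1 := by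
      rcases he with rfl | rfl <;> ring
    have h5 : (⟨nu P v ((((e * (e * cl z.1.1) : ℝ) : Ci), z.1.2), z.2), hm _⟩ : M1 P) = y := by
      apply Subtype.ext
      show nu P v ((((e * (e * cl z.1.1) : ℝ) : Ci), z.1.2), z.2) = y.1
      rw [hee, BR.U.coe_cl]
      exact hzy
    show F.SameLeaf y ⟨nu P v ((((e * (e * cl z.1.1) : ℝ) : Ci), z.1.2), z.2), hm _⟩
    rw [h5]
    exact Foliation.SameLeaf.refl F y
  · have h4 : |z.1.2| = 2 ∨ 1 / 16 ≤ |cl z.2| := by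
      by_contra h5
      push Not at h5
      exact h3 ⟨lt_of_le_of_ne hu' h5.1, h5.2⟩
    obtain ⟨y', z', hs, hy', h6⟩ := push_inn hF v hz hzy hu' h4
    refine Tau_out hF ?_ hs
    rw [← hy']
    intro v' w hw
    have h7 : P.ν v' w = P.ν v z'.1 := hw
    obtain rfl := P.disj _ _ _ _ h7
    have h8 := (P.emb _).injective h7
    rw [h8, h6]
    norm_num

end Pool.Agent.H.MP_1611f1_gt.TP
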