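import Pool.Agent.H.MP_1611f1_gt.TP.EndR
import Pool.Agent.H.MP_1611f1_gt.TP.Tau
import Pool.Agent.H.MP_1611f1_gt.TP.LeafB
import Pool.Agent.H.MP_1611f1_gt.LG.Main

/-!
The manifold with all curves removed.
-/

namespace Pool.Agent.H.MP_1611f1_gt.TP

open Topology Set Filter
open Pool.Agent.H.MP_1611f1_gt.BR.U (Ci cl yt hlf psi cu rmp ang)
open Pool.Agent.H.MP_1611f1_gt.LG (Cylinder solidTorus LeafCurve Drilled)
open Pool.Agent.H.MP_1611f1_gt.G (Ended Linear Detected)

/-- `M` is obtained from `S × S¹` by removing the curves `v ∈ I` (ends `inr (inl v)`) and the curves `w ∈ Λ` (ends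
`inr (inr w)`). -/
structure Rem {S : Type*} [TopologicalSpace S] {J I Λ : Type*} (P : Two S J I) (W : Λ → WC P) {M : Type*}
    [TopologicalSpace M] (T : Ended M (J ⊕ (I ⊕ Λ))) where
  p : M → S × Ci
  emb : IsOpenEmbedding p
  range_iff : ∀ x, x ∈ range p ↔ (∀ v, x ∉ nbv P v '' solidTorus) ∧ ∀ w, x ∉ (W w).nb '' solidTorus
  old : ∀ j (θ : Ci) r (t : Ci), p (T.tor (Sum.inl j) (θ, r, t)) = (P.E.collar j (θ, r), t)
  res : ∀ v (θ : Ci) (r : Ioo (1 : ℝ) 2) (t : ℝ), p (T.tor (Sum.inr (Sum.inl v)) (θ, r, (t : Ci))) =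
    nbv P v (θ, ((r : ℝ) * Real.cos (2 * Real.pi * t), -4 + (r : ℝ) * Real.sin (2 * Real.pi * t)))
  new : ∀ w (θ : Ci) (r : Ioo (1 : ℝ) 2) (t : ℝ), p (T.tor (Sum.inr (Sum.inr w)) (θ, r, (t : Ci))) =
    (W w).nb (θ, ((r : ℝ) * Real.cos (2 * Real.pi * t), -4 + (r : ℝ) * Real.sin (2 * Real.pi * t)))

/-- **The foliations.** (`exists_F`, `taut_M1`, `lin_old`, `lin_res`, `leaf_curve` give a foliation of `M1` with
the ends `J ⊕ I`; then `LG.leaf_detected`, with the index set `J ⊕ (I ⊕ Λ)`, `old` = not `inr (inr w)`.) -/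
theorem two_detected {S : Type*} [TopologicalSpace S] [T2Space S] {J I Λ : Type*} [Finite J] [Fintype I] [Finite Λ]
    {P : Two S J I} {W : Λ → WC P} (hW : ∀ w w' z z', (W w).μ z = (W w').μ z' → w = w')
    {M : Type*} [TopologicalSpace M] {T : Ended M (J ⊕ (I ⊕ Λ))} (R : Rem P W T) (Q : Par I)
    (hL : ∀ w, ∑ v, (W w).num v * Real.log (Q.lam v) ≠ 0) (x y : J ⊕ (I ⊕ Λ) → ℝ)
    (hJ : ∀ j, 0 < y (Sum.inl j) ∧ x (Sum.inl j) = Q.s * y (Sum.inl j))
    (hI : ∀ v, ∃ c : ℝ, 0 < c ∧ c * x (Sum.inr (Sum.inl v)) = Q.q v ∧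
      c * y (Sum.inr (Sum.inl v)) = Q.lam v - 1)
    (hΛ : ∀ w, x (Sum.inr (Sum.inr w)) ≠ 0) : Detected T x y := by
  classical
  obtain ⟨F, hF⟩ := exists_F P Q
  have hFt : F.Taut := taut_M1 hF
  -- the old ends are those which are not ends at curves of the other class
  let old : J ⊕ (I ⊕ Λ) → Prop := fun k => ∀ w, k ≠ Sum.inr (Sum.inr w)
  have hsel0 : ∀ k : {j // ¬ old j}, ∃ w, k.1 = Sum.inr (Sum.inr w) := by
    intro k
    by_contra h
    exact k.2 fun w hw => h ⟨w, hw⟩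
  choose sel hsel using hsel0
  have hinj : ∀ j k, sel j = sel k → j = k := by
    intro j k h
    apply Subtype.ext
    rw [hsel j, hsel k, h]
  have hfin : Finite {j // ¬ old j} := Finite.of_injective sel fun j k h => hinj j k h
  have hnot : ∀ w, ¬ old (Sum.inr (Sum.inr w)) := fun w h => h w rfl
  have hsel' : ∀ w, sel ⟨Sum.inr (Sum.inr w), hnot w⟩ = w := by
    intro w
    have h : (Sum.inr (Sum.inr w) : J ⊕ (I ⊕ Λ)) =
        Sum.inr (Sum.inr (sel ⟨Sum.inr (Sum.inr w), hnot w⟩)) := hsel ⟨Sum.inr (Sum.inr w), hnot w⟩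
    exact (Sum.inr.inj (Sum.inr.inj h)).symm
  -- the projection to `M1`
  have hmem : ∀ m : M, ∀ v, R.p m ∉ nbv P v '' solidTorus := fun m =>
    ((R.range_iff _).1 (mem_range_self m)).1
  let p1 : M → M1 P := fun m => ⟨R.p m, hmem m⟩
  have hp1 : IsOpenEmbedding p1 := IsOpenEmbedding.of_comp _ (M1_emb P) R.emb
  let T₀ : Ended (M1 P) {j // old j} :=
    { tor := fun j w => p1 (T.tor j.1 w)
      emb := fun j => hp1.comp (T.emb j.1)
      disj := fun i j z w h => Subtype.ext (T.disj _ _ _ _ (hp1.injective h)) }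
  have hlin : Linear T₀ F (fun j => x j) (fun j => y j) := by
    rintro ⟨k, hk⟩ z hz c hc hs
    rcases k with j | v | w
    · have h := lin_old hF T₀ ⟨Sum.inl j, hk⟩ j (fun w => R.old j _ _ _) z hz c hc hs
      refine (h.mul_left (hJ j).1).congr (Eventually.of_forall fun w => rfl)
        (Eventually.of_forall fun w => ?_)
      show x (Sum.inl j) * w.1 + y (Sum.inl j) * w.2.2 = y (Sum.inl j) * (Q.s * w.1 + w.2.2)
      rw [(hJ j).2]
      ring
    · obtain ⟨c', hc', h1, h2⟩ := hI v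
      have h := lin_res hF T₀ ⟨Sum.inr (Sum.inl v), hk⟩ v
        (fun w => (R.res v _ _ _).trans (nbv_plr v w)) z hz c hc hs
      refine (h.mul_left (inv_pos.2 hc')).congr (Eventually.of_forall fun w => rfl)
        (Eventually.of_forall fun w => ?_)
      show x (Sum.inr (Sum.inl v)) * w.1 + y (Sum.inr (Sum.inl v)) * w.2.2 =
        c'⁻¹ * (Q.q v * w.1 + (Q.lam v - 1) * w.2.2)
      rw [← h1, ← h2]
      field_simp
    · exact absurd rfl (hk w)
  -- the neighbourhoods of the new curves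
  have hdisj : ∀ (j k : {j // ¬ old j}) z w, (W (sel j)).nb1 z = (W (sel k)).nb1 w → j = k := by
    intro j k z w h
    have h1 : (W (sel j)).nb z = (W (sel k)).nb w := congrArg Subtype.val h
    have h2 : (W (sel j)).μ (z.1, z.2.1) = (W (sel k)).μ (w.1, w.2.1) := congrArg Prod.fst h1
    exact hinj j k (hW _ _ _ _ h2)
  have haway : ∀ (j : {j // ¬ old j}) z (k : {j // old j}) w, (W (sel j)).nb1 z ≠ T₀.tor k w := by
    rintro j z ⟨k, hk⟩ ⟨θ, r, t⟩ h
    obtain ⟨t, rfl⟩ := QuotientAddGroup.mk_surjective t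
    have h1 : (W (sel j)).nb z = R.p (T.tor k (θ, r, (t : Ci))) := congrArg Subtype.val h
    rcases k with j' | v | w
    · rw [R.old] at h1
      exact (W (sel j)).out _ _ _ (congrArg Prod.fst h1)
    · rw [R.res] at h1
      have h2 : ((1 / 2 + LS.tim z.2.2 / 4 : ℝ) : Ci) =
          ((((-4 + (r : ℝ) * Real.sin (2 * Real.pi * t)) + 4) / 32 : ℝ) : Ci) :=
        congrArg Prod.snd h1
      have h3 : (((1 / 2 + LS.tim z.2.2 / 4) -
          ((-4 + (r : ℝ) * Real.sin (2 * Real.pi * t)) + 4) / 32 : ℝ) : Ci) = 0 := by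
        rw [AddCircle.coe_sub, h2, sub_self]
      obtain ⟨n, hn⟩ := (AddCircle.coe_eq_zero_iff (1 : ℝ)).1 h3
      have h4 := LS.tim_mem z.2.2
      have h5 := Real.neg_one_le_sin (2 * Real.pi * t)
      have h6 := Real.sin_le_one (2 * Real.pi * t)
      have h7 := r.2.1
      have h8 := r.2.2
      have h9 : -2 ≤ (r : ℝ) * Real.sin (2 * Real.pi * t) := by nlinarith
      have h10 : (r : ℝ) * Real.sin (2 * Real.pi * t) ≤ 2 := by nlinarith
      rw [zsmul_eq_mul, mul_one] at hn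
      have h11 : (0 : ℝ) < n := by rw [hn]; linarith [h4.1]
      have h12 : (n : ℝ) < 1 := by rw [hn]; linarith [h4.2]
      have h13 : (0 : ℤ) < n := by exact_mod_cast h11
      have h14 : n < (1 : ℤ) := by exact_mod_cast h12
      omega
    · exact hk w rfl
  let D : Drilled T₀ (fun j => (W (sel j)).nb1) T :=
    { p := p1
      emb := hp1
      range_iff := fun m => by
        constructor
        · rintro ⟨m, rfl⟩ k ⟨z, hz, h⟩
          exact ((R.range_iff _).1 (mem_range_self m)).2 (sel k) ⟨z, hz, congrArg Subtype.val h⟩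
        · intro h
          obtain ⟨m', hm'⟩ := (R.range_iff m.1).2 ⟨m.2, fun w => by
            rintro ⟨z, hz, h'⟩
            apply h ⟨Sum.inr (Sum.inr w), hnot w⟩
            rw [hsel']
            exact ⟨z, hz, Subtype.ext h'⟩⟩
          exact ⟨m', Subtype.ext hm'⟩
      old_tor := fun _ _ => rfl
      new_tor := fun k θ r t => by
        apply Subtype.ext
        show R.p (T.tor k.1 (θ, r, (t : Ci))) = (W (sel k)).nb _
        rw [hsel k]
        exact R.new _ _ _ _ }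
  exact LG.leaf_detected hFt hlin
    (fun j => leaf_curve (W (sel j)) hF (hL _) (by rw [hsel j]; exact hΛ _)) hdisj haway D

end Pool.Agent.H.MP_1611f1_gt.TP
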