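import Pool.Agent.H.MP_1611f1_gt.LG.Defs

/-!
Products `S × S¹` minus a forest of curves in fibres: the pieces for plumbings of annuli along trees.
-/

namespace Pool.Agent.H.MP_1611f1_gt.TP

open Topology Set Filter
open Pool.Agent.H.MP_1611f1_gt.G (Ended MTorus Detected)
open Pool.Agent.H.MP_1611f1_gt.LG (Drilled)

/-- the function which increases from `0` (for `u ≤ -1`) to `1` (for `1 ≤ u`) -/
noncomputable def rise (u : ℝ) : ℝ := max 0 (min 1 ((u + 1) / 2))

/-- A forest of curves (see `TR.Forest`: a surface with one end, cut by strips `e ∈ K` with one face, and one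
annulus `ν e` for every strip, which crosses only this strip), with some more data:
* the curves are in two classes (`cls`); annuli of the same class do not meet;
* the curve `e` crosses its strip once, in the positive direction (`f e` is monotone of degree `1`);
* `half e` is the part of the strip `e` on the side `u > 0` of its curve. It is crossed once, in the negative
  direction, when one goes around the end, and the other part is crossed once in the positive direction (so the
  coordinates `(θ, u)` of the annulus and `(θ, r)` of the collar define the same orientation of `S`);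
* the annuli cross each other in product squares: `cr e e' θ` is, modulo `1`, the value of `rise u` at the point
  `ν e' (θ, u')`, if this is the point `ν e (θ', u)`, and `0` outside of the annulus `e`; so
  `num e e'` is the algebraic number of the crossings of the curve `e'` through the annulus `e`;
* every curve crosses some curve of the other class, algebraically not `0` times. -/
structure Plumb (S : Type*) [TopologicalSpace S] (J K : Type*) extends TR.Forest S J K where
  deg_one : ∀ e, deg e = 1
  cls : K → Bool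
  meet : ∀ e e' z z', e ≠ e' → ν e z = ν e' z' → cls e ≠ cls e'
  mono : ∀ e, Monotone (f e)
  half : K → S → AddCircle (1 : ℝ)
  half_or : ∀ e x, half e x = 0 ∨ half e x = A.kap e x
  half_cont : ∀ e x, (∀ θ, x ≠ ν e (θ, 0)) → ContinuousAt (half e) x
  half_pos : ∀ e θ u, 0 < u → half e (ν e (θ, u)) = A.kap e (ν e (θ, u))
  half_neg : ∀ e θ u, u < 0 → half e (ν e (θ, u)) = 0
  half_end : ∀ e j, ∃ φ : ℝ → ℝ, Continuous φ ∧ (∀ θ, φ (θ + 1) = φ θ - 1) ∧
    ∀ (θ : ℝ) r, half e (E.collar j ((θ : AddCircle (1 : ℝ)), r)) = (φ θ : AddCircle (1 : ℝ))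
  rest_end : ∀ e j, ∃ φ : ℝ → ℝ, Continuous φ ∧ (∀ θ, φ (θ + 1) = φ θ + 1) ∧
    ∀ (θ : ℝ) r, A.kap e (E.collar j ((θ : AddCircle (1 : ℝ)), r)) -
      half e (E.collar j ((θ : AddCircle (1 : ℝ)), r)) = (φ θ : AddCircle (1 : ℝ))
  cr : K → K → ℝ → ℝ
  cr_cont : ∀ e e', Continuous (cr e e')
  num : K → K → ℤ
  cr_add : ∀ e e' θ, cr e e' (θ + 1) = cr e e' θ + num e e'
  cr_in : ∀ e e' (θ : ℝ) u z, e ≠ e' → ν e' ((θ : AddCircle (1 : ℝ)), u) = ν e z →
    ((rise z.2 : ℝ) : AddCircle (1 : ℝ)) = (cr e e' θ : AddCircle (1 : ℝ))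
  cr_out : ∀ e e' (θ : ℝ) u, e ≠ e' → (∀ z, ν e' ((θ : AddCircle (1 : ℝ)), u) ≠ ν e z) →
    (cr e e' θ : AddCircle (1 : ℝ)) = 0
  adj : ∀ e', ∃ e, cls e ≠ cls e' ∧ num e e' ≠ 0

/-- The pieces of the main theorem, with the admissible covectors `(x j, y j)` at their ends `j`. In the first two
cases the piece is the product `M₀ = S × S¹` minus the curves of a forest `P` in fibres; `S` has one end, and there
are `N ≥ 2` strips. The curve `k` is the core of the annulus `P.ν k` at an arbitrary time `t k`; the removed solid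
torus is in the times between `t k - ε` and `t k + ε`, and curves over annuli which meet are at times whose
distance is larger than `4 ε`. The covectors at the new ends satisfy `x k ≠ 0`.
* `tree`: the covector at the end `j` of `M₀` satisfies `|x j| < (N - 1) |y j|`.
* `plumb` (for the forests of `Plumb`): either `y k ≠ 0` at all new ends, and the products `x j * y j` and
  `x k * y k` have the same sign for at least one new end `k`; or `y j ≠ 0` and there is a new end `k` with
  `0 < |y k| < |x k|`.
* `fol`: a manifold with a taut foliation which is given by `x j * θ + y j * t = const` near its ends. -/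
inductive Good {M : Type} [TopologicalSpace M] {J : Type} (T : Ended M J) (x y : J → ℝ) : Prop
  | tree {S : Type} [TopologicalSpace S] [ConnectedSpace S] (old : J → Prop)
      [Unique {j // old j}] (hN : 2 ≤ Nat.card {j // ¬ old j})
      (P : TR.Forest S {j // old j} {j // ¬ old j})
      {M₀ : Type} [TopologicalSpace M₀] [T2Space M₀] (T₀ : Ended M₀ {j // old j})
      (Mt : MTorus P.E (Homeomorph.refl S) T₀) (t : {j // ¬ old j} → ℝ) (ε : ℝ) (hε : 0 < ε)
      (hε1 : 4 * ε < 1)
      (sep : ∀ e f, e ≠ f → (∃ z w, P.ν e z = P.ν f w) → ∀ m : ℤ, 4 * ε < |t e - t f + m|)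
      (D : Drilled T₀ (fun k z => Mt.p (P.ν k (z.1, z.2.1), t k + ε * (z.2.2 + 4))) T)
      (hold : ∀ j, old j → |x j| < (Nat.card {j // ¬ old j} - 1) * |y j|)
      (hnew : ∀ k, ¬ old k → x k ≠ 0) : Good T x y
  | plumb {S : Type} [TopologicalSpace S] [ConnectedSpace S] (old : J → Prop)
      [Unique {j // old j}] (hN : 2 ≤ Nat.card {j // ¬ old j})
      (P : Plumb S {j // old j} {j // ¬ old j})
      {M₀ : Type} [TopologicalSpace M₀] [T2Space M₀] (T₀ : Ended M₀ {j // old j})
      (Mt : MTorus P.E (Homeomorph.refl S) T₀) (t : {j // ¬ old j} → ℝ) (ε : ℝ) (hε : 0 < ε)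
      (hε1 : 4 * ε < 1)
      (sep : ∀ e f, e ≠ f → (∃ z w, P.ν e z = P.ν f w) → ∀ m : ℤ, 4 * ε < |t e - t f + m|)
      (D : Drilled T₀ (fun k z => Mt.p (P.ν k (z.1, z.2.1), t k + ε * (z.2.2 + 4))) T)
      (hnew : ∀ k, ¬ old k → x k ≠ 0)
      (h : ((∀ k, ¬ old k → y k ≠ 0) ∧ ∃ j k, old j ∧ ¬ old k ∧ 0 < x j * y j * (x k * y k)) ∨
        ((∀ j, old j → y j ≠ 0) ∧ ∃ k, ¬ old k ∧ y k ≠ 0 ∧ |y k| < |x k|)) : Good T x y
  | fol [T2Space M] (h : Detected T x y) : Good T x y

end Pool.Agent.H.MP_1611f1_gt.TP
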