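import Pool.Agent.H.MP_1611f1_gt.BR.NNear
import Pool.Agent.H.MP_1611f1_gt.LS.LvB
import Pool.Agent.H.MP_1611f1_gt.TP.Defs

/-!
Definitions for the foliations of `S × S¹` minus curves `v ∈ I` in the fibre at the time `0`.

`X = S × (ℝ/ℤ)`. The annulus `ν v` has the coordinates `(θ, u)`; the tube around the curve `v` is
`u ^ 2 + (32 t) ^ 2 ≤ 1`.
-/

namespace Pool.Agent.H.MP_1611f1_gt.TP

open Topology Set Filter
open Pool.Agent.H.MP_1611f1_gt.BR.U (Ci cl yt hlf psi cu rmp ang)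
open Pool.Agent.H.MP_1611f1_gt.LG (Cylinder solidTorus)

/-! ### The local model -/

/-- the data of one curve: the coefficient `q` of the strip, the factor `lam`, the collapse map `f`
of the strip along the curve -/
structure Loc where
  q : ℝ
  lam : ℝ
  f : ℝ → ℝ
  q_ne : q ≠ 0
  lam_pos : 0 < lam
  f_cont : Continuous f
  mono : Monotone f
  f_add : ∀ θ, f (θ + 1) = f θ + 1

/-- the coordinates `((θ, u), t)` near a curve -/
abbrev Y := (Ci × ℝ) × Ci

/-- `f θ - θ`, on the circle -/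
noncomputable def Loc.Fp (L : Loc) (θ : Ci) : ℝ := L.f (cl θ) - cl θ

noncomputable def ex (x : ℝ) : ℝ := max 0 (1 / 256 - x ^ 2)

/-- a cut-off: `0` if `x ^ 2 + y ^ 2 ≤ 1 / 576`, less than `1` exactly for `|x| < 1/16`,
`|y| < 1/16`; it is quadratically flat at the boundary of this square -/
noncomputable def c2 (x y : ℝ) : ℝ := max 0 (1 - (2304 / 5) ^ 4 * (ex x * ex y) ^ 2)

/-- the exact term -/
noncomputable def Loc.g (L : Loc) (z : Y) : ℝ :=
  -(1 - cu (z.1.2 / 32) (cl z.2)) * cl z.2 +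
    c2 (z.1.2 / 32) (cl z.2) * (L.q * L.Fp z.1.1)

/-- the transverse coordinate of `z'` minus the transverse coordinate of `z`, near a curve -/
noncomputable def EE (L : Loc) (z z' : Y) : ℝ :=
  cl (z'.2 - z.2) + L.q * cl (z'.1.1 - z.1.1) +
    (L.lam - 1) * cl (psi (1 / 2) (z'.1.2 / 32) z'.2 - psi (1 / 2) (z.1.2 / 32) z.2) +
    (L.g z' - L.g z)

/-- the region of the local model: outside of the tube `u ^ 2 + (32 t) ^ 2 ≤ 1` -/
def Yr : Set Y := {z | |z.1.2| < 12 ∧ 1 / 1024 < (z.1.2 / 32) ^ 2 + cl z.2 ^ 2}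

/-! ### The surface -/

/-- A surface with one end `j ∈ J`, curves `v ∈ I` (with disjoint annuli `ν v`), and for every `v` a
strip (collapse map `kap v`) which crosses the annulus `ν v` once, and no other one; `half v` is the
part on the side `u > 0`. `φ`, `χ` are lifts of `half v`, `kap v` at the end. -/
structure Two (S : Type*) [TopologicalSpace S] (J I : Type*) where
  E : Surf S J
  kap : I → C(S, Ci)
  half : I → S → Ci
  ν : I → Ci × ℝ → S
  emb : ∀ v, IsOpenEmbedding (ν v)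
  out : ∀ v z j w, ν v z ≠ E.collar j w
  disj : ∀ v v' z z', ν v z = ν v' z' → v = v'
  f : I → ℝ → ℝ
  f_cont : ∀ v, Continuous (f v)
  mono : ∀ v, Monotone (f v)
  f_add : ∀ v θ, f v (θ + 1) = f v θ + 1
  cross : ∀ v (θ u : ℝ), kap v (ν v ((θ : Ci), u)) = (f v θ : Ci)
  other : ∀ v v' z, v' ≠ v → kap v' (ν v z) = 0
  half_or : ∀ v x, half v x = 0 ∨ half v x = kap v x
  half_cont : ∀ v x, (∀ θ, x ≠ ν v (θ, 0)) → ContinuousAt (half v) x
  half_pos : ∀ v θ u, 0 < u → half v (ν v (θ, u)) = kap v (ν v (θ, u))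
  half_neg : ∀ v θ u, u < 0 → half v (ν v (θ, u)) = 0
  φ : I → J → ℝ → ℝ
  φ_cont : ∀ v j, Continuous (φ v j)
  φ_add : ∀ v j θ, φ v j (θ + 1) = φ v j θ - 1
  φ_end : ∀ v j (θ : ℝ) r, half v (E.collar j ((θ : Ci), r)) = (φ v j θ : Ci)
  χ : I → J → ℝ → ℝ
  χ_cont : ∀ v j, Continuous (χ v j)
  χ_add : ∀ v j θ, χ v j (θ + 1) = χ v j θ
  χ_end : ∀ v j (θ : ℝ) r, kap v (E.collar j ((θ : Ci), r)) = (χ v j θ : Ci)

section

/-- the parameters -/
structure Par (I : Type*) where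
  q : I → ℝ
  lam : I → ℝ
  q_ne : ∀ v, q v ≠ 0
  lam_pos : ∀ v, 0 < lam v

variable {S : Type*} [TopologicalSpace S] {J I : Type*} (P : Two S J I)

variable {P} in
/-- the local data of the curve `v` -/
def Par.loc (Q : Par I) (P : Two S J I) (v : I) : Loc where
  q := Q.q v
  lam := Q.lam v
  f := P.f v
  q_ne := Q.q_ne v
  lam_pos := Q.lam_pos v
  f_cont := P.f_cont v
  mono := P.mono v
  f_add := P.f_add v

variable [Fintype I] (Q : Par I)

/-- the slope at the ends `j ∈ J` -/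
noncomputable def Par.s (Q : Par I) : ℝ := ∑ v, Q.q v * (1 - 1 / Q.lam v)

/-- the lift of the transverse function at the end `j`; `BB (θ + 1) = BB θ + s` -/
noncomputable def BB (j : J) (θ : ℝ) : ℝ :=
  ∑ v, (Q.q v * P.χ v j θ + Q.q v * (1 / Q.lam v - 1) * P.φ v j θ)

open Classical in
/-- the correction in the collars -/
noncomputable def GG (x : S) : ℝ :=
  if h : ∃ j z, P.E.collar j z = x then
    (1 - LS.cut (h.choose_spec.choose.2 : ℝ)) *
      (Q.s * cl h.choose_spec.choose.1 - BB P Q h.choose (cl h.choose_spec.choose.1))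
  else 0

/-- the transverse coordinate of `w'` minus the transverse coordinate of `w`, outside -/
noncomputable def DD (w w' : S × Ci) : ℝ :=
  cl (w'.2 - w.2) + ∑ v, (Q.q v * cl (P.kap v w'.1 - P.kap v w.1) +
    Q.q v * (1 / Q.lam v - 1) * cl (P.half v w'.1 - P.half v w.1)) + (GG P Q w'.1 - GG P Q w.1)

/-- the outer region -/
def Xo : Set (S × Ci) := {w | ∀ v z, P.ν v z = w.1 → 2 < |z.2|}

/-- the coordinates near the curve `v` -/
def nu (v : I) (z : Y) : S × Ci := (P.ν v z.1, z.2)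

/-- `g` is a transverse function of the foliation near `y` -/
structure Adp (y : S × Ci) (g : S × Ci → ℝ) : Prop where
  out : y ∈ Xo P → OrdEq y g (DD P Q y)
  inn : ∀ v z, z ∈ Yr → nu P v z = y → OrdEq z (fun w => g (nu P v w)) (EE (Q.loc P v) z)

/-- the region of the foliation -/
def Xd : Set (S × Ci) := {y | y ∈ Xo P ∨ ∃ v z, z ∈ Yr ∧ nu P v z = y}

/-- the charts of the foliation -/
def AdCh : Set (OpenPartialHomeomorph (S × Ci) ((ℝ × ℝ) × ℝ)) :=
  {c | c.source ⊆ Xd P ∧ ∀ y ∈ c.source, Adp P Q y (fun z => (c z).2)}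

/-- the neighbourhood of the curve `v` -/
noncomputable def nbv (v : I) (z : Cylinder) : S × Ci :=
  (P.ν v (z.1, z.2.1), (((z.2.2 + 4) / 32 : ℝ) : Ci))

/-- the complement of the tubes around the curves `v ∈ I` -/
abbrev M1 := {y : S × Ci // ∀ v, y ∉ nbv P v '' solidTorus}

/-- A curve `w` of the other class: `μ` is its annulus; it does not meet the strips `v ∈ I`, and it
crosses the annuli `ν v` in product squares, see `Plumb`. -/
structure WC where
  μ : Ci × ℝ → S
  emb : IsOpenEmbedding μ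
  out : ∀ z j w, μ z ≠ P.E.collar j w
  zero : ∀ v z, P.kap v (μ z) = 0
  cr : I → ℝ → ℝ
  cr_cont : ∀ v, Continuous (cr v)
  num : I → ℤ
  cr_add : ∀ v θ, cr v (θ + 1) = cr v θ + num v
  cr_in : ∀ v (θ : ℝ) u z, μ ((θ : Ci), u) = P.ν v z → ((rise z.2 : ℝ) : Ci) = (cr v θ : Ci)
  cr_out : ∀ v (θ : ℝ) u, (∀ z, μ ((θ : Ci), u) ≠ P.ν v z) → (cr v θ : Ci) = 0

variable {P} in
/-- the neighbourhood of the curve `w`; the leaf is at the time `1/2`, the tube around `3/8` -/
noncomputable def WC.nb (W : WC P) (z : Cylinder) : S × Ci :=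
  (W.μ (z.1, z.2.1), ((1 / 2 + LS.tim z.2.2 / 4 : ℝ) : Ci))

end

end Pool.Agent.H.MP_1611f1_gt.TP
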