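import Pool.Agent.H.MP_1611f1_gt.BR.NCov
import Pool.Agent.H.MP_1611f1_gt.TP.Two

/-!
Charts of `Y` and of `S × S¹` from functions which are monotone in one direction.
-/

namespace Pool.Agent.H.MP_1611f1_gt.TP

open Topology Set Filter
open Pool.Agent.H.MP_1611f1_gt.BR.U (Ci cl yt hlf psi cu rmp ang)
open Pool.Agent.H.MP_1611f1_gt.LG (Cylinder solidTorus)

/-- the chart, for a local homeomorphism `P : S × ℝ → X` which is injective on small boxes -/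
theorem Cht_gen {S X : Type*} [TopologicalSpace S] [TopologicalSpace X]
    (hflat : ∀ x : S, ∃ c : OpenPartialHomeomorph S (ℝ × ℝ), x ∈ c.source)
    {P : S × ℝ → X} (hP : IsLocalHomeomorph P)
    (hinj : ∀ z z' : S × ℝ, |z'.2 - z.2| < 1 → P z = P z' → z = z')
    {g : X → ℝ} {N : Set X} (hN : IsOpen N) {z₀ : S × ℝ} (hz : P z₀ ∈ N)
    (hg : ContinuousOn g N) {δ₀ : ℝ} (hδ : 0 < δ₀)
    (hm : ∀ (x : S) (s s' : ℝ), P (x, s) ∈ N → P (x, s') ∈ N → s < s' → s' < s + δ₀ →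
      g (P (x, s)) < g (P (x, s'))) :
    ∃ c : OpenPartialHomeomorph X ((ℝ × ℝ) × ℝ), P z₀ ∈ c.source ∧ c.source ⊆ N ∧
      ∀ w ∈ c.source, (c w).2 = g w := by
  obtain ⟨ξ, hξ⟩ := hflat z₀.1
  have h1 : P ⁻¹' N ∩ ξ.source ×ˢ univ ∈ 𝓝 z₀ :=
    ((hN.preimage hP.continuous).inter (ξ.open_source.prod isOpen_univ)).mem_nhds
      ⟨hz, hξ, mem_univ _⟩
  obtain ⟨U, V, hU, hxU, hV, hsV, hUV⟩ := mem_nhds_prod_iff'.1 h1
  obtain ⟨ε, hε, hεV⟩ := Metric.isOpen_iff.1 hV z₀.2 hsV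
  have hr0 : 0 < min ε (min (1 / 2) (δ₀ / 2)) := lt_min hε (lt_min (by norm_num) (by linarith))
  obtain ⟨r, hr, hr1, hr2, hr3⟩ : ∃ r : ℝ, 0 < r ∧ r ≤ ε ∧ r ≤ 1 / 2 ∧ r ≤ δ₀ / 2 :=
    ⟨_, hr0, min_le_left _ _, (min_le_right _ _).trans (min_le_left _ _),
      (min_le_right _ _).trans (min_le_right _ _)⟩
  have hbox : ∀ z ∈ U ×ˢ Ioo (z₀.2 - r) (z₀.2 + r), P z ∈ N ∧ z.1 ∈ ξ.source := by
    rintro z ⟨hz1, hz2⟩
    have hz3 : z.2 ∈ V := by
      apply hεV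
      rw [Metric.mem_ball, Real.dist_eq, abs_lt]
      constructor <;> linarith [hz2.1, hz2.2]
    have h2 := hUV (mk_mem_prod hz1 hz3)
    exact ⟨h2.1, h2.2.1⟩
  have hUξ : U ⊆ ξ.source := fun x hx => (hbox (x, z₀.2) ⟨hx, by
    constructor <;> simp only <;> linarith⟩).2
  have hinj' : InjOn P (U ×ˢ Ioo (z₀.2 - r) (z₀.2 + r)) := by
    intro z hz z' hz' hzz
    refine hinj z z' ?_ hzz
    rw [abs_lt]
    constructor <;> linarith [hz.2.1, hz.2.2, hz'.2.1, hz'.2.2]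
  obtain ⟨C, hC1, hC2⟩ := exists_chart hP ξ hU hUξ hinj'
    (fun z => g (P z)) (hg.comp hP.continuous.continuousOn (fun z hz => (hbox z hz).1))
    (fun x hx s hs s' hs' hss => hm x s s' (hbox _ ⟨hx, hs⟩).1 (hbox _ ⟨hx, hs'⟩).1 hss
      (by linarith [hs.1, hs'.2]))
  refine ⟨C, ?_, ?_, ?_⟩
  · rw [hC1]
    exact ⟨z₀, ⟨hxU, by constructor <;> linarith⟩, rfl⟩
  · rw [hC1]
    rintro _ ⟨z, hz, rfl⟩
    exact (hbox z hz).1
  · rw [hC1]
    rintro _ ⟨z, hz, rfl⟩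
    rw [hC2 z hz]

/-- charts of the annulus -/
theorem Cht_flat (x : Ci × ℝ) : ∃ c : OpenPartialHomeomorph (Ci × ℝ) (ℝ × ℝ), x ∈ c.source := by
  obtain ⟨e, he, hfe⟩ := BR.U.NCov_coe_loc (cl x.1)
  refine ⟨e.symm.prod (OpenPartialHomeomorph.refl ℝ), ?_⟩
  refine ⟨?_, mem_univ _⟩
  have h1 := e.map_source he
  rw [← hfe] at h1
  simp only [BR.U.coe_cl] at h1
  exact h1

/-- the homeomorphism `((t, u), s) ↦ ((e s, u), t)` -/
noncomputable def Cht_homeo {e : ℝ} (he : e * e = 1) : (Ci × ℝ) × ℝ ≃ₜ (ℝ × ℝ) × Ci where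
  toFun z := ((e * z.2, z.1.2), z.1.1)
  invFun w := ((w.2, w.1.2), e * w.1.1)
  left_inv z := by
    obtain ⟨⟨t, u⟩, s⟩ := z
    have : e * (e * s) = s := by rw [← mul_assoc, he, one_mul]
    simp only [this]
  right_inv w := by
    obtain ⟨⟨a, u⟩, t⟩ := w
    have : e * (e * a) = a := by rw [← mul_assoc, he, one_mul]
    simp only [this]
  continuous_toFun := by fun_prop
  continuous_invFun := by fun_prop

/-- A chart of `S × S¹` near `y` whose last coordinate is the function `g`, continuous on the open set `N` and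
strictly increasing in the direction of `t`. (`exists_chart` with `S × ℝ → S × S¹`, as `BR.U.chartT`) -/
theorem chart_t {S : Type*} [TopologicalSpace S] (hflat : ∀ x : S, ∃ c : OpenPartialHomeomorph S (ℝ × ℝ), x ∈ c.source)
    {g : S × Ci → ℝ} {N : Set (S × Ci)} (hN : IsOpen N) {y : S × Ci} (hy : y ∈ N) (hg : ContinuousOn g N)
    {δ₀ : ℝ} (hδ : 0 < δ₀)
    (hm : ∀ w ∈ N, ∀ w' ∈ N, ∀ δ : ℝ, 0 < δ → δ < δ₀ → w'.1 = w.1 → w'.2 = w.2 + (δ : Ci) → g w < g w') :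
    ∃ c : OpenPartialHomeomorph (S × Ci) ((ℝ × ℝ) × ℝ), y ∈ c.source ∧ c.source ⊆ N ∧
      ∀ w ∈ c.source, (c w).2 = g w := by
  have hP : IsLocalHomeomorph (Prod.map (id : S → S) (fun x : ℝ => (x : Ci))) :=
    BR.U.NCov_prodMap (Homeomorph.refl S).isLocalHomeomorph BR.U.NCov_coe_loc
  have hy0 : Prod.map (id : S → S) (fun x : ℝ => (x : Ci)) (y.1, cl y.2) = y := by
    simp only [Prod.map, id, BR.U.coe_cl]
  rw [← hy0] at hy ⊢
  refine Cht_gen hflat hP ?_ hN hy hg hδ ?_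
  · rintro ⟨x, s⟩ ⟨x', s'⟩ h1 h
    simp only [Prod.map, id, Prod.mk.injEq] at h h1
    rw [h.1, BR.U.NCov_coe h.2 h1]
  · intro x s s' h h' hs hs'
    refine hm _ h _ h' (s' - s) (by linarith) (by linarith) rfl ?_
    simp only [Prod.map]
    rw [← AddCircle.coe_add]
    congr 1
    ring

/-- the same on `Y` (`chart_t` with the surface `Ci × ℝ`) -/
theorem chartY_t {g : Y → ℝ} {N : Set Y} (hN : IsOpen N) {y : Y} (hy : y ∈ N) (hg : ContinuousOn g N)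
    {δ₀ : ℝ} (hδ : 0 < δ₀)
    (hm : ∀ w ∈ N, ∀ w' ∈ N, ∀ δ : ℝ, 0 < δ → δ < δ₀ → w'.1 = w.1 → w'.2 = w.2 + (δ : Ci) → g w < g w') :
    ∃ c : OpenPartialHomeomorph Y ((ℝ × ℝ) × ℝ), y ∈ c.source ∧ c.source ⊆ N ∧
      ∀ w ∈ c.source, (c w).2 = g w := by
  exact chart_t Cht_flat hN hy hg hδ hm

/-- the same in the direction of `e * θ`, `e = ± 1` -/
theorem chartY_theta {e : ℝ} (he : e = 1 ∨ e = -1) {g : Y → ℝ} {N : Set Y} (hN : IsOpen N) {y : Y} (hy : y ∈ N)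
    (hg : ContinuousOn g N) {δ₀ : ℝ} (hδ : 0 < δ₀)
    (hm : ∀ w ∈ N, ∀ w' ∈ N, ∀ δ : ℝ, 0 < δ → δ < δ₀ → w'.1.2 = w.1.2 → w'.2 = w.2 →
      w'.1.1 = w.1.1 + ((e * δ : ℝ) : Ci) → g w < g w') :
    ∃ c : OpenPartialHomeomorph Y ((ℝ × ℝ) × ℝ), y ∈ c.source ∧ c.source ⊆ N ∧
      ∀ w ∈ c.source, (c w).2 = g w := by
  have hee := BR.U.NCov_sq he
  have hP : IsLocalHomeomorph (Prod.map (Prod.map (fun x : ℝ => (x : Ci)) (id : ℝ → ℝ))
      (id : Ci → Ci) ∘ Cht_homeo hee) :=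
    (BR.U.NCov_prodMap (BR.U.NCov_prodMap BR.U.NCov_coe_loc (Homeomorph.refl ℝ).isLocalHomeomorph)
      (Homeomorph.refl Ci).isLocalHomeomorph).comp (Cht_homeo hee).isLocalHomeomorph
  have hval : ∀ z : (Ci × ℝ) × ℝ, (Prod.map (Prod.map (fun x : ℝ => (x : Ci)) (id : ℝ → ℝ))
      (id : Ci → Ci) ∘ Cht_homeo hee) z = ((((e * z.2 : ℝ) : Ci), z.1.2), z.1.1) := fun z => rfl
  have hy0 : (Prod.map (Prod.map (fun x : ℝ => (x : Ci)) (id : ℝ → ℝ))
      (id : Ci → Ci) ∘ Cht_homeo hee) ((y.2, y.1.2), e * cl y.1.1) = y := by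
    rw [hval]
    simp only
    rw [← mul_assoc, hee, one_mul, BR.U.coe_cl]
  rw [← hy0] at hy ⊢
  refine Cht_gen Cht_flat hP ?_ hN hy hg hδ ?_
  · rintro ⟨⟨t, u⟩, s⟩ ⟨⟨t', u'⟩, s'⟩ h1 h
    rw [hval, hval] at h
    simp only [Prod.mk.injEq] at h h1
    have h4 : e * s = e * s' := by
      apply BR.U.NCov_coe h.1.1
      rw [← mul_sub, abs_mul]
      have : |e| = 1 := by rcases he with rfl | rfl <;> norm_num
      rw [this, one_mul]
      exact h1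
    have h5 : s = s' := by
      have h6 : e ≠ 0 := by rcases he with rfl | rfl <;> norm_num
      exact mul_left_cancel₀ h6 h4
    rw [h.1.2, h.2, h5]
  · intro x s s' h h' hs hs'
    refine hm _ h _ h' (s' - s) (by linarith) (by linarith) ?_ ?_ ?_
    · rw [hval, hval]
    · rw [hval, hval]
    · rw [hval, hval]
      simp only
      rw [← AddCircle.coe_add]
      congr 1
      ring

/-- transfer of a chart by an open embedding -/
theorem chart_push {A B : Type*} [TopologicalSpace A] [TopologicalSpace B] {R : A → B} (hR : IsOpenEmbedding R)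
    (c : OpenPartialHomeomorph A ((ℝ × ℝ) × ℝ)) {a : A} (ha : a ∈ c.source) :
    ∃ c' : OpenPartialHomeomorph B ((ℝ × ℝ) × ℝ), R a ∈ c'.source ∧ c'.source = R '' c.source ∧
      ∀ z ∈ c.source, (c' (R z)).2 = (c z).2 := by
  have hne : Nonempty A := ⟨a⟩
  refine ⟨(hR.toOpenPartialHomeomorph R).symm.trans c, ?_, ?_, ?_⟩
  · rw [OpenPartialHomeomorph.trans_source]
    refine ⟨?_, ?_⟩
    · rw [OpenPartialHomeomorph.symm_source, hR.toOpenPartialHomeomorph_target]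
      exact mem_range_self a
    · rw [mem_preimage, hR.toOpenPartialHomeomorph_left_inv]
      exact ha
  · rw [OpenPartialHomeomorph.trans_source]
    ext b
    rw [OpenPartialHomeomorph.symm_source, hR.toOpenPartialHomeomorph_target]
    constructor
    · rintro ⟨⟨a', rfl⟩, h2⟩
      rw [mem_preimage, hR.toOpenPartialHomeomorph_left_inv] at h2
      exact ⟨a', h2, rfl⟩
    · rintro ⟨a', h2, rfl⟩
      refine ⟨mem_range_self a', ?_⟩
      rw [mem_preimage, hR.toOpenPartialHomeomorph_left_inv]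
      exact h2
  · intro z hz
    rw [OpenPartialHomeomorph.coe_trans, Function.comp_apply, hR.toOpenPartialHomeomorph_left_inv]

end Pool.Agent.H.MP_1611f1_gt.TP
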