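import Pool.Agent.H.MP_1611f1_gt.TP.FolC

/-!
The foliation is linear near the ends of `M1`.
-/

namespace Pool.Agent.H.MP_1611f1_gt.TP

open Topology Set Filter
open Pool.Agent.H.MP_1611f1_gt.BR.U (Ci cl yt hlf psi cu rmp ang)
open Pool.Agent.H.MP_1611f1_gt.LG (Cylinder solidTorus)
open Pool.Agent.H.MP_1611f1_gt.G (Ended Linear)

variable {S : Type*} [TopologicalSpace S] {J I : Type*} {P : Two S J I} [Fintype I] {Q : Par I}
  [T2Space S] {F : Foliation (M1 P)}
  (hF : F.charts = LS.pullCharts (Subtype.val : M1 P → S × Ci) (pre P Q))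

/-- the neighbourhood `nbv` in the coordinates `Y` -/
theorem nbv_plr (v : I) (z : LS.Plr) : nbv P v ((z.1 : Ci), ((z.2.1 : ℝ) * Real.cos (2 * Real.pi * z.2.2),
    -4 + (z.2.1 : ℝ) * Real.sin (2 * Real.pi * z.2.2))) = nu P v (plr z) := by
  unfold nbv nu plr
  have h : (-4 + (z.2.1 : ℝ) * Real.sin (2 * Real.pi * z.2.2) + 4) / 32 =
      (z.2.1 : ℝ) * Real.sin (2 * Real.pi * z.2.2) / 32 := by ring
  simp only [h]

theorem EndR_cov_cont {M : Type*} [TopologicalSpace M] {K : Type*} (T : Ended M K) (k : K) :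
    Continuous (T.cov k) := by
  refine (T.emb k).continuous.comp ?_
  exact ((AddCircle.continuous_mk' (1 : ℝ)).comp continuous_fst).prodMk
    ((continuous_fst.comp continuous_snd).prodMk
      ((AddCircle.continuous_mk' (1 : ℝ)).comp (continuous_snd.comp continuous_snd)))

theorem EndR_plr_cont : Continuous plr := by
  unfold plr
  have h1 : Continuous fun z : LS.Plr => (z.2.1 : ℝ) :=
    continuous_subtype_val.comp (continuous_fst.comp continuous_snd)
  have h2 : Continuous fun z : LS.Plr => 2 * Real.pi * z.2.2 :=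
    continuous_const.mul (continuous_snd.comp continuous_snd)
  have h3 : Continuous fun z : LS.Plr =>
      (z.2.1 : ℝ) * Real.cos (2 * Real.pi * z.2.2) := h1.mul (Real.continuous_cos.comp h2)
  have h4 : Continuous fun z : LS.Plr =>
      (z.2.1 : ℝ) * Real.sin (2 * Real.pi * z.2.2) / 32 :=
    (h1.mul (Real.continuous_sin.comp h2)).div_const 32
  exact (((AddCircle.continuous_mk' (1 : ℝ)).comp continuous_fst).prodMk h3).prodMk
    ((AddCircle.continuous_mk' (1 : ℝ)).comp h4)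

include hF in
/-- **the ends `j ∈ J`**: the slope is `s` (`F_out`, `DD_collar`, `collar_out`) -/
theorem lin_old [Finite J] {K : Type*} (T : Ended (M1 P) K) (k : K) (j : J)
    (hT : ∀ w : LS.Plr, (T.cov k w).1 = (P.E.collar j ((w.1 : Ci), w.2.1), (w.2.2 : Ci)))
    (z : LS.Plr) (hz : (z.2.1 : ℝ) < 4 / 3) (c) (hc : c ∈ F.charts) (hs : T.cov k z ∈ c.source) :
    OrdEq z (fun w => (c (T.cov k w)).2) (fun w => Q.s * w.1 + w.2.2) := by
  obtain ⟨V, hV, hVV⟩ := F_out hF hc hs (by rw [hT]; exact collar_out P j _ _)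
  obtain ⟨V', hV', hVV'⟩ := DD_collar P Q j hz
  refine ⟨(T.cov k) ⁻¹' V ∩ V',
    inter_mem ((EndR_cov_cont T k).continuousAt hV) hV', ?_⟩
  intro w hw w' hw'
  have h1 := hVV _ hw.1 _ hw'.1
  rw [hT, hT, hVV' w hw.2 w' hw'.2] at h1
  refine h1.trans ?_
  show _ ↔ Q.s * w.1 + w.2.2 < Q.s * w'.1 + w'.2.2
  constructor <;> intro h <;> linarith

include hF in
/-- **the ends at the curves `v ∈ I`** (`F_inn`, `EE_plr`, `plr_mem`) -/
theorem lin_res {K : Type*} (T : Ended (M1 P) K) (k : K) (v : I)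
    (hT : ∀ w : LS.Plr, (T.cov k w).1 = nu P v (plr w))
    (z : LS.Plr) (hz : (z.2.1 : ℝ) < 4 / 3) (c) (hc : c ∈ F.charts) (hs : T.cov k z ∈ c.source) :
    OrdEq z (fun w => (c (T.cov k w)).2) (fun w => Q.q v * w.1 + (Q.lam v - 1) * w.2.2) := by
  obtain ⟨V, hV, hVV⟩ := F_inn hF hc hs v (plr_mem z) (hT z).symm
  obtain ⟨V', hV', hVV'⟩ := EE_plr (Q.loc P v) hz
  refine ⟨plr ⁻¹' V ∩ V', inter_mem (EndR_plr_cont.continuousAt hV) hV', ?_⟩
  intro w hw w' hw'
  have h1 := hVV _ hw.1 _ hw'.1 (T.cov k w) (T.cov k w') (hT w) (hT w')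
  rw [hVV' w hw.2 w' hw'.2] at h1
  refine h1.trans ?_
  show 0 < Q.q v * (w'.1 - w.1) + (Q.lam v - 1) * (w'.2.2 - w.2.2) ↔
    Q.q v * w.1 + (Q.lam v - 1) * w.2.2 < Q.q v * w'.1 + (Q.lam v - 1) * w'.2.2
  constructor <;> intro h <;> linarith

end Pool.Agent.H.MP_1611f1_gt.TP
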