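import Pool.Agent.H.MP_1611f1_gt.TP.ModB
import Pool.Agent.H.MP_1611f1_gt.TP.OutB

/-!
The overlap of the outer region and the local models.
-/

namespace Pool.Agent.H.MP_1611f1_gt.TP

open Topology Set Filter
open Pool.Agent.H.MP_1611f1_gt.BR.U (Ci cl yt hlf psi cu rmp ang)
open Pool.Agent.H.MP_1611f1_gt.LG (Cylinder solidTorus)

variable {S : Type*} [TopologicalSpace S] {J I : Type*} (P : Two S J I) [Fintype I] (Q : Par I)

theorem nu_emb (v : I) : IsOpenEmbedding (nu P v) := by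
  have h : nu P v = Prod.map (P.ν v) id := by
    funext z
    rfl
  rw [h]
  exact (P.emb v).prodMap IsOpenEmbedding.id

omit [Fintype I] in
/-- the collapse map on the annulus -/
theorem FolA_kap (v : I) (z : Ci × ℝ) :
    P.kap v (P.ν v z) = (((Q.loc P v).Fp z.1 + cl z.1 : ℝ) : Ci) := by
  have h1 : (z.1, z.2) = z := rfl
  have h2 := P.cross v (cl z.1) z.2
  rw [BR.U.coe_cl, h1] at h2
  rw [h2]
  congr 1
  show P.f v (cl z.1) = P.f v (cl z.1) - cl z.1 + cl z.1
  ring

omit [Fintype I] in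
/-- the difference of the collapse map -/
theorem FolA_diff (v : I) {z z' : Ci × ℝ}
    (h2 : |cl (z'.1 - z.1) + ((Q.loc P v).Fp z'.1 - (Q.loc P v).Fp z.1)| < 1 / 2) :
    cl (P.kap v (P.ν v z') - P.kap v (P.ν v z)) =
      cl (z'.1 - z.1) + ((Q.loc P v).Fp z'.1 - (Q.loc P v).Fp z.1) := by
  have e : P.kap v (P.ν v z') - P.kap v (P.ν v z) =
      ((cl (z'.1 - z.1) + ((Q.loc P v).Fp z'.1 - (Q.loc P v).Fp z.1) : ℝ) : Ci) := by
    rw [FolA_kap P Q, FolA_kap P Q, AddCircle.coe_add, AddCircle.coe_add, AddCircle.coe_add,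
      AddCircle.coe_sub, BR.U.coe_cl, BR.U.coe_cl, BR.U.coe_cl]
    abel
  rw [e]
  have h3 := abs_lt.1 h2
  exact BR.U.cl_coe ⟨by linarith [h3.1], h3.2⟩

/-- near a point of `ν v`, outside of the collars: only the strip `v` counts, and `GG = 0`
(`P.other`, `P.half_or`, `P.out`; `kap v` is `f v`, see `Fp_diff`; `half v = kap v` for `0 < u`, `0` for
`u < 0`). `z` is close to `z'` in the sense that the differences of the coordinate `θ` and of `f` are small. -/
theorem DD_nu (v : I) {z z' : Y} (hu : (z.1.2 < -2 ∧ z'.1.2 < -2) ∨ (2 < z.1.2 ∧ 2 < z'.1.2))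
    (h1 : |cl (z'.1.1 - z.1.1)| < 1 / 4)
    (h2 : |cl (z'.1.1 - z.1.1) + ((Q.loc P v).Fp z'.1.1 - (Q.loc P v).Fp z.1.1)| < 1 / 2) :
    (if z.1.2 < 0 then 1 else Q.lam v) * DD P Q (nu P v z) (nu P v z') = EE (Q.loc P v) z z' := by
  have hl : (Q.loc P v).lam = Q.lam v := rfl
  have hq : (Q.loc P v).q = Q.q v := rfl
  have hlam := (Q.lam_pos v).ne'
  have hGG : ∀ z : Ci × ℝ, GG P Q (P.ν v z) = 0 := fun z => GG_zero P Q fun j w => P.out v z j w
  have hsum : ∀ F : I → ℝ, (∀ v', v' ≠ v → F v' = 0) → ∑ v', F v' = F v := by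
    intro F hF
    exact Finset.sum_eq_single v (fun v' _ h => hF v' h) (fun h => absurd (Finset.mem_univ v) h)
  have hz : ∀ (v' : I) (z : Ci × ℝ), v' ≠ v → P.half v' (P.ν v z) = 0 := by
    intro v' z h
    rcases P.half_or v' (P.ν v z) with h3 | h3
    · exact h3
    · rw [h3, P.other v v' z h]
  have hD : DD P Q (nu P v z) (nu P v z') = cl (z'.2 - z.2) +
      (Q.q v * cl (P.kap v (P.ν v z'.1) - P.kap v (P.ν v z.1)) +
        Q.q v * (1 / Q.lam v - 1) * cl (P.half v (P.ν v z'.1) - P.half v (P.ν v z.1))) := by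
    unfold DD nu
    rw [hGG, hGG, hsum]
    · simp
    · intro v' h
      simp only
      rw [P.other v v' _ h, P.other v v' _ h, hz v' _ h, hz v' _ h, sub_self, BR.U.cl_zero]
      ring
  have hk := FolA_diff P Q v h2
  rw [hD, hk]
  rcases hu with ⟨a, b⟩ | ⟨a, b⟩
  · have c1 : P.half v (P.ν v z.1) = 0 := P.half_neg v z.1.1 z.1.2 (by linarith)
    have c2 : P.half v (P.ν v z'.1) = 0 := P.half_neg v z'.1.1 z'.1.2 (by linarith)
    rw [c1, c2, sub_self, BR.U.cl_zero, if_pos (by linarith), EE_left _ a b, hq]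
    ring
  · have c1 : P.half v (P.ν v z.1) = P.kap v (P.ν v z.1) :=
      P.half_pos v z.1.1 z.1.2 (by linarith)
    have c2 : P.half v (P.ν v z'.1) = P.kap v (P.ν v z'.1) :=
      P.half_pos v z'.1.1 z'.1.2 (by linarith)
    rw [c1, c2, hk, if_neg (by linarith), EE_right _ a b, hq, hl]
    field_simp
    ring

/-- the overlap (`DD_nu`, multiplication by a positive number) -/
theorem overlap (v : I) {z : Y} (hz : z ∈ Yr) (h : nu P v z ∈ Xo P) :
    OrdEq z (fun w => DD P Q (nu P v z) (nu P v w)) (EE (Q.loc P v) z) := by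
  have hu : 2 < |z.1.2| := h v z.1 rfl
  have hF : Continuous (Q.loc P v).Fp := Fp_cont _
  have hsub : Continuous fun w : Y => w.1.1 - z.1.1 :=
    (continuous_fst.comp continuous_fst).sub continuous_const
  have hcl : ContinuousAt (fun w : Y => cl (w.1.1 - z.1.1)) z := by
    refine ContinuousAt.comp (g := cl) (f := fun w : Y => w.1.1 - z.1.1) ?_ hsub.continuousAt
    apply BR.U.cl_contAt'
    rw [sub_self, BR.U.cl_zero, abs_zero]
    norm_num
  have hFc : ContinuousAt (fun w : Y => (Q.loc P v).Fp w.1.1 - (Q.loc P v).Fp z.1.1) z :=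
    ((hF.comp (continuous_fst.comp continuous_fst)).sub continuous_const).continuousAt
  have n1 : ∀ᶠ w in 𝓝 z, |cl (w.1.1 - z.1.1)| < 1 / 4 := by
    refine hcl.abs.eventually_lt continuousAt_const ?_
    rw [sub_self, BR.U.cl_zero, abs_zero]
    norm_num
  have n2 : ∀ᶠ w in 𝓝 z,
      |cl (w.1.1 - z.1.1) + ((Q.loc P v).Fp w.1.1 - (Q.loc P v).Fp z.1.1)| < 1 / 2 := by
    refine (hcl.add hFc).abs.eventually_lt continuousAt_const ?_
    show |cl (z.1.1 - z.1.1) + ((Q.loc P v).Fp z.1.1 - (Q.loc P v).Fp z.1.1)| < 1 / 2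
    rw [sub_self, BR.U.cl_zero, sub_self, add_zero, abs_zero]
    norm_num
  have hco : ContinuousAt (fun w : Y => w.1.2) z :=
    (continuous_snd.comp continuous_fst).continuousAt
  have hc : (0 : ℝ) < if z.1.2 < 0 then 1 else Q.lam v := by
    split_ifs
    · exact one_pos
    · exact Q.lam_pos v
  have n3 : ∀ᶠ w in 𝓝 z, (z.1.2 < -2 ∧ w.1.2 < -2) ∨ (2 < z.1.2 ∧ 2 < w.1.2) := by
    rcases lt_abs.1 hu with a | a
    · exact (hco.eventually_const_lt a).mono fun w hw => Or.inr ⟨a, hw⟩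
    · have a' : z.1.2 < -2 := by linarith
      exact (hco.eventually_lt_const a').mono fun w hw => Or.inl ⟨a', hw⟩
  refine OrdEq.of_comp (fun s => (if z.1.2 < 0 then 1 else Q.lam v) * s)
    (fun s t hst => mul_lt_mul_of_pos_left hst hc) ?_
  filter_upwards [n1, n2, n3] with w h1 h2 h3
  exact (DD_nu P Q v h3 h1 h2).symm

end Pool.Agent.H.MP_1611f1_gt.TP
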