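import Pool.Agent.H.MP_1611f1_gt.TP.ModA
import Pool.Agent.H.MP_1611f1_gt.BR.NMono
import Pool.Agent.H.MP_1611f1_gt.BR.NLin

/-!
The local model: monotonicity, the form near the tube.
-/

namespace Pool.Agent.H.MP_1611f1_gt.TP

open Topology Set Filter
open Pool.Agent.H.MP_1611f1_gt.BR.U (Ci cl yt hlf psi cu rmp ang)
open Pool.Agent.H.MP_1611f1_gt.LG (Cylinder solidTorus)

variable (L : Loc)

/-- In the square `|u| < 2`, `|t| < 1/16` the transverse coordinate is monotone in `θ`: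
`E = q ((1 - c2) δ + c2 (f (θ + δ) - f θ))`. -/
theorem EE_theta {z z' : Y} {δ : ℝ} (h0 : 0 < δ) (h1 : δ < 1 / 4) (hx : |z.1.2| < 2)
    (hy : |cl z.2| < 1 / 16) (hu : z'.1.2 = z.1.2) (ht : z'.2 = z.2)
    (hθ : z'.1.1 = z.1.1 + (δ : Ci)) : 0 < L.q * EE L z z' := by
  have e1 : cl (z'.2 - z.2) = 0 := by rw [ht, sub_self, BR.U.cl_zero]
  have e2 : cl (z'.1.1 - z.1.1) = δ :=
    BR.U.NMono_cl_shift (by rw [abs_of_pos h0]; linarith) hθ
  have e3 : cl (psi (1 / 2) (z'.1.2 / 32) z'.2 - psi (1 / 2) (z.1.2 / 32) z.2) = 0 := by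
    rw [hu, ht, sub_self, BR.U.cl_zero]
  have e4 : L.g z' - L.g z = c2 (z.1.2 / 32) (cl z.2) * (L.q * (L.Fp z'.1.1 - L.Fp z.1.1)) := by
    unfold Loc.g
    rw [hu, ht]
    ring
  have e5 : L.Fp z'.1.1 - L.Fp z.1.1 = L.f (cl z.1.1 + δ) - L.f (cl z.1.1) - δ := by
    have h2 := Fp_diff L (x := cl z.1.1) (x' := cl z.1.1 + δ)
      (by rw [add_sub_cancel_left, abs_of_pos h0]; linarith)
    have h3 : ((cl z.1.1 + δ : ℝ) : Ci) = z'.1.1 := by
      rw [AddCircle.coe_add, BR.U.coe_cl, hθ]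
    rw [h3, BR.U.coe_cl, e2] at h2
    linarith
  have h2 := c2_lt (x := z.1.2 / 32) (y := cl z.2)
    (by rw [abs_div, abs_of_pos (by norm_num : (0 : ℝ) < 32)]; linarith) hy
  have h3 := (c2_mem (z.1.2 / 32) (cl z.2)).1
  have h4 : 0 ≤ L.f (cl z.1.1 + δ) - L.f (cl z.1.1) := sub_nonneg.2 (L.mono (by linarith))
  have e6 : L.q * EE L z z' = L.q ^ 2 * ((1 - c2 (z.1.2 / 32) (cl z.2)) * δ +
      c2 (z.1.2 / 32) (cl z.2) * (L.f (cl z.1.1 + δ) - L.f (cl z.1.1))) := by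
    unfold EE
    rw [e1, e2, e3, e4, e5]
    ring
  rw [e6]
  have h5 : 0 < L.q ^ 2 := by
    have := L.q_ne
    positivity
  have h6 : 0 < (1 - c2 (z.1.2 / 32) (cl z.2)) * δ := mul_pos (by linarith) h0
  have h7 := mul_nonneg h3 h4
  exact mul_pos h5 (by linarith)

/-- the variation of `psi` in the direction of `t` -/
theorem ModC_psi {v x δ : ℝ} {y y' : Ci} (h0 : 0 ≤ δ) (h1 : δ < 1 / 32)
    (hc : cu x (cl y) = 1) (hc' : cu x (cl y') = 1) (ht : y' = y + (δ : Ci))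
    (h : rmp x = 0 ∨ rmp x = 1 ∨ yt y < -5 / 96) :
    cl (psi v x y' - psi v x y) = rmp x * δ := by
  have e : ∀ u : Ci, cu x (cl u) = 1 → psi v x u = ((rmp x * (yt u + v) : ℝ) : Ci) := by
    intro u hu
    unfold psi BR.U.gg
    rw [hu]
    congr 1
    ring
  have hr := BR.U.rmp_mem x
  rw [e y hc, e y' hc']
  rcases h with h | h | h
  · rw [h, zero_mul, zero_mul, zero_mul, sub_self, BR.U.cl_zero]
  · rw [h, one_mul, one_mul, one_mul, AddCircle.coe_add, AddCircle.coe_add, BR.U.coe_yt,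
      BR.U.coe_yt]
    apply BR.U.NMono_cl_shift (by rw [abs_of_nonneg h0]; linarith)
    rw [ht]
    abel
  · have ey : yt y' = yt y + δ := by
      have h4 : y' = ((yt y + δ : ℝ) : Ci) := by
        rw [AddCircle.coe_add, BR.U.coe_yt]
        exact ht
      rw [h4]
      exact BR.U.yt_coe ⟨by linarith [(BR.U.yt_mem y).1], by linarith⟩
    apply BR.U.NMono_cl_shift
    · rw [abs_of_nonneg (mul_nonneg hr.1 h0)]
      nlinarith [hr.1, hr.2]
    · rw [ey, ← AddCircle.coe_add]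
      congr 1
      ring

theorem ModC_u : Continuous fun w : Y => w.1.2 := continuous_snd.comp continuous_fst

theorem ModC_t : Continuous fun w : Y => ‖w.2‖ := continuous_snd.norm

theorem ModC_open : IsOpen Yr := by
  have h1 : Yr = {w : Y | |w.1.2| < 12} ∩ {w : Y | 1 / 1024 < (w.1.2 / 32) ^ 2 + ‖w.2‖ ^ 2} := by
    ext w
    unfold Yr
    rw [mem_inter_iff, mem_setOf_eq, mem_setOf_eq, mem_setOf_eq, BR.U.norm_cl, sq_abs]
  rw [h1]
  exact (isOpen_lt ModC_u.abs continuous_const).inter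
    (isOpen_lt continuous_const (((ModC_u.div_const 32).pow 2).add (ModC_t.pow 2)))

/-- Outside of the square it is increasing in `t`: near `z` we have `cu = 1`, the `psi`-term is
`rmp * δ`, and `c2_lip` with `η = min 1 lam / (2 (|q| * sup |Fp| + 1))`. -/
theorem EE_t {z : Y} (hz : z ∈ Yr) (hQ : 2 ≤ |z.1.2| ∨ 1 / 16 ≤ |cl z.2|) :
    ∃ (N : Set Y) (δ₀ : ℝ), IsOpen N ∧ z ∈ N ∧ N ⊆ Yr ∧ 0 < δ₀ ∧ ∀ w ∈ N, ∀ w' ∈ N, ∀ δ : ℝ,
      0 < δ → δ < δ₀ → w'.1 = w.1 → w'.2 = w.2 + (δ : Ci) → 0 < EE L w w' := by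
  obtain ⟨C, hC⟩ : ∃ C, ∀ θ ∈ (univ : Set Ci), ‖L.Fp θ‖ ≤ C :=
    isCompact_univ.exists_bound_of_continuousOn (Fp_cont L).continuousOn
  have hC0 : 0 ≤ C := (norm_nonneg _).trans (hC 0 (mem_univ _))
  set m : ℝ := min 1 L.lam with hm
  have hm0 : 0 < m := lt_min one_pos L.lam_pos
  set η : ℝ := m / (2 * (|L.q| * C + 1)) with hη
  have hD : 0 < 2 * (|L.q| * C + 1) := by positivity
  have hη0 : 0 < η := div_pos hm0 hD
  have hηm : η * (|L.q| * C) < m := by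
    have h1 : η * (2 * (|L.q| * C + 1)) = m := by
      rw [hη]
      field_simp
    nlinarith [mul_nonneg (abs_nonneg L.q) hC0]
  have hQ' : 1 / 16 ≤ |z.1.2 / 32| ∨ 1 / 16 ≤ |cl z.2| := by
    rcases hQ with h | h
    · left
      rw [abs_div, abs_of_pos (by norm_num : (0 : ℝ) < 32)]
      linarith
    · exact Or.inr h
  -- `cu = 1`
  have c1 : ∀ᶠ w in 𝓝 z, cu (w.1.2 / 32) (cl w.2) = 1 := by
    have h1 : Continuous fun w : Y => (w.1.2 / 32) ^ 2 + ‖w.2‖ ^ 2 :=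
      ((ModC_u.div_const 32).pow 2).add (ModC_t.pow 2)
    have h2 : 25 / 9216 < (z.1.2 / 32) ^ 2 + ‖z.2‖ ^ 2 := by
      rw [BR.U.norm_cl, sq_abs]
      rcases hQ' with h | h
      · have h3 : (1 / 16 : ℝ) ^ 2 ≤ |z.1.2 / 32| ^ 2 := by gcongr
        rw [sq_abs] at h3
        nlinarith [sq_nonneg (cl z.2)]
      · have h3 : (1 / 16 : ℝ) ^ 2 ≤ |cl z.2| ^ 2 := by gcongr
        rw [sq_abs] at h3
        nlinarith [sq_nonneg (z.1.2 / 32)]
    filter_upwards [h1.continuousAt.eventually (lt_mem_nhds h2)] with w hw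
    rw [BR.U.norm_cl, sq_abs] at hw
    exact BR.U.cu_far hw.le
  -- the term `psi`
  have c3 : ∀ᶠ w : Y in 𝓝 z, rmp (w.1.2 / 32) = 0 ∨ rmp (w.1.2 / 32) = 1 ∨ yt w.2 < -5 / 96 := by
    rcases hQ with h | h
    · rcases le_abs.1 h with h | h
      · filter_upwards [ModC_u.continuousAt.eventually (lt_mem_nhds (show 1 < z.1.2 by linarith))]
          with w hw
        exact Or.inr (Or.inl (BR.U.rmp_right (by linarith)))
      · filter_upwards [ModC_u.continuousAt.eventually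
          (gt_mem_nhds (show z.1.2 < -1 by linarith))] with w hw
        exact Or.inl (BR.U.rmp_left (by linarith))
    · have h1 : z.2 ≠ 0 := by
        intro h2
        rw [h2, BR.U.cl_zero, abs_zero] at h
        norm_num at h
      have h2 : yt z.2 < -5 / 96 := by
        rcases le_or_gt (cl z.2) 0 with h3 | h3
        · rw [BR.U.yt_of_nonpos h3]
          rw [abs_of_nonpos h3] at h
          linarith
        · rw [BR.U.yt_of_pos h3]
          linarith [(BR.U.cl_mem z.2).2]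
      have h3 : ContinuousAt (fun w : Y => yt w.2) z :=
        ContinuousAt.comp (g := yt) (f := fun w : Y => w.2) (BR.U.yt_contAt h1)
          continuous_snd.continuousAt
      filter_upwards [h3.eventually (gt_mem_nhds h2)] with w hw
      exact Or.inr (Or.inr hw)
  -- the variation of `c2`
  have c4 : ∃ p : Y → Prop, (∀ᶠ w in 𝓝 z, p w) ∧ ∀ w w', p w → p w' → ∀ δ : ℝ, 0 < δ →
      δ < 1 / 32 → w'.1 = w.1 → w'.2 = w.2 + (δ : Ci) →
      |c2 (w'.1.2 / 32) (cl w'.2) - c2 (w.1.2 / 32) (cl w.2)| ≤ η * δ := by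
    rcases lt_or_ge (1 / 8) |cl z.2| with h | h
    · refine ⟨fun w => 1 / 16 ≤ |cl w.2|, ?_, ?_⟩
      · filter_upwards [ModC_t.continuousAt.eventually
          (lt_mem_nhds (show 1 / 16 < ‖z.2‖ by rw [BR.U.norm_cl]; linarith))] with w hw
        rw [BR.U.norm_cl] at hw
        exact hw.le
      · intro w w' hw hw' δ hδ _ _ _
        rw [c2_far (Or.inr hw), c2_far (Or.inr hw'), sub_self, abs_zero]
        positivity
    · obtain ⟨V, hV, hVV⟩ := c2_lip hQ' hη0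
      have h1 : ContinuousAt (fun w : Y => (w.1.2 / 32, cl w.2)) z :=
        (ModC_u.div_const 32).continuousAt.prodMk
          (ContinuousAt.comp (g := cl) (f := fun w : Y => w.2)
            (BR.U.cl_contAt' (by linarith)) continuous_snd.continuousAt)
      refine ⟨fun w => (w.1.2 / 32, cl w.2) ∈ V ∧ |cl w.2| < 1 / 4, ?_, ?_⟩
      · refine (h1.eventually hV).and ?_
        filter_upwards [ModC_t.continuousAt.eventually
          (gt_mem_nhds (show ‖z.2‖ < 1 / 4 by rw [BR.U.norm_cl]; linarith))] with w hw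
        rw [BR.U.norm_cl] at hw
        exact hw
      · intro w w' hw hw' δ hδ hδ' e1 e2
        have h2 := hVV _ hw.1 _ hw'.1 (by rw [e1])
        have h3 : cl w'.2 = cl w.2 + δ := by
          have h4 : w'.2 = ((cl w.2 + δ : ℝ) : Ci) := by
            rw [AddCircle.coe_add, BR.U.coe_cl]
            exact e2
          have h5 := abs_lt.1 hw.2
          rw [h4]
          exact BR.U.cl_coe ⟨by linarith [h5.1], by linarith [h5.2]⟩
        refine h2.trans (le_of_eq ?_)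
        show η * |cl w'.2 - cl w.2| = η * δ
        rw [h3, add_sub_cancel_left, abs_of_pos hδ]
  obtain ⟨p, hp, hpp⟩ := c4
  have c0 : ∀ᶠ w in 𝓝 z, w ∈ Yr := ModC_open.mem_nhds hz
  obtain ⟨N, hN, hNo, hzN⟩ := eventually_nhds_iff.1 (c0.and (c1.and (c3.and hp)))
  refine ⟨N, 1 / 32, hNo, hzN, fun w hw => (hN w hw).1, by norm_num, ?_⟩
  intro w hw w' hw' δ h0 h1 e1 e2
  obtain ⟨_, a2, a3, a4⟩ := hN w hw
  obtain ⟨_, b2, b3, b4⟩ := hN w' hw'
  have f1 : cl (w'.2 - w.2) = δ :=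
    BR.U.NMono_cl_shift (by rw [abs_of_pos h0]; linarith) e2
  have f2 : cl (w'.1.1 - w.1.1) = 0 := by rw [e1, sub_self, BR.U.cl_zero]
  have f3 : cl (psi (1 / 2) (w'.1.2 / 32) w'.2 - psi (1 / 2) (w.1.2 / 32) w.2) =
      rmp (w.1.2 / 32) * δ := by
    rw [e1] at b2 ⊢
    exact ModC_psi h0.le h1 a2 b2 e2 a3
  have f4 : L.g w' - L.g w = (c2 (w'.1.2 / 32) (cl w'.2) - c2 (w.1.2 / 32) (cl w.2)) *
      (L.q * L.Fp w.1.1) := by
    unfold Loc.g
    rw [a2, b2, e1]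
    ring
  have f5 : |L.g w' - L.g w| ≤ η * δ * (|L.q| * C) := by
    rw [f4, abs_mul, abs_mul]
    exact mul_le_mul (hpp w w' a4 b4 δ h0 h1 e1 e2)
      (mul_le_mul_of_nonneg_left (hC _ (mem_univ _)) (abs_nonneg _))
      (mul_nonneg (abs_nonneg _) (abs_nonneg _)) (mul_nonneg hη0.le h0.le)
  have hr := BR.U.rmp_mem (w.1.2 / 32)
  have f6 : m ≤ 1 + (L.lam - 1) * rmp (w.1.2 / 32) := by
    have g1 : m ≤ 1 := min_le_left _ _
    have g2 : m ≤ L.lam := min_le_right _ _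
    nlinarith [hr.1, hr.2, mul_le_mul_of_nonneg_right g2 hr.1,
      mul_le_mul_of_nonneg_right g1 (sub_nonneg.2 hr.2)]
  have f7 := (abs_le.1 f5).1
  have f8 : m * δ ≤ (1 + (L.lam - 1) * rmp (w.1.2 / 32)) * δ :=
    mul_le_mul_of_nonneg_right f6 h0.le
  have f9 : η * (|L.q| * C) * δ < m * δ := mul_lt_mul_of_pos_right hηm h0
  unfold EE
  rw [f1, f2, f3]
  nlinarith [f7, f8, f9]

/-- polar coordinates around the curve -/
noncomputable def plr (z : LS.Plr) : Y :=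
  (((z.1 : Ci), (z.2.1 : ℝ) * Real.cos (2 * Real.pi * z.2.2)),
    (((z.2.1 : ℝ) * Real.sin (2 * Real.pi * z.2.2) / 32 : ℝ) : Ci))

theorem ModC_cos (z : LS.Plr) : |(z.2.1 : ℝ) * Real.cos (2 * Real.pi * z.2.2)| < 2 := by
  have h := z.2.1.2
  rw [abs_mul, abs_of_pos (by linarith [h.1])]
  have h1 := Real.abs_cos_le_one (2 * Real.pi * z.2.2)
  nlinarith [h.1, h.2, abs_nonneg (Real.cos (2 * Real.pi * z.2.2))]

theorem ModC_sin (z : LS.Plr) : |(z.2.1 : ℝ) * Real.sin (2 * Real.pi * z.2.2) / 32| < 1 / 16 := by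
  have h := z.2.1.2
  rw [abs_div, abs_mul, abs_of_pos (by linarith [h.1]), abs_of_pos (by norm_num : (0 : ℝ) < 32),
    div_lt_iff₀ (by norm_num)]
  have h1 := Real.abs_sin_le_one (2 * Real.pi * z.2.2)
  nlinarith [h.1, h.2, abs_nonneg (Real.sin (2 * Real.pi * z.2.2))]

theorem ModC_cl (z : LS.Plr) : cl (plr z).2 = (z.2.1 : ℝ) * Real.sin (2 * Real.pi * z.2.2) / 32 := by
  have h := abs_lt.1 (ModC_sin z)
  exact BR.U.cl_coe ⟨by linarith [h.1], by linarith [h.2]⟩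

theorem ModC_sq (z : LS.Plr) : ((plr z).1.2 / 32) ^ 2 + cl (plr z).2 ^ 2 =
    (z.2.1 : ℝ) ^ 2 / 1024 := by
  rw [ModC_cl]
  have h1 : (plr z).1.2 = (z.2.1 : ℝ) * Real.cos (2 * Real.pi * z.2.2) := rfl
  rw [h1]
  have h2 := Real.cos_sq_add_sin_sq (2 * Real.pi * z.2.2)
  have h3 : ((z.2.1 : ℝ) * Real.cos (2 * Real.pi * z.2.2) / 32) ^ 2 +
      ((z.2.1 : ℝ) * Real.sin (2 * Real.pi * z.2.2) / 32) ^ 2 =
      (z.2.1 : ℝ) ^ 2 / 1024 * (Real.cos (2 * Real.pi * z.2.2) ^ 2 +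
        Real.sin (2 * Real.pi * z.2.2) ^ 2) := by ring
  rw [h3, h2, mul_one]

theorem plr_mem (z : LS.Plr) : plr z ∈ Yr := by
  refine ⟨lt_trans (ModC_cos z) (by norm_num), ?_⟩
  rw [ModC_sq]
  have h := z.2.1.2.1
  have h1 : (1 : ℝ) < (z.2.1 : ℝ) ^ 2 := by nlinarith
  linarith

theorem ModC_small {z : LS.Plr} (hz : (z.2.1 : ℝ) < 4 / 3) :
    ((plr z).1.2 / 32) ^ 2 + cl (plr z).2 ^ 2 ≤ 1 / 576 := by
  rw [ModC_sq]
  have h := z.2.1.2.1
  have h1 : (z.2.1 : ℝ) ^ 2 ≤ 16 / 9 := by nlinarith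
  linarith

theorem ModC_ang {z : LS.Plr} (hz : (z.2.1 : ℝ) < 4 / 3) :
    psi (1 / 2) ((plr z).1.2 / 32) (plr z).2 = ((z.2.2 + 1 / 2 : ℝ) : Ci) := by
  rw [BR.U.psi_collar (ModC_small hz), ModC_cl]
  have h1 : (plr z).1.2 / 32 = (z.2.1 : ℝ) / 32 * Real.cos (2 * Real.pi * z.2.2) := by
    show (z.2.1 : ℝ) * Real.cos (2 * Real.pi * z.2.2) / 32 = _
    ring
  have h2 : (z.2.1 : ℝ) * Real.sin (2 * Real.pi * z.2.2) / 32 =
      (z.2.1 : ℝ) / 32 * Real.sin (2 * Real.pi * z.2.2) := by ring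
  rw [h1, h2]
  exact BR.U.ang_polar (by linarith [z.2.1.2.1] : 0 < (z.2.1 : ℝ) / 32) z.2.2

theorem ModC_g {z : LS.Plr} (hz : (z.2.1 : ℝ) < 4 / 3) :
    L.g (plr z) = -((z.2.1 : ℝ) * Real.sin (2 * Real.pi * z.2.2) / 32) := by
  unfold Loc.g
  rw [BR.U.cu_near (ModC_small hz), c2_near (ModC_small hz), ModC_cl]
  ring

/-- near the tube: `cu = 0`, `c2 = 0`, `psi = ang` (`BR.U.psi_collar`, `BR.U.ang_polar`) -/
theorem EE_plr {z : LS.Plr} (hz : (z.2.1 : ℝ) < 4 / 3) : ∃ V ∈ 𝓝 z, ∀ w ∈ V, ∀ w' ∈ V,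
    EE L (plr w) (plr w') = L.q * (w'.1 - w.1) + (L.lam - 1) * (w'.2.2 - w.2.2) := by
  refine ⟨_, BR.U.NLin_nhds hz, ?_⟩
  rintro w ⟨hw1, hw2, hw3⟩ w' ⟨hw1', hw2', hw3'⟩
  have hy1 := abs_lt.1 (ModC_sin w)
  have hy2 := abs_lt.1 (ModC_sin w')
  have hth := abs_lt.1 (BR.U.NLin_tri hw3 hw3')
  have e1 : cl ((plr w').2 - (plr w).2) =
      (w'.2.1 : ℝ) * Real.sin (2 * Real.pi * w'.2.2) / 32 -
        (w.2.1 : ℝ) * Real.sin (2 * Real.pi * w.2.2) / 32 :=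
    BR.U.NLin_dif (abs_lt.2 ⟨by linarith [hy1.1, hy1.2, hy2.1, hy2.2],
      by linarith [hy1.1, hy1.2, hy2.1, hy2.2]⟩)
  have e2 : cl ((plr w').1.1 - (plr w).1.1) = w'.1 - w.1 :=
    BR.U.NLin_dif (BR.U.NLin_tri hw2 hw2')
  have e3 : cl (psi (1 / 2) ((plr w').1.2 / 32) (plr w').2 -
      psi (1 / 2) ((plr w).1.2 / 32) (plr w).2) = w'.2.2 - w.2.2 := by
    rw [ModC_ang hw1, ModC_ang hw1',
      BR.U.NLin_dif (abs_lt.2 ⟨by linarith [hth.1, hth.2], by linarith [hth.1, hth.2]⟩)]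
    ring
  unfold EE
  rw [e1, e2, e3, ModC_g L hw1, ModC_g L hw1']
  ring

end Pool.Agent.H.MP_1611f1_gt.TP
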