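import Pool.Agent.H.MP_1611f1_gt.TP.FolB
import Pool.Agent.H.MP_1611f1_gt.LS.UpE

/-!
The foliation.
-/

namespace Pool.Agent.H.MP_1611f1_gt.TP

open Topology Set Filter
open Pool.Agent.H.MP_1611f1_gt.BR.U (Ci cl yt hlf psi cu rmp ang)
open Pool.Agent.H.MP_1611f1_gt.LG (Cylinder solidTorus)

variable {S : Type*} [TopologicalSpace S] {J I : Type*} (P : Two S J I) [Fintype I] (Q : Par I)

/-- the foliation of the open set `Xd` -/
def pre [T2Space S] : LS.PreFol (S × Ci) where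
  charts := AdCh P Q
  compat c hc c' hc' y hy hy' := by
    have h1 := hc.2 y hy
    have h2 := hc'.2 y hy'
    rcases hc.1 hy with h | ⟨v, z, hz, h⟩
    · exact (h1.out h).trans (h2.out h).symm
    · have h3 := (h1.inn v z hz h).trans (h2.inn v z hz h).symm
      have h4 := OrdEq.of_openMap (R := nu P v) (nu_emb P v).isOpenMap (z₀ := z)
        (f := fun w => (c w).2) (g := fun w => (c' w).2) h3
      rw [h] at h4
      exact h4

theorem pre_dom [T2Space S] [Finite J] : (pre P Q).dom = Xd P := by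
  ext y
  constructor
  · rintro ⟨c, hc, hy⟩
    exact hc.1 hy
  · rintro (h | ⟨v, z, hz, rfl⟩)
    · exact fol_out P Q h
    · exact fol_inn P Q v hz

private theorem FolC_solid : IsCompact solidTorus := by
  have h1 : IsCompact ((univ : Set (AddCircle (1 : ℝ))) ×ˢ
      ((Icc (-1 : ℝ) 1) ×ˢ (Icc (-5 : ℝ) (-3)))) :=
    isCompact_univ.prod (isCompact_Icc.prod isCompact_Icc)
  refine h1.of_isClosed_subset ?_ ?_
  · exact isClosed_le (by fun_prop) continuous_const
  · intro z hz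
    have h2 : z.2.1 ^ 2 + (z.2.2 + 4) ^ 2 ≤ 1 := hz
    refine ⟨mem_univ _, ⟨?_, ?_⟩, ⟨?_, ?_⟩⟩
    · nlinarith [sq_nonneg (z.2.2 + 4)]
    · nlinarith [sq_nonneg (z.2.2 + 4)]
    · nlinarith [sq_nonneg z.2.1]
    · nlinarith [sq_nonneg z.2.1]

private theorem FolC_nbv (v : I) : Continuous (nbv P v) := by
  unfold nbv
  have h1 : Continuous fun z : Cylinder => P.ν v (z.1, z.2.1) :=
    (P.emb v).continuous.comp (continuous_fst.prodMk continuous_snd.fst)
  have h2 : Continuous fun z : Cylinder => ((z.2.2 + 4) / 32 : ℝ) :=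
    (continuous_snd.snd.add continuous_const).div_const 32
  exact h1.prodMk ((AddCircle.continuous_mk' (1 : ℝ)).comp h2)

/-- the set `M1` is open -/
theorem M1_emb [T2Space S] : IsOpenEmbedding (Subtype.val : M1 P → S × Ci) := by
  have h1 : {y : S × Ci | ∀ v, y ∉ nbv P v '' solidTorus} =
      ⋂ v, (nbv P v '' solidTorus)ᶜ := by
    ext y
    simp only [mem_ofPred_eq, mem_iInter, mem_compl_iff]
  have h2 : IsOpen {y : S × Ci | ∀ v, y ∉ nbv P v '' solidTorus} := by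
    rw [h1]
    exact isOpen_iInter_of_finite fun v =>
      (FolC_solid.image (FolC_nbv P v)).isClosed.isOpen_compl
  exact h2.isOpenEmbedding_subtypeVal

theorem M1_sub (y : M1 P) : y.1 ∈ Xd P := by
  by_cases h : y.1 ∈ Xo P
  · exact Or.inl h
  · have h1 : ∃ v z, P.ν v z = y.1.1 ∧ |z.2| ≤ 2 := by
      by_contra hc
      push Not at hc
      exact h fun v z hz => hc v z hz
    obtain ⟨v, z, hz, hz2⟩ := h1
    refine Or.inr ⟨v, (z, y.1.2), ⟨?_, ?_⟩, ?_⟩
    · show |z.2| < 12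
      linarith
    · show 1 / 1024 < (z.2 / 32) ^ 2 + cl y.1.2 ^ 2
      by_contra hc
      rw [not_lt] at hc
      refine y.2 v ⟨(z.1, (z.2, 32 * cl y.1.2 - 4)), ?_, ?_⟩
      · show z.2 ^ 2 + (32 * cl y.1.2 - 4 + 4) ^ 2 ≤ 1
        have h2 : z.2 ^ 2 + (32 * cl y.1.2 - 4 + 4) ^ 2 =
            1024 * ((z.2 / 32) ^ 2 + cl y.1.2 ^ 2) := by ring
        rw [h2]
        linarith
      · unfold nbv
        refine Prod.ext ?_ ?_
        · show P.ν v (z.1, z.2) = y.1.1
          exact hz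
        · show (((32 * cl y.1.2 - 4 + 4) / 32 : ℝ) : Ci) = y.1.2
          have h3 : (32 * cl y.1.2 - 4 + 4) / 32 = cl y.1.2 := by ring
          rw [h3]
          exact BR.U.coe_cl _
    · show (P.ν v z, y.1.2) = y.1
      rw [hz]

theorem exists_F [T2Space S] [Finite J] :
    ∃ F : Foliation (M1 P), F.charts = LS.pullCharts (Subtype.val : M1 P → S × Ci) (pre P Q) :=
  LS.exists_pull (M1_emb P) (pre P Q) fun x => by
    rw [pre_dom]
    exact M1_sub P x

variable {P Q} [T2Space S] {F : Foliation (M1 P)}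
  (hF : F.charts = LS.pullCharts (Subtype.val : M1 P → S × Ci) (pre P Q))

include hF in
/-- the charts in the outer region (as `BR.U.F_one'`) -/
theorem F_out [Finite J] {c : OpenPartialHomeomorph (M1 P) ((ℝ × ℝ) × ℝ)} (hc : c ∈ F.charts) {y : M1 P}
    (hy : y ∈ c.source) (h : y.1 ∈ Xo P) :
    ∃ V ∈ 𝓝 y, ∀ w ∈ V, ∀ w' ∈ V, (c w).2 < (c w').2 ↔ 0 < DD P Q w.1 w'.1 := by
  rw [hF] at hc
  obtain ⟨c0, hc0, hs, hv⟩ := hc
  have hy0 : y.1 ∈ c0.source := by
    have := hy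
    rw [hs] at this
    exact this
  have h1 := OrdEq.comp_cont (R := (Subtype.val : M1 P → S × Ci)) (z₀ := y)
    continuous_subtype_val.continuousAt ((hc0.2 y.1 hy0).out h)
  have h2 : OrdEq y (fun w => (c w).2) (fun w => DD P Q y.1 w.1) := by
    refine OrdEq.congr h1 ?_ (Eventually.of_forall fun _ => rfl)
    filter_upwards [c.open_source.mem_nhds hy] with w hw
    exact hv w hw
  obtain ⟨V, hV, h3⟩ := h2
  obtain ⟨N, hN, hyN, -, hadd, -⟩ := DD_near P Q h
  refine ⟨V ∩ Subtype.val ⁻¹' N, inter_mem hV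
    ((hN.preimage continuous_subtype_val).mem_nhds hyN), fun w hw w' hw' => ?_⟩
  rw [hadd w.1 hw.2 w'.1 hw'.2, sub_pos]
  exact h3 w hw.1 w' hw'.1

include hF in
/-- the charts near the curve `v` -/
theorem F_inn {c : OpenPartialHomeomorph (M1 P) ((ℝ × ℝ) × ℝ)} (hc : c ∈ F.charts) {y : M1 P}
    (hy : y ∈ c.source) (v : I) {z : Y} (hz : z ∈ Yr) (h : nu P v z = y.1) :
    ∃ V ∈ 𝓝 z, ∀ w ∈ V, ∀ w' ∈ V, ∀ m m' : M1 P, m.1 = nu P v w → m'.1 = nu P v w' →
      ((c m).2 < (c m').2 ↔ 0 < EE (Q.loc P v) w w') := by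
  rw [hF] at hc
  obtain ⟨c0, hc0, hs, hv⟩ := hc
  have hy0 : y.1 ∈ c0.source := by
    have := hy
    rw [hs] at this
    exact this
  obtain ⟨V, hV, h3⟩ := (hc0.2 y.1 hy0).inn v z hz h
  obtain ⟨N, hN, hzN, -, hadd, -⟩ := EE_near (Q.loc P v) hz
  have hV1 : nu P v ⁻¹' c0.source ∈ 𝓝 z := by
    refine (nu_emb P v).continuous.continuousAt (c0.open_source.mem_nhds ?_)
    rw [h]
    exact hy0
  have key : ∀ w ∈ nu P v ⁻¹' c0.source, ∀ m : M1 P, m.1 = nu P v w →
      (c m).2 = (c0 (nu P v w)).2 := by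
    intro w hw m hm
    have h4 : m ∈ c.source := by
      rw [hs, mem_preimage, hm]
      exact hw
    rw [hv m h4, hm]
  refine ⟨V ∩ N ∩ nu P v ⁻¹' c0.source, inter_mem (inter_mem hV (hN.mem_nhds hzN)) hV1,
    fun w hw w' hw' m m' hm hm' => ?_⟩
  rw [key w hw.2 m hm, key w' hw'.2 m' hm', hadd w hw.1.2 w' hw'.1.2, sub_pos]
  exact h3 w hw.1.1 w' hw'.1.1

end Pool.Agent.H.MP_1611f1_gt.TP
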