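import Pool.Agent.H.MP_1611f1_gt.TP.Two

/-!
The local model: the function `Fp`, the cut-off `c2`.
-/

namespace Pool.Agent.H.MP_1611f1_gt.TP

open Topology Set Filter
open Pool.Agent.H.MP_1611f1_gt.BR.U (Ci cl yt hlf psi cu rmp ang)
open Pool.Agent.H.MP_1611f1_gt.LG (Cylinder solidTorus)

variable (L : Loc)

theorem ModA_periodic : Function.Periodic (fun x : ℝ => L.f x - x) 1 := by
  intro x
  show L.f (x + 1) - (x + 1) = L.f x - x
  rw [L.f_add]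
  ring

/-- (`cl x = x - n`, `f (x - n) = f x - n`) -/
theorem Fp_coe (x : ℝ) : L.Fp (x : Ci) = L.f x - x := by
  have h1 : ((cl (x : Ci) : ℝ) : Ci) = (x : Ci) := BR.U.coe_cl _
  have h2 : ((cl (x : Ci) - x : ℝ) : Ci) = 0 := by
    rw [AddCircle.coe_sub, h1, sub_self]
  obtain ⟨n, hn⟩ := (AddCircle.coe_eq_zero_iff (1 : ℝ)).1 h2
  have h3 : cl (x : Ci) = x + n * 1 := by
    rw [zsmul_eq_mul] at hn
    linarith
  have h4 := (ModA_periodic L).int_mul n x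
  unfold Loc.Fp
  rw [h3]
  exact h4

theorem Fp_cont : Continuous L.Fp := by
  have hq : IsQuotientMap (fun x : ℝ => (x : Ci)) := QuotientAddGroup.isQuotientMap_mk _
  rw [hq.continuous_iff]
  have h : (L.Fp ∘ fun x : ℝ => (x : Ci)) = fun x : ℝ => L.f x - x := by
    funext x
    exact Fp_coe L x
  rw [h]
  exact L.f_cont.sub continuous_id

/-- (`Fp_coe`, `cl (x' - x) = x' - x`) -/
theorem Fp_diff {x x' : ℝ} (h : |x' - x| < 1 / 2) :
    cl ((x' : Ci) - (x : Ci)) + (L.Fp (x' : Ci) - L.Fp (x : Ci)) = L.f x' - L.f x := by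
  have h1 := abs_lt.1 h
  rw [Fp_coe, Fp_coe, ← AddCircle.coe_sub,
    BR.U.cl_coe (x := x' - x) ⟨by linarith [h1.1], by linarith [h1.2]⟩]
  ring

theorem ModA_ex_nonneg (x : ℝ) : 0 ≤ ex x := le_max_left _ _

theorem ModA_ex_cont : Continuous ex := by
  unfold ex
  fun_prop

theorem ModA_ex_far {x : ℝ} (h : 1 / 16 ≤ |x|) : ex x = 0 := by
  unfold ex
  apply max_eq_left
  have h1 : (1 / 16 : ℝ) ^ 2 ≤ |x| ^ 2 := pow_le_pow_left₀ (by norm_num) h 2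
  rw [sq_abs] at h1
  norm_num at h1 ⊢
  linarith

theorem ModA_ex_pos {x : ℝ} (h : |x| < 1 / 16) : 0 < ex x := by
  unfold ex
  apply lt_max_of_lt_right
  have h1 : |x| ^ 2 < (1 / 16 : ℝ) ^ 2 := pow_lt_pow_left₀ h (abs_nonneg _) (by norm_num)
  rw [sq_abs] at h1
  norm_num at h1 ⊢
  linarith

theorem ModA_ex_lip (a b : ℝ) : |ex a - ex b| ≤ |a - b| * |a + b| := by
  unfold ex
  have h1 := abs_max_sub_max_le_abs (1 / 256 - a ^ 2) (1 / 256 - b ^ 2) (0 : ℝ)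
  rw [max_comm _ (0 : ℝ), max_comm _ (0 : ℝ)] at h1
  refine h1.trans (le_of_eq ?_)
  rw [← abs_mul, ← abs_neg]
  congr 1
  ring

theorem c2_mem (x y : ℝ) : 0 ≤ c2 x y ∧ c2 x y ≤ 1 := by
  unfold c2
  refine ⟨le_max_left _ _, max_le zero_le_one ?_⟩
  have h : 0 ≤ (2304 / 5 : ℝ) ^ 4 * (ex x * ex y) ^ 2 := by positivity
  linarith

theorem c2_cont : Continuous (fun z : ℝ × ℝ => c2 z.1 z.2) := by
  unfold c2
  have h1 : Continuous (fun z : ℝ × ℝ => ex z.1) := ModA_ex_cont.comp continuous_fst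
  have h2 : Continuous (fun z : ℝ × ℝ => ex z.2) := ModA_ex_cont.comp continuous_snd
  exact continuous_const.max (continuous_const.sub (continuous_const.mul ((h1.mul h2).pow 2)))

theorem c2_far {x y : ℝ} (h : 1 / 16 ≤ |x| ∨ 1 / 16 ≤ |y|) : c2 x y = 1 := by
  have h1 : ex x * ex y = 0 := by
    rcases h with h | h
    · rw [ModA_ex_far h, zero_mul]
    · rw [ModA_ex_far h, mul_zero]
  unfold c2
  rw [h1]
  norm_num

theorem c2_lt {x y : ℝ} (h : |x| < 1 / 16) (h' : |y| < 1 / 16) : c2 x y < 1 := by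
  have h1 := ModA_ex_pos h
  have h2 := ModA_ex_pos h'
  unfold c2
  refine max_lt zero_lt_one ?_
  have h3 : 0 < (2304 / 5 : ℝ) ^ 4 * (ex x * ex y) ^ 2 := by positivity
  linarith

theorem c2_near {x y : ℝ} (h : x ^ 2 + y ^ 2 ≤ 1 / 576) : c2 x y = 0 := by
  have hx : ex x = 1 / 256 - x ^ 2 := by
    unfold ex
    apply max_eq_right
    nlinarith [sq_nonneg x, sq_nonneg y]
  have hy : ex y = 1 / 256 - y ^ 2 := by
    unfold ex
    apply max_eq_right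
    nlinarith [sq_nonneg x, sq_nonneg y]
  have h1 : (1.25 / 147456 : ℝ) ≤ ex x * ex y := by
    rw [hx, hy]
    have h2 : 0 ≤ x ^ 2 * y ^ 2 := by positivity
    have h3 : (1 / 256 - x ^ 2) * (1 / 256 - y ^ 2) =
      1 / 65536 - (x ^ 2 + y ^ 2) / 256 + x ^ 2 * y ^ 2 := by ring
    rw [h3]
    norm_num at h ⊢
    linarith
  have h4 : (1.25 / 147456 : ℝ) ^ 2 ≤ (ex x * ex y) ^ 2 :=
    pow_le_pow_left₀ (by norm_num) h1 2
  have h5 : 1 ≤ (2304 / 5 : ℝ) ^ 4 * (ex x * ex y) ^ 2 := by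
    have h6 := mul_le_mul_of_nonneg_left h4 (by norm_num : (0 : ℝ) ≤ (2304 / 5 : ℝ) ^ 4)
    refine le_trans ?_ h6
    norm_num
  unfold c2
  apply max_eq_left
  linarith

/-- near the boundary of the square `c2` has a small Lipschitz constant in the direction of `y` -/
theorem c2_lip {x y η : ℝ} (h : 1 / 16 ≤ |x| ∨ 1 / 16 ≤ |y|) (hη : 0 < η) :
    ∃ V ∈ 𝓝 (x, y), ∀ z ∈ V, ∀ z' ∈ V, z'.1 = z.1 →
      |c2 z'.1 z'.2 - c2 z.1 z.2| ≤ η * |z'.2 - z.2| := by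
  obtain ⟨K, hK⟩ : ∃ K : ℝ, K = (2304 / 5 : ℝ) ^ 4 := ⟨_, rfl⟩
  have hK0 : 0 ≤ K := by rw [hK]; positivity
  obtain ⟨Φ, hΦ⟩ : ∃ Φ : ℝ × ℝ → ℝ,
      Φ = fun z => (2 * |y| + 1) * K * ex z.1 ^ 2 * ex z.2 * 2 := ⟨_, rfl⟩
  have h1 : Continuous (fun z : ℝ × ℝ => ex z.1) := ModA_ex_cont.comp continuous_fst
  have h2 : Continuous (fun z : ℝ × ℝ => ex z.2) := ModA_ex_cont.comp continuous_snd
  have hΦc : Continuous Φ := by
    rw [hΦ]
    exact (((continuous_const.mul (h1.pow 2)).mul h2).mul continuous_const)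
  have hΦ0 : Φ (x, y) = 0 := by
    rw [hΦ]
    show (2 * |y| + 1) * K * ex x ^ 2 * ex y * 2 = 0
    rcases h with h | h
    · rw [ModA_ex_far h]; ring
    · rw [ModA_ex_far h]; ring
  have e1 : ∀ᶠ z in 𝓝 (x, y), Φ z < η := by
    have h3 := hΦc.continuousAt (x := (x, y))
    have h4 : Tendsto Φ (𝓝 (x, y)) (𝓝 0) := by
      have h5 : Tendsto Φ (𝓝 (x, y)) (𝓝 (Φ (x, y))) := h3
      rwa [hΦ0] at h5
    exact h4.eventually (gt_mem_nhds hη)
  have e2 : ∀ᶠ z : ℝ × ℝ in 𝓝 (x, y), |z.2 - y| < 1 / 2 := by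
    have h3 : Continuous (fun z : ℝ × ℝ => |z.2 - y|) := by fun_prop
    have h4 : Tendsto (fun z : ℝ × ℝ => |z.2 - y|) (𝓝 (x, y)) (𝓝 0) := by
      have h5 := (h3.continuousAt (x := (x, y))).tendsto
      simpa using h5
    exact h4.eventually (gt_mem_nhds (by norm_num))
  refine ⟨_, e1.and e2, ?_⟩
  rintro z ⟨hz1, hz2⟩ z' ⟨hz1', hz2'⟩ hzz
  have f1 : |c2 z'.1 z'.2 - c2 z.1 z.2| ≤
      K * ex z.1 ^ 2 * (|ex z'.2 - ex z.2| * (ex z'.2 + ex z.2)) := by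
    unfold c2
    rw [← hK, hzz]
    have g1 := abs_max_sub_max_le_abs (1 - K * (ex z.1 * ex z'.2) ^ 2)
      (1 - K * (ex z.1 * ex z.2) ^ 2) (0 : ℝ)
    rw [max_comm _ (0 : ℝ), max_comm _ (0 : ℝ)] at g1
    refine g1.trans (le_of_eq ?_)
    have g2 : 1 - K * (ex z.1 * ex z'.2) ^ 2 - (1 - K * (ex z.1 * ex z.2) ^ 2) =
        -(K * ex z.1 ^ 2 * ((ex z'.2 - ex z.2) * (ex z'.2 + ex z.2))) := by ring
    have g3 : |K * ex z.1 ^ 2| = K * ex z.1 ^ 2 := abs_of_nonneg (by positivity)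
    rw [g2, abs_neg, abs_mul (K * ex z.1 ^ 2), g3, abs_mul,
      abs_of_nonneg (add_nonneg (ModA_ex_nonneg _) (ModA_ex_nonneg _))]
  have f2 : |z'.2 + z.2| ≤ 2 * |y| + 1 := by
    have g1 : z'.2 + z.2 = (z'.2 - y) + (z.2 - y) + 2 * y := by ring
    rw [g1]
    have g2 := abs_add_le ((z'.2 - y) + (z.2 - y)) (2 * y)
    have g3 := abs_add_le (z'.2 - y) (z.2 - y)
    have g4 : |2 * y| = 2 * |y| := by rw [abs_mul]; norm_num
    linarith
  have f3 := ModA_ex_lip z'.2 z.2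
  have f4 : |ex z'.2 - ex z.2| ≤ |z'.2 - z.2| * (2 * |y| + 1) :=
    f3.trans (mul_le_mul_of_nonneg_left f2 (abs_nonneg _))
  have f5 : 0 ≤ ex z'.2 + ex z.2 := add_nonneg (ModA_ex_nonneg _) (ModA_ex_nonneg _)
  have f6 : K * ex z.1 ^ 2 * (|ex z'.2 - ex z.2| * (ex z'.2 + ex z.2)) ≤
      K * ex z.1 ^ 2 * (|z'.2 - z.2| * (2 * |y| + 1) * (ex z'.2 + ex z.2)) :=
    mul_le_mul_of_nonneg_left (mul_le_mul_of_nonneg_right f4 f5) (by positivity)
  have f7 : K * ex z.1 ^ 2 * (|z'.2 - z.2| * (2 * |y| + 1) * (ex z'.2 + ex z.2)) =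
      (Φ z + Φ z') / 2 * |z'.2 - z.2| := by
    rw [hΦ]
    simp only [hzz]
    ring
  have f8 : (Φ z + Φ z') / 2 * |z'.2 - z.2| ≤ η * |z'.2 - z.2| := by
    apply mul_le_mul_of_nonneg_right _ (abs_nonneg _)
    linarith
  linarith

end Pool.Agent.H.MP_1611f1_gt.TP
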