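import Pool.Agent.H.MP_1611f1_gt.TP.ModA

/-!
The local model: additivity, continuity, normal forms.
-/

namespace Pool.Agent.H.MP_1611f1_gt.TP

open Topology Set Filter
open Pool.Agent.H.MP_1611f1_gt.BR.U (Ci cl yt hlf psi cu rmp ang)
open Pool.Agent.H.MP_1611f1_gt.LG (Cylinder solidTorus)

variable (L : Loc)

theorem Yr_open : IsOpen Yr := by
  have h : Yr = {z : Y | |z.1.2| < 12 ∧ 1 / 1024 < (z.1.2 / 32) ^ 2 + ‖z.2‖ ^ 2} := by
    ext z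
    show (|z.1.2| < 12 ∧ 1 / 1024 < (z.1.2 / 32) ^ 2 + cl z.2 ^ 2) ↔
      (|z.1.2| < 12 ∧ 1 / 1024 < (z.1.2 / 32) ^ 2 + ‖z.2‖ ^ 2)
    rw [BR.U.norm_cl, sq_abs]
  rw [h]
  have h1 : IsOpen {z : Y | |z.1.2| < 12} := isOpen_lt (by fun_prop) continuous_const
  have h2 : IsOpen {z : Y | 1 / 1024 < (z.1.2 / 32) ^ 2 + ‖z.2‖ ^ 2} :=
    isOpen_lt continuous_const (by fun_prop)
  exact h1.and h2

private theorem ModB_ps {z : Y} (h : z ∈ Yr) :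
    ContinuousAt (fun w : Y => psi (1 / 2) (w.1.2 / 32) w.2) z :=
  ContinuousAt.comp (g := fun p : ℝ × Ci => psi (1 / 2) p.1 p.2)
    (f := fun w : Y => (w.1.2 / 32, w.2)) (BR.U.psi_contAt (1 / 2) h.2)
    (ContinuousAt.prodMk (by fun_prop) continuousAt_snd)

private theorem ModB_c2 (z : Y) : ContinuousAt (fun w : Y => c2 (w.1.2 / 32) (cl w.2)) z := by
  have hx : ContinuousAt (fun w : Y => w.1.2 / 32) z := by fun_prop
  have ht : ContinuousAt (fun w : Y => w.2) z := continuousAt_snd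
  rcases lt_or_ge |cl z.2| (1 / 2) with h | h
  · exact ContinuousAt.comp (g := fun p : ℝ × ℝ => c2 p.1 p.2)
      (f := fun w : Y => (w.1.2 / 32, cl w.2)) c2_cont.continuousAt
      (hx.prodMk (BR.U.NNear_cl ht h))
  · have h3 : ContinuousAt (fun w : Y => ‖w.2‖) z := ht.norm
    have h4 : (1 / 4 : ℝ) < ‖z.2‖ := by
      rw [BR.U.norm_cl]
      linarith
    have h5 : (fun w : Y => c2 (w.1.2 / 32) (cl w.2)) =ᶠ[𝓝 z] fun _ => (1 : ℝ) := by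
      filter_upwards [h3.eventually (lt_mem_nhds h4)] with w hw
      rw [BR.U.norm_cl] at hw
      exact c2_far (Or.inr (by linarith))
    exact continuousAt_const.congr h5.symm

private theorem ModB_g (z : Y) : ContinuousAt L.g z := by
  have hx : ContinuousAt (fun w : Y => w.1.2 / 32) z := by fun_prop
  have ht : ContinuousAt (fun w : Y => w.2) z := continuousAt_snd
  have h1 := BR.U.NNear_cucl 1 hx ht
  have h3 : ContinuousAt (fun w : Y => L.q * L.Fp w.1.1) z :=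
    continuousAt_const.mul (ContinuousAt.comp (g := L.Fp) (f := fun w : Y => w.1.1)
      (Fp_cont L).continuousAt (by fun_prop))
  have h4 := h1.add ((ModB_c2 z).mul h3)
  refine h4.congr (Eventually.of_forall fun w => ?_)
  show -(1 - cu (w.1.2 / 32) (cl w.2)) * (1 * cl w.2) +
    c2 (w.1.2 / 32) (cl w.2) * (L.q * L.Fp w.1.1) = L.g w
  unfold Loc.g
  ring

theorem EE_near {z : Y} (hz : z ∈ Yr) : ∃ N : Set Y, IsOpen N ∧ z ∈ N ∧ N ⊆ Yr ∧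
    (∀ w ∈ N, ∀ w' ∈ N, EE L w w' = EE L z w' - EE L z w) ∧ ContinuousOn (EE L z) N := by
  have hf : ContinuousOn (fun w : Y => ((w.2 - z.2, w.1.1 - z.1.1),
      psi (1 / 2) (w.1.2 / 32) w.2 - psi (1 / 2) (z.1.2 / 32) z.2)) Yr := by
    intro w hw
    refine ContinuousAt.continuousWithinAt ?_
    exact ((continuousAt_snd.sub continuousAt_const).prodMk
      (ContinuousAt.sub (by fun_prop) continuousAt_const)).prodMk
      ((ModB_ps hw).sub continuousAt_const)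
  have u1 : IsOpen {u : (Ci × Ci) × Ci | ‖u.1.1‖ < 1 / 4} :=
    isOpen_lt (by fun_prop) continuous_const
  have u2 : IsOpen {u : (Ci × Ci) × Ci | ‖u.1.2‖ < 1 / 4} :=
    isOpen_lt (by fun_prop) continuous_const
  have u3 : IsOpen {u : (Ci × Ci) × Ci | ‖u.2‖ < 1 / 4} :=
    isOpen_lt (by fun_prop) continuous_const
  have hU : IsOpen {u : (Ci × Ci) × Ci | (‖u.1.1‖ < 1 / 4 ∧ ‖u.1.2‖ < 1 / 4) ∧ ‖u.2‖ < 1 / 4} :=
    (u1.and u2).and u3
  have hN := hf.isOpen_inter_preimage Yr_open hU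
  refine ⟨_, hN, ⟨hz, ?_⟩, inter_subset_left, ?_, ?_⟩
  · show (‖z.2 - z.2‖ < 1 / 4 ∧ ‖z.1.1 - z.1.1‖ < 1 / 4) ∧
      ‖psi (1 / 2) (z.1.2 / 32) z.2 - psi (1 / 2) (z.1.2 / 32) z.2‖ < 1 / 4
    rw [sub_self, sub_self, sub_self, norm_zero]
    norm_num
  · rintro w ⟨-, ⟨h1, h2⟩, h3⟩ w' ⟨-, ⟨h1', h2'⟩, h3'⟩
    have h1 : ‖w.2 - z.2‖ < 1 / 4 := h1
    have h2 : ‖w.1.1 - z.1.1‖ < 1 / 4 := h2
    have h3 : ‖psi (1 / 2) (w.1.2 / 32) w.2 - psi (1 / 2) (z.1.2 / 32) z.2‖ < 1 / 4 := h3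
    have h1' : ‖w'.2 - z.2‖ < 1 / 4 := h1'
    have h2' : ‖w'.1.1 - z.1.1‖ < 1 / 4 := h2'
    have h3' : ‖psi (1 / 2) (w'.1.2 / 32) w'.2 - psi (1 / 2) (z.1.2 / 32) z.2‖ < 1 / 4 := h3'
    rw [BR.U.norm_cl] at h1 h2 h3 h1' h2' h3'
    unfold EE
    rw [BR.U.cl_base h1 h1', BR.U.cl_base h2 h2', BR.U.cl_base h3 h3']
    ring
  · rintro w ⟨hw, ⟨h1, h2⟩, h3⟩
    have h1 : ‖w.2 - z.2‖ < 1 / 4 := h1
    have h2 : ‖w.1.1 - z.1.1‖ < 1 / 4 := h2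
    have h3 : ‖psi (1 / 2) (w.1.2 / 32) w.2 - psi (1 / 2) (z.1.2 / 32) z.2‖ < 1 / 4 := h3
    rw [BR.U.norm_cl] at h1 h2 h3
    have e1 : ContinuousAt (fun w : Y => cl (w.2 - z.2)) w :=
      BR.U.NNear_cl (continuousAt_snd.sub continuousAt_const) (by linarith)
    have e2 : ContinuousAt (fun w : Y => cl (w.1.1 - z.1.1)) w :=
      BR.U.NNear_cl (ContinuousAt.sub (by fun_prop) continuousAt_const) (by linarith)
    have e3 : ContinuousAt (fun w : Y => cl (psi (1 / 2) (w.1.2 / 32) w.2 -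
        psi (1 / 2) (z.1.2 / 32) z.2)) w :=
      BR.U.NNear_cl ((ModB_ps hw).sub continuousAt_const) (by linarith)
    refine ContinuousAt.continuousWithinAt ?_
    have e4 : EE L z = fun w' : Y => cl (w'.2 - z.2) + L.q * cl (w'.1.1 - z.1.1) +
        (L.lam - 1) * cl (psi (1 / 2) (w'.1.2 / 32) w'.2 - psi (1 / 2) (z.1.2 / 32) z.2) +
        (L.g w' - L.g z) := rfl
    rw [e4]
    exact ((e1.add (continuousAt_const.mul e2)).add (continuousAt_const.mul e3)).add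
      ((ModB_g L w).sub continuousAt_const)

private theorem ModB_far {z : Y} (h : 1 / 16 ≤ |z.1.2 / 32| ∨ 1 / 16 ≤ |cl z.2|) :
    cu (z.1.2 / 32) (cl z.2) = 1 ∧ L.g z = L.q * L.Fp z.1.1 := by
  have h1 : cu (z.1.2 / 32) (cl z.2) = 1 := by
    apply BR.U.cu_far
    rcases h with h | h
    · have h1 : (1 / 16 : ℝ) ^ 2 ≤ |z.1.2 / 32| ^ 2 := by gcongr
      rw [sq_abs] at h1
      nlinarith [sq_nonneg (cl z.2)]
    · have h1 : (1 / 16 : ℝ) ^ 2 ≤ |cl z.2| ^ 2 := by gcongr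
      rw [sq_abs] at h1
      nlinarith [sq_nonneg (z.1.2 / 32)]
  refine ⟨h1, ?_⟩
  unfold Loc.g
  rw [h1, c2_far h]
  ring

/-- on the left side (`rmp = 0`, `cu = 1`, `c2 = 1`, `psi = 0`) -/
theorem EE_left {z z' : Y} (h : z.1.2 < -2) (h' : z'.1.2 < -2) :
    EE L z z' = cl (z'.2 - z.2) +
      L.q * (cl (z'.1.1 - z.1.1) + (L.Fp z'.1.1 - L.Fp z.1.1)) := by
  have key : ∀ w : Y, w.1.2 < -2 → L.g w = L.q * L.Fp w.1.1 ∧
      psi (1 / 2) (w.1.2 / 32) w.2 = 0 := by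
    intro w hw
    have h1 : 1 / 16 ≤ |w.1.2 / 32| := le_trans (by linarith) (neg_le_abs _)
    obtain ⟨h2, h3⟩ := ModB_far L (z := w) (Or.inl h1)
    refine ⟨h3, ?_⟩
    have h4 : rmp (w.1.2 / 32) = 0 := BR.U.rmp_left (by linarith)
    unfold psi BR.U.gg
    rw [h2, h4]
    have h5 : (1 : ℝ) * (0 * (yt w.2 + 1 / 2)) + (1 - 1) * ang (w.1.2 / 32) (cl w.2) = 0 := by
      ring
    rw [h5]
    rfl
  obtain ⟨h1, h2⟩ := key z h
  obtain ⟨h1', h2'⟩ := key z' h'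
  unfold EE
  rw [h1, h2, h1', h2', sub_self, BR.U.cl_zero]
  ring

/-- on the right side (`rmp = 1`, `cu = 1`, `c2 = 1`, `psi = t + 1/2`) -/
theorem EE_right {z z' : Y} (h : 2 < z.1.2) (h' : 2 < z'.1.2) :
    EE L z z' = L.lam * cl (z'.2 - z.2) +
      L.q * (cl (z'.1.1 - z.1.1) + (L.Fp z'.1.1 - L.Fp z.1.1)) := by
  have key : ∀ w : Y, 2 < w.1.2 → L.g w = L.q * L.Fp w.1.1 ∧
      psi (1 / 2) (w.1.2 / 32) w.2 = w.2 + ((1 / 2 : ℝ) : Ci) := by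
    intro w hw
    have h1 : 1 / 16 ≤ |w.1.2 / 32| := le_trans (by linarith) (le_abs_self _)
    obtain ⟨h2, h3⟩ := ModB_far L (z := w) (Or.inl h1)
    refine ⟨h3, ?_⟩
    have h4 : rmp (w.1.2 / 32) = 1 := BR.U.rmp_right (by linarith)
    unfold psi BR.U.gg
    rw [h2, h4]
    have h5 : (1 : ℝ) * (1 * (yt w.2 + 1 / 2)) + (1 - 1) * ang (w.1.2 / 32) (cl w.2) =
        yt w.2 + 1 / 2 := by
      ring
    rw [h5, AddCircle.coe_add, BR.U.coe_yt]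
  obtain ⟨h1, h2⟩ := key z h
  obtain ⟨h1', h2'⟩ := key z' h'
  unfold EE
  rw [h1, h2, h1', h2', add_sub_add_right_eq_sub]
  ring

/-- away from the time `0` -/
theorem EE_mid {z z' : Y} (h : 1 / 16 ≤ |cl z.2|) (h' : 1 / 16 ≤ |cl z'.2|) :
    EE L z z' = cl (z'.2 - z.2) +
      (L.lam - 1) * cl ((rmp (z'.1.2 / 32) * (yt z'.2 + 1 / 2) -
        rmp (z.1.2 / 32) * (yt z.2 + 1 / 2) : ℝ) : Ci) +
      L.q * (cl (z'.1.1 - z.1.1) + (L.Fp z'.1.1 - L.Fp z.1.1)) := by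
  obtain ⟨-, h1⟩ := ModB_far L (z := z) (Or.inr h)
  obtain ⟨-, h1'⟩ := ModB_far L (z := z') (Or.inr h')
  unfold EE
  rw [h1, h1', BR.U.psi_mid (by linarith), BR.U.psi_mid (by linarith), ← AddCircle.coe_sub]
  ring

end Pool.Agent.H.MP_1611f1_gt.TP
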